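import Pool.Agent.TH525.PF.Dyn

/-!
# MP_3a2b62: perturbations of a nonautonomous system, contracting graphs
-/

set_option autoImplicit false
set_option linter.unusedVariables false

open Set Filter Topology MeasureTheory

namespace Pool.Agent.V5helper25.QA

open Pool.Agent.TH525.PF Pool.Agent.TH525.PF.Sys

variable {Y : Type*} [MeasurableSpace Y]

/-- Fibre maps `G n`, exponentially close to the fibre maps of `S` along the orbit of `z`. -/
structure Shad (S : Sys Y) (z : Y) (G g : ℕ → ℝ → ℝ) (C lam : ℝ) : Prop where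
  der : ∀ n t, HasDerivAt (G n) (g n t) t
  lo : ∀ n t, S.L⁻¹ ≤ g n t
  hi : ∀ n t, g n t ≤ S.L
  one : ∀ n t, G n (t + 1) = G n t + 1
  C0 : 0 ≤ C
  close : ∀ n t, |G n t - S.F (S.T^[n] z) t| ≤ C * lam ^ n
  dclose : ∀ ε : ℝ, 0 < ε → ∀ᶠ n in atTop, ∀ t,
    |Real.log (g n t) - Real.log (S.G (S.T^[n] z) t)| ≤ ε

/-- `X` is an orbit from time `m` on -/
def IsOrb (G : ℕ → ℝ → ℝ) (m : ℕ) (X : ℕ → ℝ) : Prop := ∀ n, m ≤ n → X (n + 1) = G n (X n)

section

variable {S : Sys Y} {z : Y} {G g : ℕ → ℝ → ℝ} {C lam : ℝ}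

theorem gpos (h : Shad S z G g C lam) (n : ℕ) (t : ℝ) : 0 < g n t :=
  (inv_pos.2 S.Lpos).trans_le (h.lo n t)

theorem gmono (h : Shad S z G g C lam) (n : ℕ) : StrictMono (G n) := by
  refine strictMono_of_deriv_pos fun t => ?_
  rw [(h.der n t).deriv]
  exact gpos h n t

theorem orb_lt (h : Shad S z G g C lam) {m : ℕ} {X X' : ℕ → ℝ} (hX : IsOrb G m X)
    (hX' : IsOrb G m X') (hlt : X m < X' m) {n : ℕ} (hn : m ≤ n) : X n < X' n := by
  induction n, hn using Nat.le_induction with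
  | base => exact hlt
  | succ n hn ih =>
    rw [hX n hn, hX' n hn]
    exact gmono h n ih

theorem orb_le (h : Shad S z G g C lam) {m : ℕ} {X X' : ℕ → ℝ} (hX : IsOrb G m X)
    (hX' : IsOrb G m X') (hlt : X m ≤ X' m) {n : ℕ} (hn : m ≤ n) : X n ≤ X' n := by
  induction n, hn using Nat.le_induction with
  | base => exact hlt
  | succ n hn ih =>
    rw [hX n hn, hX' n hn]
    exact (gmono h n).monotone ih

theorem IsOrb.mono {m m' : ℕ} {X : ℕ → ℝ} (h : IsOrb G m X) (hm : m ≤ m') : IsOrb G m' X :=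
  fun n hn => h n (hm.trans hn)

theorem exists_orb (G : ℕ → ℝ → ℝ) (m : ℕ) (x : ℝ) : ∃ X : ℕ → ℝ, IsOrb G m X ∧ X m = x := by
  let Z : ℕ → ℝ := fun k => Nat.rec x (fun j y => G (m + j) y) k
  refine ⟨fun n => Z (n - m), fun n hn => ?_, ?_⟩
  · show Z (n + 1 - m) = G n (Z (n - m))
    rw [Nat.sub_add_comm hn]
    show G (m + (n - m)) (Z (n - m)) = _
    rw [Nat.add_sub_cancel' hn]
  · show Z (m - m) = x
    rw [Nat.sub_self]
    rfl

/-- the sums of the exponents along a graph -/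
noncomputable def Bs (S : Sys Y) (φ : Y → ℝ) (z : Y) (n : ℕ) : ℝ :=
  ∑ k ∈ Finset.range n, Real.log (S.G (S.T^[k] z) (φ (S.T^[k] z)))

theorem Bs_succ (S : Sys Y) (φ : Y → ℝ) (z : Y) (n : ℕ) :
    Bs S φ z (n + 1) = Bs S φ z n + Real.log (S.G (S.T^[n] z) (φ (S.T^[n] z))) := by
  unfold Bs
  rw [Finset.sum_range_succ]

theorem Bs_add (S : Sys Y) (φ : Y → ℝ) (z : Y) (m k : ℕ) :
    Bs S φ z (m + k) = Bs S φ z m + Bs S φ (S.T^[m] z) k := by
  unfold Bs
  rw [Finset.sum_range_add]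
  congr 1
  refine Finset.sum_congr rfl fun j _ => ?_
  rw [← Function.iterate_add_apply, add_comm m j]

variable {φ : Y → ℝ}

theorem u_step (h : Shad S z G g C lam) {ε η : ℝ}
    (hη : ∀ x y y', |y - y'| < η → |Real.log (S.G x y) - Real.log (S.G x y')| ≤ ε)
    (hinv : ∀ n, S.F (S.T^[n] z) (φ (S.T^[n] z)) = φ (S.T^[n + 1] z)) {m : ℕ} {X : ℕ → ℝ}
    (hX : IsOrb G m X) {n : ℕ} (hn : m ≤ n) (hu : |X n - φ (S.T^[n] z)| < η) :
    |X (n + 1) - φ (S.T^[n + 1] z)| ≤ C * lam ^ n +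
      Real.exp (Real.log (S.G (S.T^[n] z) (φ (S.T^[n] z))) + ε) * |X n - φ (S.T^[n] z)| := by
  have h1 := h.close n (X n)
  have h2 := S.contr hη (x := S.T^[n] z) hu
  rw [hinv n] at h2
  rw [hX n hn]
  have h3 := abs_add_le (G n (X n) - S.F (S.T^[n] z) (X n))
    (S.F (S.T^[n] z) (X n) - φ (S.T^[n + 1] z))
  rw [sub_add_sub_cancel] at h3
  linarith

theorem u_ineq (h : Shad S z G g C lam) {ε η χ : ℝ} {n1 : ℕ}
    (hlam : 0 < lam) (hθ : Real.exp (2 * ε) * lam < 1) (hε : 0 < ε) (hχ : 2 * ε ≤ χ)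
    (hη : ∀ x y y', |y - y'| < η → |Real.log (S.G x y) - Real.log (S.G x y')| ≤ ε)
    (hinv : ∀ n, S.F (S.T^[n] z) (φ (S.T^[n] z)) = φ (S.T^[n + 1] z))
    (hB : ∀ n, n1 ≤ n → |Bs S φ z n + χ * n| ≤ ε * n) {m : ℕ} (hm : n1 ≤ m) {X : ℕ → ℝ}
    (hX : IsOrb G m X) {n : ℕ} (hn : m ≤ n)
    (hu : ∀ k, m ≤ k → k < n → |X k - φ (S.T^[k] z)| < η) :
    |X n - φ (S.T^[n] z)| ≤
      Real.exp (Bs S φ z n - Bs S φ z m + ε * (n - m)) * |X m - φ (S.T^[m] z)| +
      ∑ j ∈ Finset.Ico m n, C * Real.exp (2 * ε) * (Real.exp (2 * ε) * lam) ^ j := by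
  set W : ℕ → ℕ → ℝ := fun i j => Real.exp (Bs S φ z i - Bs S φ z j + ε * ((i : ℝ) - j)) with hW
  have key : ∀ n, m ≤ n → (∀ k, m ≤ k → k < n → |X k - φ (S.T^[k] z)| < η) →
      |X n - φ (S.T^[n] z)| ≤ W n m * |X m - φ (S.T^[m] z)| +
        ∑ j ∈ Finset.Ico m n, W n (j + 1) * (C * lam ^ j) := by
    intro n hn
    induction n, hn using Nat.le_induction with
    | base => intro _; simp [hW]
    | succ n hn ih =>
      intro hu
      have h1 := ih fun k hk hkn => hu k hk (by omega)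
      have h2 := u_step h hη hinv hX hn (hu n hn (Nat.lt_succ_self n))
      have hws : ∀ j, W (n + 1) j =
          Real.exp (Real.log (S.G (S.T^[n] z) (φ (S.T^[n] z))) + ε) * W n j := by
        intro j
        rw [hW]
        show Real.exp _ = Real.exp _ * Real.exp _
        rw [← Real.exp_add, Bs_succ]
        congr 1
        push_cast
        ring
      have h3 : W (n + 1) (n + 1) = 1 := by simp [hW]
      rw [Finset.sum_Ico_succ_top hn, h3, one_mul]
      have h4 : ∑ j ∈ Finset.Ico m n, W (n + 1) (j + 1) * (C * lam ^ j) =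
          Real.exp (Real.log (S.G (S.T^[n] z) (φ (S.T^[n] z))) + ε) *
            ∑ j ∈ Finset.Ico m n, W n (j + 1) * (C * lam ^ j) := by
        rw [Finset.mul_sum]
        refine Finset.sum_congr rfl fun j _ => ?_
        rw [hws, mul_assoc]
      rw [h4, hws]
      have h5 := mul_le_mul_of_nonneg_left h1
        (Real.exp_pos (Real.log (S.G (S.T^[n] z) (φ (S.T^[n] z))) + ε)).le
      rw [mul_add, ← mul_assoc] at h5
      linarith
  refine (key n hn hu).trans (add_le_add_right ?_ _)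
  refine Finset.sum_le_sum fun j hj => ?_
  rw [Finset.mem_Ico] at hj
  have h1 : W n (j + 1) ≤ Real.exp (2 * ε) * Real.exp (2 * ε) ^ j := by
    rw [← Real.exp_nat_mul, ← Real.exp_add, hW]
    refine Real.exp_le_exp.2 ?_
    have b1 := (abs_le.1 (hB n (by omega))).2
    have b2 := (abs_le.1 (hB (j + 1) (by omega))).1
    have b3 : ((j : ℝ) + 1) ≤ n := by
      have : j + 1 ≤ n := hj.2
      exact_mod_cast this
    push_cast at b2 ⊢
    nlinarith [mul_nonneg (sub_nonneg.2 hχ) (sub_nonneg.2 b3)]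
  calc W n (j + 1) * (C * lam ^ j) ≤ (Real.exp (2 * ε) * Real.exp (2 * ε) ^ j) * (C * lam ^ j) :=
        mul_le_mul_of_nonneg_right h1 (mul_nonneg h.C0 (pow_nonneg hlam.le _))
    _ = _ := by rw [mul_pow]; ring

theorem geo_tail {θ K : ℝ} (h0 : 0 ≤ θ) (h1 : θ < 1) (hK : 0 ≤ K) (m n : ℕ) :
    ∑ j ∈ Finset.Ico m n, K * θ ^ j ≤ K * θ ^ m / (1 - θ) := by
  rcases le_total n m with h | h
  · rw [Finset.Ico_eq_empty_of_le h, Finset.sum_empty]
    exact div_nonneg (mul_nonneg hK (pow_nonneg h0 _)) (by linarith)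
  · rw [← Finset.mul_sum, mul_div_assoc]
    refine mul_le_mul_of_nonneg_left ?_ hK
    rw [geom_sum_Ico' h1.ne h]
    refine div_le_div_of_nonneg_right ?_ (by linarith)
    have := pow_nonneg h0 n
    linarith

/-- **The local basin of a contracted graph.** -/
theorem local_basin (h : Shad S z G g C lam) {ε η χ : ℝ} {n1 : ℕ}
    (hlam : 0 < lam) (hθ : Real.exp (2 * ε) * lam < 1) (hε : 0 < ε) (hχ : 3 * ε ≤ χ)
    (hη0 : 0 < η)
    (hη : ∀ x y y', |y - y'| < η → |Real.log (S.G x y) - Real.log (S.G x y')| ≤ ε)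
    (hinv : ∀ n, S.F (S.T^[n] z) (φ (S.T^[n] z)) = φ (S.T^[n + 1] z))
    (hB : ∀ n, n1 ≤ n → |Bs S φ z n + χ * n| ≤ ε * n) :
    ∃ n2, n1 ≤ n2 ∧ ∀ m, n2 ≤ m → ∀ a : ℝ, 1 ≤ a →
      (∀ k : ℕ, Bs S φ (S.T^[m] z) k + ε * k ≤ Real.log a) →
      ∀ X, IsOrb G m X → |X m - φ (S.T^[m] z)| < η / (2 * a) →
        Tendsto (fun n => X n - φ (S.T^[n] z)) atTop (𝓝 0) := by
  set θ := Real.exp (2 * ε) * lam with hθd
  set K := C * Real.exp (2 * ε) with hK
  have hθ0 : 0 < θ := mul_pos (Real.exp_pos _) hlam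
  have hK0 : 0 ≤ K := mul_nonneg h.C0 (Real.exp_pos _).le
  have htail : Tendsto (fun m : ℕ => K * θ ^ m / (1 - θ)) atTop (𝓝 0) := by
    have := ((tendsto_pow_atTop_nhds_zero_of_lt_one hθ0.le hθ).const_mul K).div_const (1 - θ)
    simpa using this
  obtain ⟨n3, hn3⟩ := eventually_atTop.1 (htail.eventually (gt_mem_nhds (half_pos hη0)))
  refine ⟨max n1 n3, le_max_left _ _, fun m hm a ha hW X hX hX0 => ?_⟩
  have hm1 : n1 ≤ m := (le_max_left _ _).trans hm
  have hm3 := hn3 m ((le_max_right _ _).trans hm)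
  have ha0 : 0 < a := by linarith
  have hχ2 : 2 * ε ≤ χ := by linarith
  -- the orbit stays close
  have hstay : ∀ n, m ≤ n → |X n - φ (S.T^[n] z)| < η := by
    intro n hn
    induction n using Nat.strong_induction_on with
    | _ n ih =>
      have h1 := u_ineq h hlam hθ hε hχ2 hη hinv hB hm1 hX hn
        fun k hk hkn => ih k hkn hk
      have h2 : Real.exp (Bs S φ z n - Bs S φ z m + ε * (n - m)) ≤ a := by
        rw [← Real.exp_log ha0]
        refine Real.exp_le_exp.2 ?_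
        have h3 := hW (n - m)
        have h4 := Bs_add S φ z m (n - m)
        rw [Nat.add_sub_cancel' hn] at h4
        rw [Nat.cast_sub hn] at h3
        linarith
      have h5 := geo_tail hθ0.le hθ hK0 m n
      have h6 : Real.exp (Bs S φ z n - Bs S φ z m + ε * (n - m)) * |X m - φ (S.T^[m] z)| ≤
          η / 2 := by
        calc _ ≤ a * (η / (2 * a)) := mul_le_mul h2 hX0.le (abs_nonneg _) ha0.le
          _ = η / 2 := by field_simp
      linarith
  -- convergence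
  rw [Metric.tendsto_atTop]
  intro e he
  obtain ⟨n4, hn4⟩ := eventually_atTop.1 (htail.eventually (gt_mem_nhds (half_pos he)))
  set M := max m n4 with hM
  have hMm : m ≤ M := le_max_left _ _
  have hlim : Tendsto (fun n : ℕ => Real.exp (Bs S φ z n - Bs S φ z M + ε * ((n : ℝ) - M)) * η)
      atTop (𝓝 0) := by
    have h1 : Tendsto (fun n : ℕ => Bs S φ z n - Bs S φ z M + ε * ((n : ℝ) - M)) atTop atBot := by
      have h0 : ∀ᶠ n : ℕ in atTop, Bs S φ z n - Bs S φ z M + ε * ((n : ℝ) - M) ≤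
          (-ε) * (n : ℝ) + (- Bs S φ z M - ε * M) := by
        filter_upwards [eventually_ge_atTop n1] with n hn
        have b1 := (abs_le.1 (hB n hn)).2
        have b2 : (0 : ℝ) ≤ n := Nat.cast_nonneg _
        nlinarith [mul_nonneg (sub_nonneg.2 hχ) b2]
      refine tendsto_atBot_mono' atTop h0 ?_
      exact tendsto_atBot_add_const_right _ _
          (Tendsto.const_mul_atTop_of_neg (by linarith) tendsto_natCast_atTop_atTop)
    have := (Real.tendsto_exp_atBot.comp h1).mul_const η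
    simpa using this
  obtain ⟨n5, hn5⟩ := eventually_atTop.1 (hlim.eventually (gt_mem_nhds (half_pos he)))
  refine ⟨max M n5, fun n hn => ?_⟩
  have hnM : M ≤ n := (le_max_left _ _).trans hn
  have h1 := u_ineq h hlam hθ hε hχ2 hη hinv hB (hm1.trans hMm) (hX.mono hMm) hnM
    fun k hk _ => hstay k (hMm.trans hk)
  have h2 := geo_tail hθ0.le hθ hK0 M n
  have h3 := hn4 M (le_max_right _ _)
  have h4 := hn5 n ((le_max_right _ _).trans hn)
  have h5 : Real.exp (Bs S φ z n - Bs S φ z M + ε * (n - M)) * |X M - φ (S.T^[M] z)| ≤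
      Real.exp (Bs S φ z n - Bs S φ z M + ε * (n - M)) * η :=
    mul_le_mul_of_nonneg_left (hstay M hMm).le (Real.exp_pos _).le
  rw [Real.dist_eq, sub_zero]
  linarith

end

end Pool.Agent.V5helper25.QA
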