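import Pool.Agent.V5helper25.QA.Ctr
import Pool.Agent.TH525.PF.Main

/-!
# MP_3a2b62: perturbations of a nonautonomous system with contracted and repelled graphs
-/

set_option autoImplicit false
set_option linter.unusedVariables false

open Set Filter Topology MeasureTheory

namespace Pool.Agent.V5helper25.QA

open Pool.Agent.TH525.PF Pool.Agent.TH525.PF.Sys

variable {Y : Type*} [MeasurableSpace Y]

open scoped Classical in
/-- The facts on the graphs along the orbit of `z` which are used. -/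
structure Facts (S : Sys Y) (A1 A2 : Finset (Y → ℝ)) (ε a ρ δ : ℝ) (M : ℕ) (z : Y)
    (good : ℕ → Prop) : Prop where
  inv1 : ∀ φ ∈ A1, ∀ n, S.F (S.T^[n] z) (φ (S.T^[n] z)) = φ (S.T^[n + 1] z)
  inv2 : ∀ φ ∈ A2, ∀ n, S.F (S.T^[n] z) (φ (S.T^[n] z)) = φ (S.T^[n + 1] z)
  ex1 : ∀ φ ∈ A1, ∃ χ : ℝ, 3 * ε ≤ χ ∧ ∀ᶠ n : ℕ in atTop, |Bs S φ z n + χ * n| ≤ ε * n
  ex2 : ∀ φ ∈ A2, ∃ χ : ℝ, 3 * ε + 2 * Real.log S.L * δ < χ ∧
    ∀ᶠ n : ℕ in atTop, |Bs S φ z n - χ * n| ≤ ε * n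
  btw : ∀ φ ∈ A2, ∀ φ' ∈ A2, ∀ k k' : ℤ, φ z + k < φ' z + k' →
    ∃ ψ ∈ A1, ∃ j : ℤ, φ z + k < ψ z + j ∧ ψ z + j < φ' z + k'
  g1 : ∀ n, good n → ∀ ψ ∈ A1, ∀ k : ℕ, Bs S ψ (S.T^[n] z) k + ε * k ≤ Real.log a
  g2 : ∀ n, good n → ∀ t : ℝ, (∃ φ ∈ A2, ∃ k : ℤ, |t - (φ (S.T^[n] z) + k)| < ρ) ∨
    (∃ ψ ∈ A1, ∃ k : ℤ, |t - (ψ (S.T^[n] z) + k)| < ρ) ∨
    ∃ ψ ∈ A1, ∃ k : ℤ, |S.it M (S.T^[n] z) t - (ψ (S.T^[n + M] z) + k)| ≤ ρ / 2
  g3 : ∀ n, good n → ∀ ψ ∈ A1, ∀ k : ℕ, Bs S ψ (S.T^[n + M] z) k + ε * k ≤ Real.log a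
  freq : ∀ᶠ n : ℕ in atTop, ∑ k ∈ Finset.range n, (if good k then (0 : ℝ) else 1) ≤ δ * n

/-- asymptotic to a lift of the graph -/
def As (S : Sys Y) (z : Y) (ψ : Y → ℝ) (k : ℤ) (X : ℕ → ℝ) : Prop :=
  Tendsto (fun n => X n - (ψ (S.T^[n] z) + k)) atTop (𝓝 0)

/-- asymptotic to one of the graphs -/
def Att (S : Sys Y) (A1 : Finset (Y → ℝ)) (z : Y) (X : ℕ → ℝ) : Prop :=
  ∃ ψ ∈ A1, ∃ k : ℤ, As S z ψ k X

section

variable {S : Sys Y} {z : Y} {G g : ℕ → ℝ → ℝ} {C lam : ℝ}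

theorem g_int (h : Shad S z G g C lam) (n : ℕ) (t : ℝ) (k : ℤ) : G n (t + k) = G n t + k := by
  have h2 : Function.Periodic (fun u => G n u - u) 1 := fun u => by
    show G n (u + 1) - (u + 1) = G n u - u
    rw [h.one]
    ring
  have h3 := h2.int_mul k t
  simp only [mul_one] at h3
  linarith

theorem orb_sub (h : Shad S z G g C lam) {m : ℕ} {X : ℕ → ℝ} (hX : IsOrb G m X) (k : ℤ) :
    IsOrb G m (fun n => X n - k) := by
  intro n hn
  show X (n + 1) - k = G n (X n - k)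
  have h1 := g_int h n (X n - k) k
  rw [sub_add_cancel] at h1
  rw [hX n hn, h1]
  ring

theorem F_lip (S : Sys Y) (x : Y) (y y' : ℝ) : |S.F x y - S.F x y'| ≤ S.L * |y - y'| := by
  wlog hyy : y' ≤ y generalizing y y'
  · rw [abs_sub_comm, abs_sub_comm y]
    exact this y' y (not_le.1 hyy).le
  rw [abs_of_nonneg (sub_nonneg.2 ((S.strict x).monotone hyy)), abs_of_nonneg (sub_nonneg.2 hyy)]
  exact (S.diff_le x hyy).2

theorem near_it (h : Shad S z G g C lam) (hl0 : 0 < lam) (hl1 : lam ≤ 1) (j : ℕ) :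
    ∃ K : ℝ, 0 ≤ K ∧ ∀ n X, IsOrb G n X →
      |X (n + j) - S.it j (S.T^[n] z) (X n)| ≤ K * lam ^ n := by
  induction j with
  | zero => exact ⟨0, le_rfl, fun n X _ => by simp⟩
  | succ j ih =>
    obtain ⟨K, hK, ih⟩ := ih
    refine ⟨C + S.L * K, add_nonneg h.C0 (mul_nonneg S.Lpos.le hK), fun n X hX => ?_⟩
    have e1 : X (n + (j + 1)) = G (n + j) (X (n + j)) := hX (n + j) (by omega)
    have e2 : S.T^[j] (S.T^[n] z) = S.T^[n + j] z := by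
      rw [← Function.iterate_add_apply, add_comm]
    rw [e1, it_succ, e2]
    have h1 := h.close (n + j) (X (n + j))
    have h2 := F_lip S (S.T^[n + j] z) (X (n + j)) (S.it j (S.T^[n] z) (X n))
    have h3 := mul_le_mul_of_nonneg_left (ih n X hX) S.Lpos.le
    have h4 : C * lam ^ (n + j) ≤ C * lam ^ n :=
      mul_le_mul_of_nonneg_left (pow_le_pow_of_le_one hl0.le hl1 (Nat.le_add_right n j)) h.C0
    have h5 := abs_add_le (G (n + j) (X (n + j)) - S.F (S.T^[n + j] z) (X (n + j)))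
      (S.F (S.T^[n + j] z) (X (n + j)) - S.F (S.T^[n + j] z) (S.it j (S.T^[n] z) (X n)))
    rw [sub_add_sub_cancel] at h5
    have h6 : (C + S.L * K) * lam ^ n = C * lam ^ n + S.L * (K * lam ^ n) := by ring
    linarith

theorem lift_inv {φ : Y → ℝ} (per : ∀ x y, S.F x (y + 1) = S.F x y + 1)
    (hinv : ∀ n, S.F (S.T^[n] z) (φ (S.T^[n] z)) = φ (S.T^[n + 1] z)) (k : ℤ) (n : ℕ) :
    S.F (S.T^[n] z) (φ (S.T^[n] z) + k) = φ (S.T^[n + 1] z) + k := by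
  rw [S.F_int per, hinv]

theorem lift_lt {φ φ' : Y → ℝ} (per : ∀ x y, S.F x (y + 1) = S.F x y + 1)
    (hinv : ∀ n, S.F (S.T^[n] z) (φ (S.T^[n] z)) = φ (S.T^[n + 1] z))
    (hinv' : ∀ n, S.F (S.T^[n] z) (φ' (S.T^[n] z)) = φ' (S.T^[n + 1] z)) {k k' : ℤ}
    (hlt : φ z + k < φ' z + k') (n : ℕ) : φ (S.T^[n] z) + k < φ' (S.T^[n] z) + k' := by
  induction n with
  | zero => exact hlt
  | succ n ih =>
    rw [← lift_inv per hinv, ← lift_inv per hinv']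
    exact S.strict _ ih

theorem lift_eq {φ φ' : Y → ℝ} (per : ∀ x y, S.F x (y + 1) = S.F x y + 1)
    (hinv : ∀ n, S.F (S.T^[n] z) (φ (S.T^[n] z)) = φ (S.T^[n + 1] z))
    (hinv' : ∀ n, S.F (S.T^[n] z) (φ' (S.T^[n] z)) = φ' (S.T^[n + 1] z)) {k k' : ℤ}
    (he : φ z + k = φ' z + k') (n : ℕ) : φ (S.T^[n] z) + k = φ' (S.T^[n] z) + k' := by
  induction n with
  | zero => exact he
  | succ n ih =>
    rw [← lift_inv per hinv, ← lift_inv per hinv', ih]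

theorem As_squeeze {ψ : Y → ℝ} {k : ℤ} {X X1 X2 : ℕ → ℝ} (h1 : As S z ψ k X1)
    (h2 : As S z ψ k X2) {m : ℕ} (hl : ∀ n, m ≤ n → X1 n ≤ X n) (hr : ∀ n, m ≤ n → X n ≤ X2 n) :
    As S z ψ k X := by
  refine tendsto_of_tendsto_of_tendsto_of_le_of_le' h1 h2 ?_ ?_
  · filter_upwards [eventually_ge_atTop m] with n hn
    have := hl n hn
    linarith
  · filter_upwards [eventually_ge_atTop m] with n hn
    have := hr n hn
    linarith

variable {A1 A2 : Finset (Y → ℝ)} {ε η a ρ δ : ℝ} {M : ℕ} {good : ℕ → Prop}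

/-- **The local basins.** -/
theorem basin (h : Shad S z G g C lam) (hF : Facts S A1 A2 ε a ρ δ M z good)
    (hlam : 0 < lam) (hθ : Real.exp (2 * ε) * lam < 1) (hε : 0 < ε) (hη0 : 0 < η)
    (hη : ∀ x y y', |y - y'| < η → |Real.log (S.G x y) - Real.log (S.G x y')| ≤ ε)
    (ha : 1 ≤ a) (hρ : ρ ≤ η / (2 * a)) :
    ∃ N, ∀ n, N ≤ n → (∀ ψ ∈ A1, ∀ k : ℕ, Bs S ψ (S.T^[n] z) k + ε * k ≤ Real.log a) →
      ∀ X, IsOrb G n X → ∀ ψ ∈ A1, ∀ k : ℤ, |X n - (ψ (S.T^[n] z) + k)| < ρ → As S z ψ k X := by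
  classical
  have key : ∀ ψ : Y → ℝ, ∃ n2 : ℕ, ψ ∈ A1 → ∀ m, n2 ≤ m →
      (∀ k : ℕ, Bs S ψ (S.T^[m] z) k + ε * k ≤ Real.log a) →
      ∀ X, IsOrb G m X → |X m - ψ (S.T^[m] z)| < η / (2 * a) →
        Tendsto (fun n => X n - ψ (S.T^[n] z)) atTop (𝓝 0) := by
    intro ψ
    by_cases hψ : ψ ∈ A1
    · obtain ⟨χ, hχ, hB⟩ := hF.ex1 ψ hψ
      obtain ⟨n1, hn1⟩ := eventually_atTop.1 hB
      obtain ⟨n2, -, hn2⟩ := local_basin h hlam hθ hε hχ hη0 hη (hF.inv1 ψ hψ) hn1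
      exact ⟨n2, fun _ m hm h1 X hX h2 => hn2 m hm a ha h1 X hX h2⟩
    · exact ⟨0, fun hc => absurd hc hψ⟩
  choose n2 hn2 using key
  refine ⟨A1.sup n2, fun n hn h1 X hX ψ hψ k hk => ?_⟩
  have h2 := hn2 ψ hψ n ((Finset.le_sup hψ).trans hn) (h1 ψ hψ) (fun n => X n - k)
    (orb_sub h hX k) (by
      show |X n - k - ψ (S.T^[n] z)| < _
      rw [show X n - k - ψ (S.T^[n] z) = X n - (ψ (S.T^[n] z) + k) by ring]
      exact hk.trans_le hρ)
  refine h2.congr fun n => ?_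
  ring

theorem good_inf (hF : Facts S A1 A2 ε a ρ δ M z good) (hδ : δ < 1) (N : ℕ) :
    ∃ n, N ≤ n ∧ good n := by
  classical
  by_contra hcon
  push Not at hcon
  obtain ⟨n0, hn0⟩ := eventually_atTop.1 hF.freq
  obtain ⟨K, hK⟩ := exists_nat_gt ((N : ℝ) / (1 - δ))
  set n := max n0 (max N K) with hn
  have h1 := hn0 n (le_max_left _ _)
  have hNn : N ≤ n := (le_max_left _ _).trans (le_max_right _ _)
  have hKn : K ≤ n := (le_max_right _ _).trans (le_max_right _ _)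
  have h2 : ((n : ℝ) - N) ≤ ∑ k ∈ Finset.range n, (if good k then (0 : ℝ) else 1) := by
    have e1 : ((n : ℝ) - N) = ∑ k ∈ Finset.Ico N n, (1 : ℝ) := by
      rw [Finset.sum_const, Nat.card_Ico, nsmul_eq_mul, mul_one, Nat.cast_sub hNn]
    rw [e1]
    calc ∑ k ∈ Finset.Ico N n, (1 : ℝ) = ∑ k ∈ Finset.Ico N n, (if good k then (0 : ℝ) else 1) := by
          refine Finset.sum_congr rfl fun k hk => ?_
          rw [if_neg (hcon k (Finset.mem_Ico.1 hk).1)]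
      _ ≤ _ := by
          refine Finset.sum_le_sum_of_subset_of_nonneg ?_ ?_
          · intro k hk
            rw [Finset.mem_range]
            exact (Finset.mem_Ico.1 hk).2
          · intro k _ _
            split_ifs <;> norm_num
  have h3 : (N : ℝ) / (1 - δ) < n := hK.trans_le (by exact_mod_cast hKn)
  rw [div_lt_iff₀ (by linarith)] at h3
  nlinarith

/-- an orbit which is not attracted is close to a repelled graph at the good times -/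
theorem near_rep (h : Shad S z G g C lam) (hF : Facts S A1 A2 ε a ρ δ M z good)
    (hlam : 0 < lam) (hlam1 : lam < 1) (hθ : Real.exp (2 * ε) * lam < 1) (hε : 0 < ε)
    (hη0 : 0 < η)
    (hη : ∀ x y y', |y - y'| < η → |Real.log (S.G x y) - Real.log (S.G x y')| ≤ ε)
    (ha : 1 ≤ a) (hρ0 : 0 < ρ) (hρ : ρ ≤ η / (2 * a)) :
    ∃ N, ∀ n, N ≤ n → good n → ∀ X, IsOrb G n X → ¬ Att S A1 z X →
      ∃ φ ∈ A2, ∃ k : ℤ, |X n - (φ (S.T^[n] z) + k)| < ρ := by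
  obtain ⟨N1, hN1⟩ := basin h hF hlam hθ hε hη0 hη ha hρ
  obtain ⟨K, hK, hn⟩ := near_it h hlam hlam1.le M
  have hlim : Tendsto (fun n : ℕ => K * lam ^ n) atTop (𝓝 0) := by
    have := (tendsto_pow_atTop_nhds_zero_of_lt_one hlam.le hlam1).const_mul K
    simpa using this
  obtain ⟨N2, hN2⟩ := eventually_atTop.1 (hlim.eventually (gt_mem_nhds (half_pos hρ0)))
  refine ⟨max N1 N2, fun n hnn hg X hX hatt => ?_⟩
  have hn1 : N1 ≤ n := (le_max_left _ _).trans hnn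
  rcases hF.g2 n hg (X n) with h1 | ⟨ψ, hψ, k, h1⟩ | ⟨ψ, hψ, k, h1⟩
  · exact h1
  · exact absurd ⟨ψ, hψ, k, hN1 n hn1 (hF.g1 n hg) X hX ψ hψ k h1⟩ hatt
  · have h2 := hn n X hX
    have h3 := hN2 n ((le_max_right _ _).trans hnn)
    have h4 := abs_add_le (X (n + M) - S.it M (S.T^[n] z) (X n))
      (S.it M (S.T^[n] z) (X n) - (ψ (S.T^[n + M] z) + k))
    rw [sub_add_sub_cancel] at h4
    exact absurd ⟨ψ, hψ, k, hN1 (n + M) (by omega) (hF.g3 n hg) X (hX.mono (by omega)) ψ hψ k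
      (by linarith)⟩ hatt

/-- the repelled graph does not change -/
theorem same_rep (h : Shad S z G g C lam) (hF : Facts S A1 A2 ε a ρ δ M z good)
    (per : ∀ x y, S.F x (y + 1) = S.F x y + 1)
    (hlam : 0 < lam) (hlam1 : lam < 1) (hθ : Real.exp (2 * ε) * lam < 1) (hε : 0 < ε)
    (hη0 : 0 < η)
    (hη : ∀ x y y', |y - y'| < η → |Real.log (S.G x y) - Real.log (S.G x y')| ≤ ε)
    (ha : 1 ≤ a) (hρ0 : 0 < ρ) (hρ : ρ ≤ η / (2 * a)) :
    ∃ N, ∀ m, N ≤ m → good m → ∀ X, IsOrb G m X → ¬ Att S A1 z X →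
      ∀ φ ∈ A2, ∀ k : ℤ, |X m - (φ (S.T^[m] z) + k)| < ρ → ∀ n, m ≤ n → good n →
        |X n - (φ (S.T^[n] z) + k)| < ρ := by
  obtain ⟨N1, hN1⟩ := basin h hF hlam hθ hε hη0 hη ha hρ
  obtain ⟨N2, hN2⟩ := near_rep h hF hlam hlam1 hθ hε hη0 hη ha hρ0 hρ
  refine ⟨max N1 N2, fun m hm hg X hX hatt φ hφ k hk n hn hgn => ?_⟩
  have hm1 : N1 ≤ m := (le_max_left _ _).trans hm
  have hm2 : N2 ≤ m := (le_max_right _ _).trans hm
  obtain ⟨φ', hφ', k', hk'⟩ := hN2 n (hm2.trans hn) hgn X (hX.mono hn) hatt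
  -- close to an attracted lift is impossible
  have no : ∀ j, m ≤ j → good j → ∀ ψ ∈ A1, ∀ i : ℤ, ¬ |X j - (ψ (S.T^[j] z) + i)| < ρ := by
    intro j hj hgj ψ hψ i hc
    exact hatt ⟨ψ, hψ, i, hN1 j (hm1.trans hj) (hF.g1 j hgj) X (hX.mono hj) ψ hψ i hc⟩
  rcases lt_trichotomy (φ z + k) (φ' z + k') with hlt | heq | hlt
  · exfalso
    obtain ⟨ψ, hψ, j, h1, h2⟩ := hF.btw φ hφ φ' hφ' k k' hlt
    have h1m := lift_lt per (hF.inv2 φ hφ) (hF.inv1 ψ hψ) h1 m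
    have h2n := lift_lt per (hF.inv1 ψ hψ) (hF.inv2 φ' hφ') h2 n
    have a1 : X m < ψ (S.T^[m] z) + j := by
      by_contra hc
      push Not at hc
      refine no m le_rfl hg ψ hψ j ?_
      have := (abs_lt.1 hk).2
      rw [abs_lt]
      constructor <;> linarith
    have a2 : ψ (S.T^[n] z) + j < X n := by
      by_contra hc
      push Not at hc
      refine no n hn hgn ψ hψ j ?_
      have := (abs_lt.1 hk').1
      rw [abs_lt]
      constructor <;> linarith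
    obtain ⟨P, hP, hP0⟩ := exists_orb G m (ψ (S.T^[m] z) + j)
    obtain ⟨Q, hQ, hQ0⟩ := exists_orb G n (ψ (S.T^[n] z) + j)
    have b1 := hN1 m hm1 (hF.g1 m hg) P hP ψ hψ j (by rw [hP0, sub_self, abs_zero]; exact hρ0)
    have b2 := hN1 n (hm1.trans hn) (hF.g1 n hgn) Q hQ ψ hψ j
      (by rw [hQ0, sub_self, abs_zero]; exact hρ0)
    refine hatt ⟨ψ, hψ, j, As_squeeze (m := n) b2 b1 (fun i hi => ?_) (fun i hi => ?_)⟩
    · exact orb_le h hQ (hX.mono hn) (by rw [hQ0]; exact a2.le) hi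
    · exact orb_le h hX hP (by rw [hP0]; exact a1.le) (hn.trans hi)
  · have := lift_eq per (hF.inv2 φ hφ) (hF.inv2 φ' hφ') heq n
    rw [this]
    exact hk'
  · exfalso
    obtain ⟨ψ, hψ, j, h1, h2⟩ := hF.btw φ' hφ' φ hφ k' k hlt
    have h2m := lift_lt per (hF.inv1 ψ hψ) (hF.inv2 φ hφ) h2 m
    have h1n := lift_lt per (hF.inv2 φ' hφ') (hF.inv1 ψ hψ) h1 n
    have a1 : ψ (S.T^[m] z) + j < X m := by
      by_contra hc
      push Not at hc
      refine no m le_rfl hg ψ hψ j ?_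
      have := (abs_lt.1 hk).1
      rw [abs_lt]
      constructor <;> linarith
    have a2 : X n < ψ (S.T^[n] z) + j := by
      by_contra hc
      push Not at hc
      refine no n hn hgn ψ hψ j ?_
      have := (abs_lt.1 hk').2
      rw [abs_lt]
      constructor <;> linarith
    obtain ⟨P, hP, hP0⟩ := exists_orb G m (ψ (S.T^[m] z) + j)
    obtain ⟨Q, hQ, hQ0⟩ := exists_orb G n (ψ (S.T^[n] z) + j)
    have b1 := hN1 m hm1 (hF.g1 m hg) P hP ψ hψ j (by rw [hP0, sub_self, abs_zero]; exact hρ0)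
    have b2 := hN1 n (hm1.trans hn) (hF.g1 n hgn) Q hQ ψ hψ j
      (by rw [hQ0, sub_self, abs_zero]; exact hρ0)
    refine hatt ⟨ψ, hψ, j, As_squeeze (m := n) b1 b2 (fun i hi => ?_) (fun i hi => ?_)⟩
    · exact orb_le h hP hX (by rw [hP0]; exact a1.le) (hn.trans hi)
    · exact orb_le h (hX.mono hn) hQ (by rw [hQ0]; exact a2.le) hi

end

end Pool.Agent.V5helper25.QA
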