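import Pool.Agent.V5helper25.EX.Der

/-!
# MP_3a2b62: a metric on a closed manifold for which smooth maps are Lipschitz
-/

set_option autoImplicit false
set_option linter.unusedVariables false
set_option linter.unusedSectionVars false

open scoped Manifold ContDiff Topology
open Filter Set Metric

universe u v

namespace Pool.Agent.V5helper25.QA

open Pool.Agent.H718R2.G Pool.Agent.W564.SC Pool.Agent.TH80.OMS Pool.Agent.TH290.CL
  Pool.Agent.N813.OF Pool.Agent.N813.CX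

section

variable {n : ℕ} {N : Type u} [TopologicalSpace N] [T2Space N] [CompactSpace N]
  [ChartedSpace (V n) N] [IsManifold (𝓡 n) ∞ N]

/-- a smooth injective map, expanding in suitable charts -/
structure Emb (n : ℕ) (N : Type u) [TopologicalSpace N] [ChartedSpace (V n) N] {W : Type v}
    [NormedAddCommGroup W] [NormedSpace ℝ W] (e : N → W) : Prop where
  smooth : ContMDiff (𝓡 n) 𝓘(ℝ, W) ∞ e
  inj : Function.Injective e
  loc : ∀ x₀ : N, ∃ φ ∈ IsManifold.maximalAtlas (𝓡 n) ∞ N, x₀ ∈ φ.source ∧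
    ∀ᶠ q in 𝓝 (x₀, x₀), ‖φ q.1 - φ q.2‖ ≤ ‖e q.1 - e q.2‖

theorem exists_emb : ∃ (ι : Type u) (_ : Fintype ι) (e : N → ι → V n × ℝ), Emb n N e := by
  classical
  obtain ⟨ι, f, -⟩ := SmoothBumpCovering.exists_isSubordinate (M := N) (𝓡 n) isClosed_univ
    fun (x : N) _ => univ_mem
  have hfin := f.fintype
  refine ⟨ι, hfin, fun x i => (f i x • extChartAt (𝓡 n) (f.c i) x, f i x), ?_, ?_, ?_⟩
  · exact contMDiff_pi_space.2 fun i =>
      ((f i).contMDiff_smul contMDiffOn_extChartAt).prodMk_space (f i).contMDiff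
  · intro x y h
    simp only [funext_iff] at h
    obtain ⟨h₁, h₂⟩ := Prod.mk_inj.1 (h (f.ind x (mem_univ x)))
    rw [f.apply_ind x (mem_univ x)] at h₂
    rw [← h₂, f.apply_ind x (mem_univ x), one_smul, one_smul] at h₁
    have := f.mem_extChartAt_source_of_eq_one h₂.symm
    exact (extChartAt (𝓡 n) (f.c _)).injOn (f.mem_extChartAt_ind_source x (mem_univ x)) this h₁
  · intro x₀
    set i := f.ind x₀ (mem_univ x₀) with hi
    refine ⟨chartAt (V n) (f.c i), IsManifold.chart_mem_maximalAtlas _,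
      f.mem_chartAt_ind_source x₀ (mem_univ x₀), ?_⟩
    have h1 : ∀ᶠ x in 𝓝 x₀, f i x = 1 := f.eventuallyEq_one x₀ (mem_univ x₀)
    rw [nhds_prod_eq]
    filter_upwards [h1.prod_mk h1] with q hq
    set E : N → ι → V n × ℝ := fun x i => (f i x • extChartAt (𝓡 n) (f.c i) x, f i x) with hE
    have e1 : ‖(E q.1 - E q.2) i‖ ≤ ‖E q.1 - E q.2‖ := norm_le_pi_norm (E q.1 - E q.2) i
    refine le_trans ?_ e1
    have e2 : (E q.1 - E q.2) i = (extChartAt (𝓡 n) (f.c i) q.1 - extChartAt (𝓡 n) (f.c i) q.2, 0) := by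
      show (f i q.1 • extChartAt (𝓡 n) (f.c i) q.1, f i q.1) -
        (f i q.2 • extChartAt (𝓡 n) (f.c i) q.2, f i q.2) = _
      rw [hq.1, hq.2, one_smul, one_smul, Prod.mk_sub_mk, sub_self]
    rw [e2]
    exact norm_fst_le (extChartAt (𝓡 n) (f.c i) q.1 - extChartAt (𝓡 n) (f.c i) q.2, (0 : ℝ))

variable {W : Type v} [NormedAddCommGroup W] [NormedSpace ℝ W] {e : N → W}

/-- maps of a manifold with a parameter, in charts -/
theorem chart_diff {W' : Type*} [NormedAddCommGroup W'] [NormedSpace ℝ W'] {g : ℝ × N → W'}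
    (hg : ContMDiff (𝓘(ℝ, ℝ).prod (𝓡 n)) 𝓘(ℝ, W') 1 g) {φ : OpenPartialHomeomorph N (V n)}
    (hφ : φ ∈ IsManifold.maximalAtlas (𝓡 n) ∞ N) {x₀ : N} (hx : x₀ ∈ φ.source) (t₀ : ℝ) :
    ContDiffAt ℝ 1 (fun q : ℝ × V n => g (q.1, φ.symm q.2)) (t₀, φ x₀) := by
  rw [← contMDiffAt_iff_contDiffAt]
  have h1 : ContMDiffAt 𝓘(ℝ, ℝ × V n) 𝓘(ℝ, ℝ) 1 (fun q : ℝ × V n => q.1) (t₀, φ x₀) :=
    contDiffAt_fst.contMDiffAt
  have h2 : ContMDiffAt 𝓘(ℝ, ℝ × V n) (𝓡 n) 1 (fun q : ℝ × V n => q.2) (t₀, φ x₀) :=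
    contDiffAt_snd.contMDiffAt
  have h3 : ContMDiffAt (𝓡 n) (𝓡 n) 1 φ.symm (φ x₀) := by
    have h4 : ContMDiffOn (𝓡 n) (𝓡 n) ∞ φ.symm φ.target :=
      contMDiffOn_symm_of_mem_maximalAtlas hφ
    exact (h4.contMDiffAt (φ.open_target.mem_nhds (φ.map_source hx))).of_le (by norm_cast)
  have h5 : ContMDiffAt 𝓘(ℝ, ℝ × V n) (𝓡 n) 1 (fun q : ℝ × V n => φ.symm q.2) (t₀, φ x₀) :=
    ContMDiffAt.comp (g := φ.symm) (f := fun q : ℝ × V n => q.2) _ h3 h2
  have h6 : ContMDiffAt 𝓘(ℝ, ℝ × V n) (𝓘(ℝ, ℝ).prod (𝓡 n)) 1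
      (fun q : ℝ × V n => (q.1, φ.symm q.2)) (t₀, φ x₀) := h1.prodMk h5
  exact ContMDiffAt.comp (g := g) (f := fun q : ℝ × V n => (q.1, φ.symm q.2)) _
    hg.contMDiffAt h6

/-- **Smooth maps are Lipschitz.** -/
theorem lip_emb (h : Emb n N e) {W' : Type*} [NormedAddCommGroup W'] [NormedSpace ℝ W']
    {g : ℝ × N → W'} (hg : ContMDiff (𝓘(ℝ, ℝ).prod (𝓡 n)) 𝓘(ℝ, W') 1 g) :
    ∃ K : ℝ, 0 ≤ K ∧ ∀ t ∈ Icc (0 : ℝ) 1, ∀ x y, ‖g (t, x) - g (t, y)‖ ≤ K * ‖e x - e y‖ := by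
  have hK : IsCompact (Icc (0 : ℝ) 1 ×ˢ (univ : Set (N × N))) := isCompact_Icc.prod isCompact_univ
  have hgc : Continuous g := hg.continuous
  have hec : Continuous e := h.smooth.continuous
  have key : ∃ K : ℝ, 0 ≤ K ∧ ∀ p ∈ Icc (0 : ℝ) 1 ×ˢ (univ : Set (N × N)),
      ‖g (p.1, p.2.1) - g (p.1, p.2.2)‖ ≤ K * ‖e p.2.1 - e p.2.2‖ := by
    refine hK.induction_on (p := fun s => ∃ K : ℝ, 0 ≤ K ∧ ∀ p ∈ s,
      ‖g (p.1, p.2.1) - g (p.1, p.2.2)‖ ≤ K * ‖e p.2.1 - e p.2.2‖) ?_ ?_ ?_ ?_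
    · exact ⟨0, le_rfl, fun p hp => absurd hp (notMem_empty _)⟩
    · rintro s t hst ⟨K, hK, h1⟩
      exact ⟨K, hK, fun p hp => h1 p (hst hp)⟩
    · rintro s t ⟨K, hK, h1⟩ ⟨K', hK', h2⟩
      refine ⟨max K K', hK.trans (le_max_left _ _), fun p hp => ?_⟩
      rcases hp with hp | hp
      · exact (h1 p hp).trans (mul_le_mul_of_nonneg_right (le_max_left _ _) (norm_nonneg _))
      · exact (h2 p hp).trans (mul_le_mul_of_nonneg_right (le_max_right _ _) (norm_nonneg _))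
    · rintro ⟨t₀, x₀, y₀⟩ -
      have key2 : ∃ K : ℝ, 0 ≤ K ∧ ∀ᶠ p in 𝓝 (t₀, (x₀, y₀)),
          ‖g (p.1, p.2.1) - g (p.1, p.2.2)‖ ≤ K * ‖e p.2.1 - e p.2.2‖ := by
        by_cases hxy : x₀ = y₀
        · subst hxy
          obtain ⟨φ, hφ, hx, hloc⟩ := h.loc x₀
          obtain ⟨K, T, hT, hLip⟩ := (chart_diff hg hφ hx t₀).exists_lipschitzOnWith
          refine ⟨K, K.2, ?_⟩
          have c1 : Tendsto (fun p : ℝ × N × N => (p.1, φ p.2.1)) (𝓝 (t₀, (x₀, x₀)))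
              (𝓝 (t₀, φ x₀)) :=
            continuousAt_fst.prodMk (ContinuousAt.comp (g := φ) (f := fun p : ℝ × N × N => p.2.1)
              (φ.continuousAt hx) (by fun_prop))
          have c2 : Tendsto (fun p : ℝ × N × N => (p.1, φ p.2.2)) (𝓝 (t₀, (x₀, x₀)))
              (𝓝 (t₀, φ x₀)) :=
            continuousAt_fst.prodMk (ContinuousAt.comp (g := φ) (f := fun p : ℝ × N × N => p.2.2)
              (φ.continuousAt hx) (by fun_prop))
          have c3 : Tendsto (fun p : ℝ × N × N => p.2) (𝓝 (t₀, (x₀, x₀))) (𝓝 (x₀, x₀)) :=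
            continuousAt_snd
          have c4 : ∀ᶠ p : ℝ × N × N in 𝓝 (t₀, (x₀, x₀)), p.2.1 ∈ φ.source :=
            (show ContinuousAt (fun p : ℝ × N × N => p.2.1) (t₀, (x₀, x₀)) by fun_prop).eventually
              (φ.open_source.mem_nhds hx)
          have c5 : ∀ᶠ p : ℝ × N × N in 𝓝 (t₀, (x₀, x₀)), p.2.2 ∈ φ.source :=
            (show ContinuousAt (fun p : ℝ × N × N => p.2.2) (t₀, (x₀, x₀)) by fun_prop).eventually
              (φ.open_source.mem_nhds hx)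
          filter_upwards [c1 hT, c2 hT, c3.eventually hloc, c4, c5] with p a1 a2 a3 a4 a5
          have b1 := hLip.dist_le_mul _ a1 _ a2
          rw [dist_eq_norm] at b1
          simp only [φ.left_inv a4, φ.left_inv a5] at b1
          refine b1.trans (mul_le_mul_of_nonneg_left ?_ K.2)
          rw [dist_eq_norm, Prod.mk_sub_mk, sub_self, Prod.norm_mk, norm_zero,
            max_eq_right (norm_nonneg _)]
          exact a3
        · have hne : 0 < ‖e x₀ - e y₀‖ := norm_pos_iff.2 (sub_ne_zero.2 fun hc => hxy (h.inj hc))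
          set c := ‖e x₀ - e y₀‖ with hc
          set D := ‖g (t₀, x₀) - g (t₀, y₀)‖ with hD
          refine ⟨(D + 1) / (c / 2), by positivity, ?_⟩
          have c1 : ContinuousAt (fun p : ℝ × N × N => ‖e p.2.1 - e p.2.2‖) (t₀, (x₀, y₀)) := by
            fun_prop
          have c2 : ContinuousAt (fun p : ℝ × N × N => ‖g (p.1, p.2.1) - g (p.1, p.2.2)‖)
              (t₀, (x₀, y₀)) := by fun_prop
          filter_upwards [c1.eventually (lt_mem_nhds (show c / 2 < c by linarith)),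
            c2.eventually (gt_mem_nhds (show D < D + 1 by linarith))] with p a1 a2
          have b1 : (D + 1) / (c / 2) * (c / 2) ≤ (D + 1) / (c / 2) * ‖e p.2.1 - e p.2.2‖ :=
            mul_le_mul_of_nonneg_left a1.le (by positivity)
          rw [div_mul_cancel₀ _ (by positivity)] at b1
          exact a2.le.trans b1
      obtain ⟨K, hK, h1⟩ := key2
      exact ⟨_, mem_nhdsWithin_of_mem_nhds h1, K, hK, fun p hp => hp⟩
  obtain ⟨K, hK, h1⟩ := key
  exact ⟨K, hK, fun t ht x y => h1 (t, (x, y)) ⟨ht, mem_univ _⟩⟩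

end

end Pool.Agent.V5helper25.QA
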