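import Pool.Agent.V5helper25.QA.Sep
import Pool.Agent.V5helper25.PB.MainF

/-!
# MP_3a2b62, Q2: the time maps of the flow of a `C^1` field are Lipschitz
-/

set_option autoImplicit false
set_option linter.unusedVariables false
set_option linter.unusedSectionVars false

open scoped Manifold ContDiff Topology
open Filter Set Metric MeasureTheory

universe u v

namespace Pool.Agent.V5helper25.QA

open Pool.Agent.H718R2.G Pool.Agent.W564.SC Pool.Agent.N813.CX Pool.Agent.TH290.CL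
  Pool.Agent.V5helper25.PB

section

variable {n : ℕ} {N : Type u} [TopologicalSpace N] [T2Space N] [CompactSpace N]
  [ChartedSpace (V n) N] [IsManifold (𝓡 n) ∞ N]
  {W : Type v} [NormedAddCommGroup W] [NormedSpace ℝ W] {e : N → W}

theorem der_aux {γ : ℝ → N} {t : ℝ} {v : V n} (he : MDifferentiableAt (𝓡 n) 𝓘(ℝ, W) e (γ t))
    (hγ : HasMFDerivAt 𝓘(ℝ, ℝ) (𝓡 n) γ t ((1 : ℝ →L[ℝ] ℝ).smulRight v)) :
    HasDerivAt (fun t => e (γ t)) ((mfderiv (𝓡 n) 𝓘(ℝ, W) e (γ t) : V n →L[ℝ] W) v) t := by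
  have h4 := HasMFDerivAt.comp t he.hasMFDerivAt hγ
  have h5 : ∃ D : V n →L[ℝ] W, D = mfderiv (𝓡 n) 𝓘(ℝ, W) e (γ t) := ⟨_, rfl⟩
  obtain ⟨D, hD⟩ := h5
  have h6 : HasFDerivAt (fun t => e (γ t)) (D.comp ((1 : ℝ →L[ℝ] ℝ).smulRight v)) t := by
    rw [hD]
    exact hasMFDerivAt_iff_hasFDerivAt.1 h4
  have h7 : HasDerivAt (fun t => e (γ t)) ((D.comp ((1 : ℝ →L[ℝ] ℝ).smulRight v)) 1) t :=
    h6.hasDerivAt
  have h8 : (D.comp ((1 : ℝ →L[ℝ] ℝ).smulRight v)) 1 = D v := by simp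
  rw [h8] at h7
  rw [hD] at h7
  exact h7

theorem lip_flow (h : Emb n N e) {X : ∀ y : N, TangentSpace (𝓡 n) y} (hX : FieldC 1 X)
    {Φ : ℝ → N → N} (hΦ : IsFlowOf X Φ) {τ : ℝ} (hτ : 0 ≤ τ) :
    ∃ K : ℝ, 0 ≤ K ∧ ∀ x y, ‖e (Φ τ x) - e (Φ τ y)‖ ≤ K * ‖e x - e y‖ := by
  have : IsManifold (𝓡 n) 1 N := IsManifold.of_le (m := 1) (n := ∞) (by norm_cast)
  set Gv : N → W := fun y => mfderiv (𝓡 n) 𝓘(ℝ, W) e y (X y) with hGv
  have hG : ContMDiff (𝓡 n) 𝓘(ℝ, W) 1 Gv := by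
    have h1 : ContMDiff (𝓡 n).tangent 𝓘(ℝ, W).tangent 1 (tangentMap (𝓡 n) 𝓘(ℝ, W) e) :=
      h.smooth.contMDiff_tangentMap (by norm_cast)
    have h2 := ContMDiff.comp h1 hX
    exact (contMDiff_snd_tangentBundle_modelSpace W 𝓘(ℝ, W)).comp h2
  obtain ⟨K, hK, h1⟩ := lip_emb h (g := fun q : ℝ × N => Gv q.2) (hG.comp contMDiff_snd)
  have hder : ∀ y t, HasDerivAt (fun t => e (Φ t y)) (Gv (Φ t y)) t := by
    intro y t
    exact der_aux (γ := fun t => Φ t y) ((h.smooth (Φ t y)).mdifferentiableAt (by norm_num))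
      (hΦ.2 y t)
  refine ⟨Real.exp (K * τ), (Real.exp_pos _).le, fun x y => ?_⟩
  have h2 := norm_le_gronwallBound_of_norm_deriv_right_le
    (f := fun t => e (Φ t x) - e (Φ t y)) (f' := fun t => Gv (Φ t x) - Gv (Φ t y))
    (δ := ‖e x - e y‖) (K := K) (ε := 0) (a := 0) (b := τ)
    (fun t _ => ((hder x t).sub (hder y t)).continuousAt.continuousWithinAt)
    (fun t _ => ((hder x t).sub (hder y t)).hasDerivWithinAt)
    (by rw [hΦ.1.zero, hΦ.1.zero])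
    (fun t _ => by rw [add_zero]; exact h1 0 ⟨le_rfl, zero_le_one⟩ _ _) τ ⟨hτ, le_rfl⟩
  rw [gronwallBound_ε0, sub_zero, mul_comm] at h2
  exact h2

end

end Pool.Agent.V5helper25.QA
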