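import Pool.Agent.V5helper25.QA.Mea

/-!
# MP_3a2b62: perturbed orbits are attracted by the graphs, for almost every base point
-/

set_option autoImplicit false
set_option linter.unusedVariables false
set_option linter.unusedSectionVars false

open Set Filter Topology MeasureTheory

namespace Pool.Agent.V5helper25.QA

open Pool.Agent.TH525.PF Pool.Agent.TH525.PF.Sys

variable {Y : Type*} [MeasurableSpace Y] {ν : Measure Y} [IsProbabilityMeasure ν] {S : Sys Y}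
  {A A1 : Finset (Y → ℝ)} {α : Y → ℝ}

/-- the set of the points with a uniform bound for the contraction -/
def E1 (S : Sys Y) (A1 : Finset (Y → ℝ)) (ε : ℝ) (j : ℕ) : Set Y :=
  {x | ∀ ψ ∈ A1, ∀ k : ℕ, Bs S ψ x k + ε * k ≤ j}

theorem E1_meas {ε : ℝ} (hA : ∀ ψ ∈ A1, Measurable ψ) (j : ℕ) : MeasurableSet (E1 S A1 ε j) := by
  have : E1 S A1 ε j = ⋂ ψ ∈ A1, ⋂ k : ℕ, {x | Bs S ψ x k + ε * k ≤ j} := by
    ext x; simp [E1]
  rw [this]
  refine Finset.measurableSet_biInter A1 fun ψ hψ => ?_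
  exact MeasurableSet.iInter fun k => measurableSet_le ((bs_meas (hA ψ hψ) k).add_const _)
    measurable_const

theorem E1_mono {ε : ℝ} : Monotone (E1 S A1 ε) := by
  intro i j hij x hx ψ hψ k
  exact (hx ψ hψ k).trans (by exact_mod_cast hij)

theorem E1_full (erg : Ergodic S.T ν) {ε : ℝ} (hε : 0 < ε) (hA : ∀ ψ ∈ A1, S.Gr ν ψ)
    (hex : ∀ ψ ∈ A1, S.ex ν ψ ≤ -3 * ε) : ∀ᵐ x ∂ν, ∃ j, x ∈ E1 S A1 ε j := by
  have h1 : ∀ᵐ x ∂ν, ∀ ψ ∈ A1, ∀ᶠ j : ℕ in atTop, ∀ k : ℕ, Bs S ψ x k + ε * k ≤ j := by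
    refine (Filter.eventually_all_finset A1).2 fun ψ hψ => ?_
    filter_upwards [bs_lim erg (hA ψ hψ)] with x hx
    have h2 : Tendsto (fun k : ℕ => Bs S ψ x k + ε * k) atTop atBot := by
      have h0 : ∀ᶠ k : ℕ in atTop, Bs S ψ x k + ε * k ≤ (-ε) * k := by
        filter_upwards [hx ε hε] with k hk
        have := (abs_le.1 hk).2
        have h3 := mul_le_mul_of_nonneg_right (hex ψ hψ) (Nat.cast_nonneg (α := ℝ) k)
        linarith
      refine tendsto_atBot_mono' atTop h0 ?_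
      exact Tendsto.const_mul_atTop_of_neg (by linarith) tendsto_natCast_atTop_atTop
    obtain ⟨C, hC⟩ := bddAbove_range_of_tendsto_atTop_atBot h2
    obtain ⟨J, hJ⟩ := exists_nat_ge C
    filter_upwards [eventually_ge_atTop J] with j hj k
    have h4 : C ≤ j := hJ.trans (by exact_mod_cast hj)
    exact (hC ⟨k, rfl⟩).trans h4
  filter_upwards [h1] with x hx
  have h2 := (Filter.eventually_all_finset A1).2 hx
  obtain ⟨j, hj⟩ := h2.exists
  exact ⟨j, hj⟩

/-- the set of the points with a uniform time of attraction -/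
def E2 (S : Sys Y) (ν : Measure Y) (A : Finset (Y → ℝ)) (ρ : ℝ) (j : ℕ) : Set Y :=
  {x | ∀ M : ℕ, j ≤ M → ∀ φ ∈ A, ∀ ψ ∈ A,
    (LeftA S ν φ ψ → |S.it M x (max (φ x) (ψ x - ρ)) - φ (S.T^[M] x)| ≤ ρ / 2) ∧
    (RightA S ν φ ψ → |S.it M x (min (ψ x) (φ x + ρ)) - ψ (S.T^[M] x)| ≤ ρ / 2)}

theorem E2_meas {ρ : ℝ} (hA : ∀ ψ ∈ A, Measurable ψ) (j : ℕ) : MeasurableSet (E2 S ν A ρ j) := by
  have : E2 S ν A ρ j = ⋂ M : ℕ, ⋂ _ : j ≤ M, ⋂ φ ∈ A, ⋂ ψ ∈ A,
      ({x | LeftA S ν φ ψ → |S.it M x (max (φ x) (ψ x - ρ)) - φ (S.T^[M] x)| ≤ ρ / 2} ∩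
      {x | RightA S ν φ ψ → |S.it M x (min (ψ x) (φ x + ρ)) - ψ (S.T^[M] x)| ≤ ρ / 2}) := by
    ext x; simp [E2]
  rw [this]
  refine MeasurableSet.iInter fun M => MeasurableSet.iInter fun _ =>
    Finset.measurableSet_biInter A fun φ hφ => Finset.measurableSet_biInter A fun ψ hψ => ?_
  have mφ := hA φ hφ
  have mψ := hA ψ hψ
  have hT := S.T.measurable.iterate M
  refine MeasurableSet.inter ?_ ?_
  · by_cases hL : LeftA S ν φ ψ
    · simp only [hL, true_imp_iff]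
      exact measurableSet_le ((S.it_meas M (mφ.max (mψ.sub_const ρ))).sub (mφ.comp hT)).abs
        measurable_const
    · simp [hL]
  · by_cases hL : RightA S ν φ ψ
    · simp only [hL, true_imp_iff]
      exact measurableSet_le ((S.it_meas M (mψ.min (mφ.add_const ρ))).sub (mψ.comp hT)).abs
        measurable_const
    · simp [hL]

theorem E2_mono {ρ : ℝ} : Monotone (E2 S ν A ρ) := by
  intro i j hij x hx M hM
  exact hx M (hij.trans hM)

theorem E2_full (erg : Ergodic S.T ν) {ρ : ℝ} (hρ : 0 < ρ) (hA : ∀ ψ ∈ A, S.Gr ν ψ) :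
    ∀ᵐ x ∂ν, ∃ j, x ∈ E2 S ν A ρ j := by
  have h1 : ∀ᵐ x ∂ν, ∀ φ ∈ A, ∀ ψ ∈ A, ∀ᶠ M : ℕ in atTop,
      (LeftA S ν φ ψ → |S.it M x (max (φ x) (ψ x - ρ)) - φ (S.T^[M] x)| ≤ ρ / 2) ∧
      (RightA S ν φ ψ → |S.it M x (min (ψ x) (φ x + ρ)) - ψ (S.T^[M] x)| ≤ ρ / 2) := by
    refine (Filter.eventually_all_finset A).2 fun φ hφ => ?_
    refine (Filter.eventually_all_finset A).2 fun ψ hψ => ?_
    have hL : ∀ᵐ x ∂ν, ∀ᶠ M : ℕ in atTop,
        (LeftA S ν φ ψ → |S.it M x (max (φ x) (ψ x - ρ)) - φ (S.T^[M] x)| ≤ ρ / 2) := by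
      by_cases h : LeftA S ν φ ψ
      · filter_upwards [h.2, (hA φ hφ).iter S erg] with x hx hit
        by_cases hc : ψ x - ρ ≤ φ x
        · refine Eventually.of_forall fun M _ => ?_
          rw [max_eq_left hc, hit M, sub_self, abs_zero]
          exact (half_pos hρ).le
        · push Not at hc
          have h2 : S.Cv φ x (ψ x - ρ) := hx _ hc (by linarith)
          have h3 := (Metric.tendsto_atTop.1 h2) (ρ / 2) (half_pos hρ)
          obtain ⟨N, hN⟩ := h3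
          filter_upwards [eventually_ge_atTop N] with M hM _
          have h4 := hN M hM
          rw [Real.dist_eq, sub_zero] at h4
          rw [max_eq_right hc.le]
          exact h4.le
      · exact Eventually.of_forall fun x => Eventually.of_forall fun M hc => absurd hc h
    have hR : ∀ᵐ x ∂ν, ∀ᶠ M : ℕ in atTop,
        (RightA S ν φ ψ → |S.it M x (min (ψ x) (φ x + ρ)) - ψ (S.T^[M] x)| ≤ ρ / 2) := by
      by_cases h : RightA S ν φ ψ
      · filter_upwards [h.2, (hA ψ hψ).iter S erg] with x hx hit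
        by_cases hc : ψ x ≤ φ x + ρ
        · refine Eventually.of_forall fun M _ => ?_
          rw [min_eq_left hc, hit M, sub_self, abs_zero]
          exact (half_pos hρ).le
        · push Not at hc
          have h2 : S.Cv ψ x (φ x + ρ) := hx _ (by linarith) hc
          have h3 := (Metric.tendsto_atTop.1 h2) (ρ / 2) (half_pos hρ)
          obtain ⟨N, hN⟩ := h3
          filter_upwards [eventually_ge_atTop N] with M hM _
          have h4 := hN M hM
          rw [Real.dist_eq, sub_zero] at h4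
          rw [min_eq_right hc.le]
          exact h4.le
      · exact Eventually.of_forall fun x => Eventually.of_forall fun M hc => absurd hc h
    filter_upwards [hL, hR] with x a b using a.and b
  filter_upwards [h1] with x hx
  have h2 : ∀ᶠ M : ℕ in atTop, ∀ φ ∈ A, ∀ ψ ∈ A,
      (LeftA S ν φ ψ → |S.it M x (max (φ x) (ψ x - ρ)) - φ (S.T^[M] x)| ≤ ρ / 2) ∧
      (RightA S ν φ ψ → |S.it M x (min (ψ x) (φ x + ρ)) - ψ (S.T^[M] x)| ≤ ρ / 2) := by
    refine (Filter.eventually_all_finset A).2 fun φ hφ => ?_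
    exact (Filter.eventually_all_finset A).2 fun ψ hψ => hx φ hφ ψ hψ
  obtain ⟨j, hj⟩ := eventually_atTop.1 h2
  exact ⟨j, fun M hM => hj M hM⟩

/-- what happens to the points of the fibre over a good point -/
theorem g2_of (erg : Ergodic S.T ν) (per : ∀ x y, S.F x (y + 1) = S.F x y + 1)
    (hno : ∀ φ, S.Gr ν φ → S.ex ν φ ≠ 0)
    (hA : ∀ φ ∈ A, S.Gr ν φ) {x : Y}
    (hstr : ∀ y, α x ≤ y → y < α x + 1 →
      ∃ φ ∈ A, ∃ ψ ∈ A, φ x ≤ y ∧ y < ψ x ∧ Adj S ν φ ψ)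
    (hit : ∀ φ ∈ A, ∀ n : ℕ, S.it n x (φ x) = φ (S.T^[n] x)) {ρ : ℝ} (hρ : 0 < ρ) {M : ℕ}
    (hx : x ∈ E2 S ν A ρ M) (t : ℝ) :
    (∃ φ ∈ A, 0 < S.ex ν φ ∧ ∃ k : ℤ, |t - (φ x + k)| < ρ) ∨
    (∃ ψ ∈ A, S.ex ν ψ < 0 ∧ ∃ k : ℤ, |t - (ψ x + k)| < ρ) ∨
    ∃ ψ ∈ A, S.ex ν ψ < 0 ∧ ∃ k : ℤ, |S.it M x t - (ψ (S.T^[M] x) + k)| ≤ ρ / 2 := by
  set i : ℤ := ⌊t - α x⌋ with hi
  have f1 := Int.floor_le (t - α x)
  have f2 := Int.lt_floor_add_one (t - α x)
  obtain ⟨φ, hφ, ψ, hψ, c1, c2, hadj⟩ := hstr (t - i) (by linarith) (by linarith)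
  have hti : S.it M x t = S.it M x (t - i) + i := by
    have := S.it_int per i M x (t - i)
    rwa [sub_add_cancel] at this
  -- close to one of the two graphs
  have near : ∀ χ ∈ A, |t - i - χ x| < ρ →
      (∃ φ ∈ A, 0 < S.ex ν φ ∧ ∃ k : ℤ, |t - (φ x + k)| < ρ) ∨
      (∃ ψ ∈ A, S.ex ν ψ < 0 ∧ ∃ k : ℤ, |t - (ψ x + k)| < ρ) ∨
      ∃ ψ ∈ A, S.ex ν ψ < 0 ∧ ∃ k : ℤ, |S.it M x t - (ψ (S.T^[M] x) + k)| ≤ ρ / 2 := by
    intro χ hχ hc
    have hc' : |t - (χ x + i)| < ρ := by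
      rw [show t - (χ x + i) = t - i - χ x by ring]
      exact hc
    rcases lt_or_gt_of_ne (hno χ (hA χ hχ)) with h | h
    · exact Or.inr (Or.inl ⟨χ, hχ, h, i, hc'⟩)
    · exact Or.inl ⟨χ, hχ, h, i, hc'⟩
  rcases adj_strip erg hno (hA φ hφ) (hA ψ hψ) hadj with h | h
  · have h2 := (hx M le_rfl φ hφ ψ hψ).1 h
    rcases le_or_gt (t - i) (ψ x - ρ) with hc | hc
    · right; right
      refine ⟨φ, hφ, h.1, i, ?_⟩
      rw [hti, show S.it M x (t - i) + i - (φ (S.T^[M] x) + i) =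
        S.it M x (t - i) - φ (S.T^[M] x) by ring]
      have d1 := S.it_mono M x c1
      rw [hit φ hφ M] at d1
      have d2 := S.it_mono M x (hc.trans (le_max_right (φ x) _))
      have d3 := (abs_le.1 h2).2
      rw [abs_le]
      constructor <;> linarith
    · refine near ψ hψ ?_
      rw [abs_lt]
      constructor <;> linarith
  · have h2 := (hx M le_rfl φ hφ ψ hψ).2 h
    rcases le_or_gt (φ x + ρ) (t - i) with hc | hc
    · right; right
      refine ⟨ψ, hψ, h.1, i, ?_⟩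
      rw [hti, show S.it M x (t - i) + i - (ψ (S.T^[M] x) + i) =
        S.it M x (t - i) - ψ (S.T^[M] x) by ring]
      have d1 := S.it_mono M x c2.le
      rw [hit ψ hψ M] at d1
      have d2 := S.it_mono M x ((min_le_right (ψ x) _).trans hc)
      have d3 := (abs_le.1 h2).1
      rw [abs_le]
      constructor <;> linarith
    · refine near φ hφ ?_
      rw [abs_lt]
      constructor <;> linarith

end Pool.Agent.V5helper25.QA
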