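import Pool.Agent.V5helper25.QA.Det

/-!
# MP_3a2b62: perturbations of a nonautonomous system, only countably many orbits are not attracted
-/

set_option autoImplicit false
set_option linter.unusedVariables false

open Set Filter Topology MeasureTheory

namespace Pool.Agent.V5helper25.QA

open Pool.Agent.TH525.PF Pool.Agent.TH525.PF.Sys

variable {Y : Type*} [MeasurableSpace Y] {S : Sys Y} {z : Y} {G g : ℕ → ℝ → ℝ} {C lam : ℝ}
  {A1 A2 : Finset (Y → ℝ)} {ε η a ρ δ : ℝ} {M : ℕ} {good : ℕ → Prop}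

theorem g_slope (h : Shad S z G g C lam) (n : ℕ) {y y' : ℝ} (hy : y < y') :
    ∃ ξ ∈ Ioo y y', G n y' - G n y = g n ξ * (y' - y) := by
  obtain ⟨ξ, h1, h2⟩ := exists_hasDerivAt_eq_slope (G n) (g n) hy
    (fun t _ => (h.der n t).continuousAt.continuousWithinAt) (fun t _ => h.der n t)
  refine ⟨ξ, h1, ?_⟩
  rw [h2, div_mul_cancel₀]
  exact (sub_pos.2 hy).ne'

theorem g_log (h : Shad S z G g C lam) (n : ℕ) (t : ℝ) : - Real.log S.L ≤ Real.log (g n t) := by
  rw [← Real.log_inv]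
  exact Real.log_le_log (inv_pos.2 S.Lpos) (h.lo n t)

open scoped Classical in
theorem no_two (h : Shad S z G g C lam) (hF : Facts S A1 A2 ε a ρ δ M z good)
    (per : ∀ x y, S.F x (y + 1) = S.F x y + 1) (hε : 0 < ε)
    (hη : ∀ x y y', |y - y'| < η → |Real.log (S.G x y) - Real.log (S.G x y')| ≤ ε)
    (hρ0 : 0 < ρ) (hρ : ρ ≤ η) (hδ : δ < 1) {m : ℕ} {X X' : ℕ → ℝ} (hX : IsOrb G m X)
    (hX' : IsOrb G m X') (hlt : X m < X' m) {φ : Y → ℝ} (hφ : φ ∈ A2) {k : ℤ}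
    (hk : ∀ n, m ≤ n → good n → |X n - (φ (S.T^[n] z) + k)| < ρ)
    (hk' : ∀ n, m ≤ n → good n → |X' n - (φ (S.T^[n] z) + k)| < ρ) : False := by
  obtain ⟨N3, hN3⟩ := eventually_atTop.1 (h.dclose ε hε)
  obtain ⟨χ, hχ, hB⟩ := hF.ex2 φ hφ
  obtain ⟨N4, hN4⟩ := eventually_atTop.1 hB
  obtain ⟨N5, hN5⟩ := eventually_atTop.1 hF.freq
  set b : ℕ → ℝ := fun n => if good n then (0 : ℝ) else 1 with hb
  have hpos : ∀ n, m ≤ n → 0 < X' n - X n := fun n hn => sub_pos.2 (orb_lt h hX hX' hlt hn)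
  have hstep : ∀ n, m ≤ n → N3 ≤ n → Real.log (X' n - X n) +
      (Real.log (S.G (S.T^[n] z) (φ (S.T^[n] z))) - 2 * ε) - 2 * Real.log S.L * b n ≤
      Real.log (X' (n + 1) - X (n + 1)) := by
    intro n hn hn3
    obtain ⟨ξ, hξ, hs⟩ := g_slope h n (sub_pos.1 (hpos n hn))
    rw [hX n hn, hX' n hn, hs, Real.log_mul (gpos h n ξ).ne' (hpos n hn).ne']
    by_cases hg : good n
    · have hb0 : b n = 0 := if_pos hg
      rw [hb0]
      have e1 := hk n hn hg
      have e2 := hk' n hn hg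
      have e3 : |ξ - (φ (S.T^[n] z) + k)| < η := by
        rw [abs_lt] at e1 e2 ⊢
        constructor <;> linarith [hξ.1, hξ.2, e1.1, e2.2]
      have e4 := hη (S.T^[n] z) ξ (φ (S.T^[n] z) + k) e3
      rw [G_int (F := S.F) (G := S.G) per S.der k] at e4
      have e5 := hN3 n hn3 ξ
      have e6 := (abs_le.1 e4).1
      have e7 := (abs_le.1 e5).1
      linarith
    · have hb0 : b n = 1 := if_neg hg
      rw [hb0]
      have e1 := g_log h n ξ
      have e2 := (abs_le.1 (S.abs_log (S.T^[n] z) (φ (S.T^[n] z)))).2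
      linarith
  set m' := max m N3 with hm'
  have hmm : m ≤ m' := le_max_left _ _
  have hN3m : N3 ≤ m' := le_max_right _ _
  have hsum : ∀ n, m' ≤ n → Real.log (X' m' - X m') + (Bs S φ z n - Bs S φ z m') -
      2 * ε * ((n : ℝ) - m') - 2 * Real.log S.L *
        (∑ k ∈ Finset.range n, b k - ∑ k ∈ Finset.range m', b k) ≤ Real.log (X' n - X n) := by
    intro n hn
    induction n, hn using Nat.le_induction with
    | base => simp
    | succ n hn ih =>
      have h1 := hstep n (hmm.trans hn) (hN3m.trans hn)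
      rw [Bs_succ, Finset.sum_range_succ]
      push_cast
      linarith
  have hb0 : ∀ n, 0 ≤ ∑ k ∈ Finset.range n, b k := fun n =>
    Finset.sum_nonneg fun k _ => by
      simp only [hb]
      split_ifs <;> norm_num
  set c := Real.log (X' m' - X m') - Bs S φ z m' + 2 * ε * m' with hc
  set κ := χ - 3 * ε - 2 * Real.log S.L * δ with hκ
  have hκ0 : 0 < κ := by rw [hκ]; linarith
  obtain ⟨K, hK⟩ := exists_nat_gt ((Real.log (2 * ρ) - c) / κ)
  obtain ⟨n, hn, hgn⟩ := good_inf hF hδ (max (max m' K) (max N4 N5))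
  have n1 : m' ≤ n := ((le_max_left _ _).trans (le_max_left _ _)).trans hn
  have n2 : K ≤ n := ((le_max_right _ _).trans (le_max_left _ _)).trans hn
  have n3 : N4 ≤ n := ((le_max_left _ _).trans (le_max_right _ _)).trans hn
  have n4 : N5 ≤ n := ((le_max_right _ _).trans (le_max_right _ _)).trans hn
  have h1 := hsum n n1
  have h2 := (abs_le.1 (hN4 n n3)).1
  have h3 := hN5 n n4
  have h3' : ∑ k ∈ Finset.range n, b k ≤ δ * n := h3
  have h4 := mul_le_mul_of_nonneg_left h3' (mul_nonneg zero_le_two S.logL)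
  have h5 := mul_nonneg (mul_nonneg zero_le_two S.logL) (hb0 m')
  have h6 : Real.log (X' n - X n) < Real.log (2 * ρ) := by
    refine Real.log_lt_log (hpos n (hmm.trans n1)) ?_
    have e1 := (abs_lt.1 (hk n (hmm.trans n1) hgn)).1
    have e2 := (abs_lt.1 (hk' n (hmm.trans n1) hgn)).2
    linarith
  have h7 : (Real.log (2 * ρ) - c) / κ < n := hK.trans_le (by exact_mod_cast n2)
  rw [div_lt_iff₀ hκ0] at h7
  have h8 : (n : ℝ) * κ = χ * n - 3 * ε * n - 2 * Real.log S.L * (δ * n) := by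
    rw [hκ]; ring
  have h9 : 2 * Real.log S.L * (∑ k ∈ Finset.range n, b k - ∑ k ∈ Finset.range m', b k) =
      2 * Real.log S.L * ∑ k ∈ Finset.range n, b k -
        2 * Real.log S.L * ∑ k ∈ Finset.range m', b k := by ring
  rw [h9] at h1
  linarith

/-- **Only countably many orbits are not attracted.** -/
theorem countable_bad (h : Shad S z G g C lam) (hF : Facts S A1 A2 ε a ρ δ M z good)
    (per : ∀ x y, S.F x (y + 1) = S.F x y + 1)
    (hlam : 0 < lam) (hlam1 : lam < 1) (hθ : Real.exp (2 * ε) * lam < 1) (hε : 0 < ε)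
    (hη0 : 0 < η)
    (hη : ∀ x y y', |y - y'| < η → |Real.log (S.G x y) - Real.log (S.G x y')| ≤ ε)
    (ha : 1 ≤ a) (hρ0 : 0 < ρ) (hρ : ρ ≤ η / (2 * a)) (hδ : δ < 1) :
    {t : ℝ | ∃ X, IsOrb G 0 X ∧ X 0 = t ∧ ¬ Att S A1 z X}.Countable := by
  obtain ⟨N1, hN1⟩ := near_rep h hF hlam hlam1 hθ hε hη0 hη ha hρ0 hρ
  obtain ⟨N2, hN2⟩ := same_rep h hF per hlam hlam1 hθ hε hη0 hη ha hρ0 hρ
  obtain ⟨m, hm, hgm⟩ := good_inf hF hδ (max N1 N2)
  have hρη : ρ ≤ η := by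
    refine hρ.trans (div_le_self hη0.le ?_)
    linarith
  have hsub : {t : ℝ | ∃ X, IsOrb G 0 X ∧ X 0 = t ∧ ¬ Att S A1 z X} ⊆
      ⋃ φ ∈ A2, ⋃ k : ℤ, {t : ℝ | ∃ X, IsOrb G 0 X ∧ X 0 = t ∧ ¬ Att S A1 z X ∧
        |X m - (φ (S.T^[m] z) + k)| < ρ} := by
    rintro t ⟨X, hX, hX0, hatt⟩
    obtain ⟨φ, hφ, k, hk⟩ := hN1 m ((le_max_left _ _).trans hm) hgm X (hX.mono (Nat.zero_le _)) hatt
    simp only [mem_iUnion]
    exact ⟨φ, hφ, k, X, hX, hX0, hatt, hk⟩
  refine Set.Countable.mono hsub ?_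
  refine Set.Countable.biUnion A2.countable_toSet fun φ hφ => ?_
  refine countable_iUnion fun k => ?_
  refine Set.Subsingleton.countable ?_
  rintro t ⟨X, hX, hX0, hatt, hk⟩ t' ⟨X', hX', hX0', hatt', hk'⟩
  have hφ' : φ ∈ A2 := hφ
  have r := hN2 m ((le_max_right _ _).trans hm) hgm X (hX.mono (Nat.zero_le _)) hatt φ hφ' k hk
  have r' := hN2 m ((le_max_right _ _).trans hm) hgm X' (hX'.mono (Nat.zero_le _)) hatt' φ hφ' k hk'
  by_contra hne
  rcases lt_or_gt_of_ne hne with hlt | hlt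
  · refine no_two h hF per hε hη hρ0 hρη hδ (hX.mono (Nat.zero_le m)) (hX'.mono (Nat.zero_le m))
      (orb_lt h hX hX' (by rw [hX0, hX0']; exact hlt) (Nat.zero_le m)) hφ' r r'
  · refine no_two h hF per hε hη hρ0 hρη hδ (hX'.mono (Nat.zero_le m)) (hX.mono (Nat.zero_le m))
      (orb_lt h hX' hX (by rw [hX0, hX0']; exact hlt) (Nat.zero_le m)) hφ' r' r

end Pool.Agent.V5helper25.QA
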