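import Pool.Agent.V5helper25.QA.Nea
import Pool.Agent.V5helper25.PB.Lk

/-!
# MP_3a2b62: exponentially asymptotic fibres, Lipschitz families of circle extensions
-/

set_option autoImplicit false
set_option linter.unusedVariables false
set_option linter.unusedSectionVars false

open scoped Topology ENNReal
open MeasureTheory Filter Set Metric

universe u v

namespace Pool.Agent.V5helper25.QA

open Pool.Agent.TH80.OMS Pool.Agent.N813.CX Pool.Agent.V5helper25.TK
  Pool.Agent.V5helper25.TG Pool.Agent.TH525.PF Pool.Agent.TH525.PF.Sys Pool.Agent.V5helper25.PB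

/-- Lipschitz conditions for a family of circle extensions -/
structure LipFam {N : Type u} [MetricSpace N] (F : N → N) (ψ : ℝ → N → N) (A : ℝ → N → ℝ → ℝ) :
    Prop where
  lipF : ∀ s, ∃ K : ℝ, 0 ≤ K ∧ ∀ x y, dist (Fs F ψ A s x) (Fs F ψ A s y) ≤ K * dist x y
  lipψ : ∃ K : ℝ, 0 ≤ K ∧ ∀ t x y, dist (ψ t x) (ψ t y) ≤ K * dist x y
  sep : ∃ K : ℝ, 0 ≤ K ∧ ∀ (t : ℝ) (x : N), ∃ j : ℤ, |t - (j : ℝ)| ≤ K * dist (ψ t x) x

section

variable {N : Type u} [MetricSpace N] [CompactSpace N] {F : N ≃ₜ N} {ψ : ℝ → N → N}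
  {A A' : ℝ → N → ℝ → ℝ} {c L : ℝ}

/-- uniform continuity of continuous functions which are periodic in the fibre -/
theorem unif_per {g : N → ℝ → ℝ} (hg : Continuous fun q : N × ℝ => g q.1 q.2)
    (hper : ∀ y t (j : ℤ), g y (t + j) = g y t) :
    (∀ ε : ℝ, 0 < ε → ∃ r : ℝ, 0 < r ∧ ∀ x y t, dist x y < r → |g x t - g y t| < ε) ∧
    ∃ D : ℝ, ∀ x t, |g x t| ≤ D := by
  have hK : IsCompact ((univ : Set N) ×ˢ Icc (0 : ℝ) 1) := isCompact_univ.prod isCompact_Icc
  have hred : ∀ x t, g x t = g x (t - ⌊t⌋) := by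
    intro x t
    have := hper x (t - ⌊t⌋) ⌊t⌋
    rwa [sub_add_cancel] at this
  have hmem : ∀ t : ℝ, t - ⌊t⌋ ∈ Icc (0 : ℝ) 1 := by
    intro t
    have f1 := Int.floor_le t
    have f2 := Int.lt_floor_add_one t
    constructor <;> linarith
  constructor
  · intro ε hε
    have huc := hK.uniformContinuousOn_of_continuous hg.continuousOn
    rw [Metric.uniformContinuousOn_iff] at huc
    obtain ⟨r, hr, h2⟩ := huc ε hε
    refine ⟨r, hr, fun x y t hxy => ?_⟩
    have h3 := h2 (x, t - ⌊t⌋) ⟨mem_univ _, hmem t⟩ (y, t - ⌊t⌋) ⟨mem_univ _, hmem t⟩ (by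
      rw [Prod.dist_eq, dist_self, max_eq_left dist_nonneg]
      exact hxy)
    rw [Real.dist_eq] at h3
    rwa [hred x t, hred y t]
  · obtain ⟨D, hD⟩ := hK.exists_bound_of_continuousOn hg.continuousOn
    refine ⟨D, fun x t => ?_⟩
    have h3 := hD (x, t - ⌊t⌋) ⟨mem_univ _, hmem t⟩
    rw [Real.norm_eq_abs] at h3
    rwa [hred x t]

/-- the fibre maps depend in a Lipschitz way on the fibre -/
theorem A_lip (h : MFam F ψ A A' c L) (hl : LipFam F ψ A) (s : ℝ) :
    ∃ K : ℝ, 0 ≤ K ∧ ∀ x y t, |A s x t - A s y t| ≤ K * dist x y := by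
  obtain ⟨K1, hK1, l1⟩ := hl.lipF s
  obtain ⟨K0, hK0, l0⟩ := hl.lipF 0
  obtain ⟨K2, hK2, l2⟩ := hl.lipψ
  obtain ⟨K3, hK3, l3⟩ := hl.sep
  rw [Fs_zero h] at l0
  have htop := top h
  set K := K3 * (K1 * K2 + K2 * K0) with hK
  have hK0' : 0 ≤ K := by positivity
  have hint : ∀ x y t, ∃ j : ℤ, |A s x t - A s y t - j| ≤ K * dist x y := by
    intro x y t
    obtain ⟨j, hj⟩ := l3 (A s x t - A s y t) (ψ (A s y t) (F y))
    refine ⟨j, hj.trans ?_⟩
    rw [← h.add, sub_add_cancel]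
    have h1 : dist (ψ (A s x t) (F y)) (ψ (A s y t) (F y)) ≤ (K1 * K2 + K2 * K0) * dist x y := by
      have e1 := dist_triangle (ψ (A s x t) (F y)) (ψ (A s x t) (F x)) (ψ (A s y t) (F y))
      have e2 : dist (ψ (A s x t) (F y)) (ψ (A s x t) (F x)) ≤ K2 * K0 * dist x y := by
        have a1 := l2 (A s x t) (F y) (F x)
        have a2 := l0 y x
        rw [dist_comm y x] at a2
        calc _ ≤ K2 * dist (F y) (F x) := a1
          _ ≤ K2 * (K0 * dist x y) := mul_le_mul_of_nonneg_left a2 hK2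
          _ = _ := by ring
      have e3 : dist (ψ (A s x t) (F x)) (ψ (A s y t) (F y)) ≤ K1 * K2 * dist x y := by
        rw [← Fs_ext h, ← Fs_ext h]
        have a1 := l1 (ψ t x) (ψ t y)
        have a2 := l2 t x y
        calc _ ≤ K1 * dist (ψ t x) (ψ t y) := a1
          _ ≤ K1 * (K2 * dist x y) := mul_le_mul_of_nonneg_left a2 hK1
          _ = _ := by ring
      linarith
    calc _ ≤ K3 * ((K1 * K2 + K2 * K0) * dist x y) := mul_le_mul_of_nonneg_left h1 hK3
      _ = K * dist x y := by rw [hK]; ring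
  -- the integer vanishes for close points
  have hper : ∀ y t (j : ℤ), A s y (t + j) - (t + j) = A s y t - t := by
    intro y t j
    rw [a_int'' h]
    ring
  have hcont : Continuous fun q : N × ℝ => A s q.1 q.2 - q.2 :=
    (h.acont.comp (continuous_const.prodMk continuous_id)).sub continuous_snd
  obtain ⟨hu, D, hD⟩ := unif_per (g := fun y t => A s y t - t) hcont hper
  obtain ⟨r, hr, hr2⟩ := hu (1 / 2) (by norm_num)
  set r' := min r (1 / (2 * (K + 1))) with hr'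
  have hr'0 : 0 < r' := lt_min hr (by positivity)
  refine ⟨K + 2 * |D| / r', by positivity, fun x y t => ?_⟩
  rcases lt_or_ge (dist x y) r' with hlt | hge
  · have h1 := hr2 x y t (hlt.trans_le (min_le_left _ _))
    rw [show A s x t - t - (A s y t - t) = A s x t - A s y t by ring] at h1
    obtain ⟨j, hj⟩ := hint x y t
    have h2 : K * dist x y ≤ 1 / 2 := by
      have e1 : dist x y ≤ 1 / (2 * (K + 1)) := hlt.le.trans (min_le_right _ _)
      have e2 : K * dist x y ≤ K * (1 / (2 * (K + 1))) := mul_le_mul_of_nonneg_left e1 hK0'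
      have e3 : K * (1 / (2 * (K + 1))) ≤ 1 / 2 := by
        rw [mul_one_div, div_le_div_iff₀ (by positivity) (by norm_num)]
        linarith
      linarith
    have h3 : j = 0 := by
      have e1 := abs_lt.1 h1
      have e2 := abs_le.1 hj
      have e3 : (j : ℝ) < 1 := by linarith [e1.2, e2.1]
      have e4 : (-1 : ℝ) < j := by linarith [e1.1, e2.2]
      have e5 : j < 1 := by exact_mod_cast e3
      have e6 : -1 < j := by exact_mod_cast e4
      omega
    rw [h3, Int.cast_zero, sub_zero] at hj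
    have h4 : 0 ≤ 2 * |D| / r' * dist x y := by positivity
    calc _ ≤ K * dist x y := hj
      _ ≤ (K + 2 * |D| / r') * dist x y := by linarith
  · have h1 := abs_le.1 (hD x t)
    have h2 := abs_le.1 (hD y t)
    have h3 : |A s x t - A s y t| ≤ 2 * |D| := by
      have := le_abs_self D
      rw [abs_le]
      constructor <;> linarith [h1.1, h1.2, h2.1, h2.2]
    have h4 : 2 * |D| ≤ 2 * |D| / r' * dist x y := by
      have : 2 * |D| / r' * r' ≤ 2 * |D| / r' * dist x y :=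
        mul_le_mul_of_nonneg_left hge (by positivity)
      rwa [div_mul_cancel₀ _ hr'0.ne'] at this
    have h5 : 0 ≤ K * dist x y := by positivity
    linarith

/-- exponentially asymptotic fibres -/
def AsyN (F : N ≃ₜ N) (ψ : ℝ → N → N) (z v : N) : Prop :=
  ∃ (σ : ℕ → ℝ) (C lam : ℝ), 0 ≤ C ∧ 0 < lam ∧ lam < 1 ∧
    ∀ n, dist (F^[n] z) (ψ (σ n) (F^[n] v)) ≤ C * lam ^ n

/-- suitable positions -/
theorem exists_tau (h : MFam F ψ A A' c L) (hl : LipFam F ψ A) {z v : N} {σ : ℕ → ℝ} {C lam : ℝ}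
    (hC : 0 ≤ C) (h0 : 0 < lam) (h1 : lam < 1)
    (hσ : ∀ n, dist (F^[n] z) (ψ (σ n) (F^[n] v)) ≤ C * lam ^ n) :
    ∃ (τ : ℕ → ℝ) (C' : ℝ), 0 ≤ C' ∧
      (∀ n, dist (F^[n] z) (ψ (τ n) (F^[n] v)) ≤ C * lam ^ n) ∧
      ∀ n, |A 0 (F^[n] v) (τ n) - τ (n + 1)| ≤ C' * lam ^ n := by
  obtain ⟨K0, hK0, l0⟩ := hl.lipF 0
  obtain ⟨K3, hK3, l3⟩ := hl.sep
  rw [Fs_zero h] at l0
  have htop := top h
  have hb : ∀ n, ∃ j : ℤ, |A 0 (F^[n] v) (σ n) - σ (n + 1) - j| ≤ K3 * ((K0 + 1) * C) * lam ^ n := by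
    intro n
    set w := ψ (σ (n + 1)) (F^[n + 1] v) with hw
    obtain ⟨j, hj⟩ := l3 (A 0 (F^[n] v) (σ n) - σ (n + 1)) w
    refine ⟨j, hj.trans ?_⟩
    have e1 : ψ (A 0 (F^[n] v) (σ n) - σ (n + 1)) w = F (ψ (σ n) (F^[n] v)) := by
      rw [hw, ← h.add, sub_add_cancel, h.ext, Function.iterate_succ_apply']
    rw [e1]
    have e2 := l0 (ψ (σ n) (F^[n] v)) (F^[n] z)
    rw [← Function.iterate_succ_apply' (F : N → N) n z, dist_comm (ψ (σ n) (F^[n] v))] at e2
    have e3 := hσ (n + 1)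
    have e4 := dist_triangle (F (ψ (σ n) (F^[n] v))) (F^[n + 1] z) w
    have e5 := mul_le_mul_of_nonneg_left (hσ n) hK0
    have e6 : C * lam ^ (n + 1) ≤ C * lam ^ n :=
      mul_le_mul_of_nonneg_left (pow_le_pow_of_le_one h0.le h1.le (Nat.le_succ n)) hC
    have e7 : dist (F (ψ (σ n) (F^[n] v))) w ≤ (K0 + 1) * C * lam ^ n := by
      rw [show (K0 + 1) * C * lam ^ n = K0 * (C * lam ^ n) + C * lam ^ n by ring]
      linarith
    calc _ ≤ K3 * ((K0 + 1) * C * lam ^ n) := mul_le_mul_of_nonneg_left e7 hK3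
      _ = _ := by ring
  choose j hj using hb
  refine ⟨fun n => σ n + ((∑ i ∈ Finset.range n, j i : ℤ) : ℝ), K3 * ((K0 + 1) * C),
    by positivity, fun n => ?_, fun n => ?_⟩
  · have : ψ (σ n + ((∑ i ∈ Finset.range n, j i : ℤ) : ℝ)) (F^[n] v) = ψ (σ n) (F^[n] v) :=
      (psi_eq htop _ _ _).2 ⟨_, rfl⟩
    rw [this]
    exact hσ n
  · have h2 := hj n
    show |A 0 (F^[n] v) (σ n + ((∑ i ∈ Finset.range n, j i : ℤ) : ℝ)) -
      (σ (n + 1) + ((∑ i ∈ Finset.range (n + 1), j i : ℤ) : ℝ))| ≤ _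
    rw [a_int'' h, Finset.sum_range_succ]
    push_cast
    rw [show A 0 (F^[n] v) (σ n) + ∑ i ∈ Finset.range n, (j i : ℝ) -
      (σ (n + 1) + (∑ i ∈ Finset.range n, (j i : ℝ) + (j n : ℝ))) =
      A 0 (F^[n] v) (σ n) - σ (n + 1) - (j n : ℝ) by ring]
    exact h2

variable [MeasurableSpace N] [BorelSpace N]

/-- the derivative of the shifted fibre maps -/
theorem A'_shift (h : MFam F ψ A A' c L) (s : ℝ) (y : N) (w t : ℝ) :
    A' s (ψ w y) t = A' s y (t + w) := by
  have e1 : HasDerivAt (A s (ψ w y)) (A' s (ψ w y) t) t := h.der s _ t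
  have e2 : HasDerivAt (fun u => A s y (u + w) - A 0 y w) (A' s y (t + w)) t :=
    ((h.der s y (t + w)).comp_add_const t w).sub_const _
  have e3 : (fun u => A s y (u + w) - A 0 y w) = A s (ψ w y) := funext fun u => (h.shift s y w u).symm
  rw [e3] at e2
  exact e1.unique e2

/-- **The fibre maps over an asymptotic point are perturbed fibre maps.** -/
theorem shad_of (h : MFam F ψ A A' c L) (hl : LipFam F ψ A) (s : ℝ) {z v : N} {τ : ℕ → ℝ}
    {C C' lam : ℝ} (hC : 0 ≤ C) (hC' : 0 ≤ C') (h0 : 0 < lam) (h1 : lam < 1)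
    (hτ : ∀ n, dist (F^[n] z) (ψ (τ n) (F^[n] v)) ≤ C * lam ^ n)
    (hτ' : ∀ n, |A 0 (F^[n] v) (τ n) - τ (n + 1)| ≤ C' * lam ^ n) :
    ∃ C'' : ℝ, Shad ((famN h).sy s) v (fun n u => A s (F^[n] z) (u - τ n) + τ (n + 1))
      (fun n u => A' s (F^[n] z) (u - τ n)) C'' lam := by
  obtain ⟨K, hK, hlip⟩ := A_lip h hl s
  refine ⟨K * C + C', ?_⟩
  have hlogper : ∀ y t (j : ℤ), Real.log (A' s y (t + j)) = Real.log (A' s y t) := by
    intro y t j
    rw [dper h]
  have hlogc : Continuous fun q : N × ℝ => Real.log (A' s q.1 q.2) :=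
    (h.dcont.comp (continuous_const.prodMk continuous_id)).log fun p => (apos h s p.1 p.2).ne'
  obtain ⟨hu, -⟩ := unif_per (g := fun y t => Real.log (A' s y t)) hlogc hlogper
  have hT : ∀ n, ((famN h).sy s).T^[n] v = F^[n] v := fun n => rfl
  refine
    { der := fun n t => ?_
      lo := fun n t => h.lo s _ _
      hi := fun n t => h.hi s _ _
      one := fun n t => ?_
      C0 := by positivity
      close := fun n t => ?_
      dclose := fun ε hε => ?_ }
  · have e1 := (h.der s (F^[n] z) (t - τ n)).comp_sub_const t (τ n)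
    exact e1.add_const _
  · show A s (F^[n] z) (t + 1 - τ n) + τ (n + 1) = A s (F^[n] z) (t - τ n) + τ (n + 1) + 1
    rw [show t + 1 - τ n = t - τ n + 1 by ring, h.aone]
    ring
  · show |A s (F^[n] z) (t - τ n) + τ (n + 1) - A s (F^[n] v) t| ≤ _
    have e1 := h.shift s (F^[n] v) (τ n) (t - τ n)
    rw [sub_add_cancel] at e1
    have e2 := hlip (F^[n] z) (ψ (τ n) (F^[n] v)) (t - τ n)
    have e3 := mul_le_mul_of_nonneg_left (hτ n) hK
    have e4 := hτ' n
    have e5 : A s (F^[n] z) (t - τ n) + τ (n + 1) - A s (F^[n] v) t =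
        (A s (F^[n] z) (t - τ n) - A s (ψ (τ n) (F^[n] v)) (t - τ n)) -
          (A 0 (F^[n] v) (τ n) - τ (n + 1)) := by
      rw [e1]; ring
    rw [e5]
    have e6 := abs_sub (A s (F^[n] z) (t - τ n) - A s (ψ (τ n) (F^[n] v)) (t - τ n))
      (A 0 (F^[n] v) (τ n) - τ (n + 1))
    have e7 : (K * C + C') * lam ^ n = K * (C * lam ^ n) + C' * lam ^ n := by ring
    linarith
  · obtain ⟨r, hr, hr2⟩ := hu ε hε
    have hlim : Tendsto (fun n : ℕ => C * lam ^ n) atTop (𝓝 0) := by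
      have := (tendsto_pow_atTop_nhds_zero_of_lt_one h0.le h1).const_mul C
      simpa using this
    filter_upwards [hlim.eventually (gt_mem_nhds hr)] with n hn t
    have e1 := hr2 (F^[n] z) (ψ (τ n) (F^[n] v)) (t - τ n) ((hτ n).trans_lt hn)
    rw [A'_shift h, sub_add_cancel] at e1
    exact e1.le

end

end Pool.Agent.V5helper25.QA
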