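import Pool.Agent.V5helper25.QA.Stn

/-!
# MP_3a2b62: most parameters have finitely many attractors, asymptotically typical bases
-/

set_option autoImplicit false
set_option linter.unusedVariables false
set_option linter.unusedSectionVars false

open scoped Topology ENNReal
open MeasureTheory Filter Set Metric

universe u v

namespace Pool.Agent.V5helper25.QA

open Pool.Agent.TH80.OMS Pool.Agent.N813.CX Pool.Agent.V5helper25.TK
  Pool.Agent.V5helper25.TG Pool.Agent.V5helper25.EX Pool.Agent.V5helper25.PA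
  Pool.Agent.TH525.PF Pool.Agent.TH525.PF.Sys Pool.Agent.V5helper25.PB Pool.Agent.H728R2.FA

section

variable {N : Type u} [MetricSpace N] [CompactSpace N] {F : N ≃ₜ N} {ψ : ℝ → N → N}
  {A A' : ℝ → N → ℝ → ℝ} {c L : ℝ}
  {B : Type v} [MetricSpace B] [MeasurableSpace B] [BorelSpace B] {π : N → B} {f : B → B}

theorem Fs_rec (h : MFam F ψ A A' c L) (s₀ s : ℝ) :
    Fs (fsH h s₀) ψ (fun σ y t => A (s₀ + σ) y t - A s₀ y 0) s = Fs F ψ A (s₀ + s) := by
  funext y
  show ψ (A (s₀ + s) y 0 - A s₀ y 0) (ψ (A s₀ y 0) (F y)) = ψ (A (s₀ + s) y 0) (F y)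
  rw [← h.add, sub_add_cancel]

theorem lip_rec (h : MFam F ψ A A' c L) (hl : LipFam F ψ A) (s₀ : ℝ) :
    LipFam (fsH h s₀) ψ (fun σ y t => A (s₀ + σ) y t - A s₀ y 0) :=
  ⟨fun s => by rw [Fs_rec h]; exact hl.lipF (s₀ + s), hl.lipψ, hl.sep⟩

variable [MeasurableSpace N] [BorelSpace N] {m : Measure B} [IsProbabilityMeasure m]

/-- **Locked parameters.** -/
theorem lkM (h : MFam F ψ A A' c L) (hl : LipFam F ψ A) (ho : OrbitMap F ψ π f)
    (erg : Ergodic f m) {s₀ s₁ : ℝ} (hG : ∀ n, m (π '' Ga F A s₀ s₁ n) = 0) :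
    ∃ Z : Set ℝ, IsClosed Z ∧ volume Z = 0 ∧
      ∀ s, s₀ ≤ s → s ≤ s₁ → s ∉ Z → Fin1 (Fs F ψ A s) ψ π f m := by
  have hr := recenter h s₀
  have hor : OrbitMap (fsH h s₀) ψ π f := orbF h ho s₀
  have hGr : ∀ n, m (π '' Ga (fsH h s₀) (fun σ y t => A (s₀ + σ) y t - A s₀ y 0) 0
      (s₁ - s₀) n) = 0 := by
    intro n
    refine measure_mono_null (image_mono ?_) (hG n)
    intro y hy t
    have := hy t
    rw [co_rec h, co_rec h, add_zero, add_sub_cancel] at this
    linarith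
  obtain ⟨Z, hZ1, hZ2, hZ3⟩ := lk0 hr (lip_rec h hl s₀) hor erg hGr
  refine ⟨(fun s => s - s₀) ⁻¹' Z, hZ1.preimage (continuous_id.sub continuous_const), ?_, ?_⟩
  · rw [(measurePreserving_sub_right volume s₀).measure_preimage hZ1.measurableSet.nullMeasurableSet]
    exact hZ2
  · intro s hs0 hs1 hs
    have h3 := hZ3 (s - s₀) (by linarith) (by linarith) hs
    rw [Fs_rec h, add_sub_cancel] at h3
    exact h3


/-- **Parameters with a dense orbit.** -/
theorem fin1_of_dense (h : MFam F ψ A A' c L) (hl : LipFam F ψ A) (ho : OrbitMap F ψ π f)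
    (erg : Ergodic f m) {s : ℝ} {p : N} (hp : π p ∈ m.support)
    (hd : π ⁻¹' m.support ⊆ closure (range fun n : ℕ => (Fs F ψ A s)^[n] p)) :
    Fin1 (Fs F ψ A s) ψ π f m := by
  have hCB : CompactSpace B := ⟨by rw [← ho.surj.range_eq]; exact isCompact_range ho.cont⟩
  have hcl : IsClosed (π ⁻¹' m.support) := Measure.isClosed_support.preimage ho.cont
  have hsemi : ∀ z, π (Fs F ψ A s z) = f (π z) := (orbF h ho s).semi
  refine ⟨1, fun _ => π ⁻¹' m.support, fun _ => ⟨hcl, ?_, p, hp, hd⟩, ?_⟩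
  · apply Subset.antisymm
    · rintro _ ⟨z, hz, rfl⟩
      show π (Fs F ψ A s z) ∈ m.support
      rw [hsemi]
      exact (supp_image (top h) ho erg _).2 hz
    · intro z hz
      obtain ⟨w, rfl⟩ := Fs_surj h s z
      refine ⟨w, ?_, rfl⟩
      have : π (Fs F ψ A s w) ∈ m.support := hz
      rw [hsemi] at this
      exact (supp_image (top h) ho erg _).1 this
  · have h3 : ∀ᵐ x ∂m, x ∈ m.support := Measure.support_mem_ae
    filter_upwards [h3] with y hy q hq z hz
    refine Eventually.of_forall fun t => ⟨0, ?_⟩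
    obtain ⟨x, w, C, lam, hC, h0, h1, hx, hw, hdst⟩ := hq
    obtain ⟨K, hK, lK⟩ := hl.lipψ
    have hy' : ∀ n, f^[n] y ∈ m.support := by
      intro n
      induction n with
      | zero => exact hy
      | succ n ih =>
        rw [Function.iterate_succ_apply']
        exact (supp_image (top h) ho erg _).2 ih
    have hpi : ∀ n, π ((Fs F ψ A s)^[n] (ψ t z)) = f^[n] q := by
      intro n
      rw [CLOS.semi_iter (orbF h ho s) n, pi_psi ho, hz]
    have hlim : Tendsto (fun n : ℕ => K * (C * lam ^ n)) atTop (𝓝 0) := by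
      have := ((tendsto_pow_atTop_nhds_zero_of_lt_one h0.le h1).const_mul C).const_mul K
      simpa using this
    refine squeeze_zero (fun _ => infDist_nonneg) (fun n => ?_) hlim
    obtain ⟨a, ha⟩ := (ho.eq (x n) ((Fs F ψ A s)^[n] (ψ t z))).1 (by rw [hx, hpi])
    have hmem : ψ a (w n) ∈ π ⁻¹' m.support := by
      show π (ψ a (w n)) ∈ m.support
      rw [pi_psi ho, hw]
      exact hy' n
    refine (infDist_le_dist_of_mem hmem).trans ?_
    rw [ha]
    exact (lK _ _ _).trans (mul_le_mul_of_nonneg_left (hdst n) hK)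

/-- **Most parameters.** -/
theorem mostS (h : MFam F ψ A A' c L) (hl : LipFam F ψ A) (ho : OrbitMap F ψ π f)
    (erg : Ergodic f m) : ∀ᶠ s in residual ℝ, Fin1 (Fs F ψ A s) ψ π f m := by
  set U₁ : Set ℝ := {s | ∃ ε : ℝ, 0 < ε ∧ ∀ n, m (π '' Ga F A (s - ε) (s + ε) n) = 0} with hU₁
  have hop : IsOpen U₁ := by
    rw [Metric.isOpen_iff]
    rintro s ⟨ε, hε, hs⟩
    refine ⟨ε / 2, half_pos hε, fun s' hs' => ⟨ε / 2, half_pos hε, fun n => ?_⟩⟩
    rw [Metric.mem_ball, Real.dist_eq, abs_lt] at hs'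
    refine measure_mono_null (image_mono (Ga_mono h ?_ ?_ n)) (hs n) <;> linarith
  have hdense : Dense (U₁ ∪ interior U₁ᶜ) := by
    rw [dense_iff_inter_open]
    intro V hV hVne
    by_cases hVU : (V ∩ U₁).Nonempty
    · obtain ⟨v, hv⟩ := hVU
      exact ⟨v, hv.1, Or.inl hv.2⟩
    · obtain ⟨v, hv⟩ := hVne
      refine ⟨v, hv, Or.inr ?_⟩
      refine mem_interior.2 ⟨V, fun w hw hwU => hVU ⟨w, hw, hwU⟩, hV, hv⟩
  have hall : ∀ᶠ s in residual ℝ, s ∈ U₁ ∪ interior U₁ᶜ :=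
    residual_of_dense_open (hop.union isOpen_interior) hdense
  have hA : ∀ᶠ s in residual ℝ, s ∈ U₁ → Fin1 (Fs F ψ A s) ψ π f m := by
    have h3 : ∀ q : ℚ × ℚ, ∀ᶠ s in residual ℝ, (∀ n, m (π '' Ga F A q.1 q.2 n) = 0) →
        (q.1 : ℝ) ≤ s → s ≤ q.2 → Fin1 (Fs F ψ A s) ψ π f m := by
      intro q
      by_cases hq' : ∀ n, m (π '' Ga F A q.1 q.2 n) = 0
      · obtain ⟨Z, hZ1, hZ2, hZ3⟩ := lkM h hl ho erg hq'
        filter_upwards [avoid hZ1 hZ2] with s hs _ hs0 hs1 using hZ3 s hs0 hs1 hs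
      · exact Eventually.of_forall fun s hc => absurd hc hq'
    filter_upwards [eventually_countable_forall.2 h3] with s hs
    rintro ⟨ε, hε, hsε⟩
    obtain ⟨q, hq1, hq2⟩ := exists_rat_btwn (show s - ε < s by linarith)
    obtain ⟨q', hq1', hq2'⟩ := exists_rat_btwn (show s < s + ε by linarith)
    exact hs (q, q') (fun n => measure_mono_null (image_mono (Ga_mono h hq1.le hq2'.le n)) (hsε n))
      hq2.le hq1'.le
  have hB : ∀ᶠ s in residual ℝ, s ∈ interior U₁ᶜ → Fin1 (Fs F ψ A s) ψ π f m := by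
    obtain ⟨p, hp, hres⟩ := resid (I := U₁ᶜ) h ho erg (fun s s' hss hI => by
      by_contra hcon
      push Not at hcon
      refine hI (show (s + s') / 2 ∈ Icc s s' by constructor <;> linarith)
        ⟨(s' - s) / 2, by linarith, fun n => ?_⟩
      have e1 : (s + s') / 2 - (s' - s) / 2 = s := by ring
      have e2 : (s + s') / 2 + (s' - s) / 2 = s' := by ring
      rw [e1, e2]
      exact hcon n)
    filter_upwards [hres] with s hs hsU
    exact fin1_of_dense h hl ho erg hp (hs hsU)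
  filter_upwards [hall, hA, hB] with s a b d
  rcases a with a | a
  · exact b a
  · exact d a

end

section

variable {N : Type u} [MetricSpace N] [CompactSpace N] [MeasurableSpace N] [BorelSpace N]
  {B : Type v} [MetricSpace B] [MeasurableSpace B] [BorelSpace B] {π : N → B} {f : B → B}
  {F : N ≃ₜ N} {ψ : ℝ → N → N} {a : N → ℝ → ℝ} {μ : Measure N} [IsFiniteMeasure μ]

/-- finitely many attractors from finitely many transitive sets -/
theorem fam_fin {G : N → N} {ι : Type} [Fintype ι] (Λ : ι → Set N)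
    (h1 : ∀ i, G '' Λ i = Λ i ∧ ∃ x ∈ Λ i, Λ i ⊆ closure (range fun n : ℕ => G^[n] x))
    (h2 : μ {p | ∀ i, ¬ omegaLim G p ⊆ Λ i} = 0) : FiniteAttractors μ G := by
  classical
  let J := {i : ι // 0 < μ {p | omegaLim G p ⊆ Λ i}}
  let e : J ≃ Fin (Fintype.card J) := Fintype.equivFin J
  refine ⟨Fintype.card J, fun j => Λ (e.symm j).1, fun j => ?_, ?_⟩
  · exact ⟨(h1 _).1, (h1 _).2, (e.symm j).2⟩
  · have h3 : {p | ∀ j, ¬ omegaLim G p ⊆ Λ (e.symm j).1} ⊆
        {p | ∀ i, ¬ omegaLim G p ⊆ Λ i} ∪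
        ⋃ i : {i : ι // μ {p | omegaLim G p ⊆ Λ i} = 0}, {p | omegaLim G p ⊆ Λ i.1} := by
      intro p hp
      by_cases hc : ∀ i, ¬ omegaLim G p ⊆ Λ i
      · exact Or.inl hc
      · right
        push Not at hc
        obtain ⟨i, hi⟩ := hc
        rcases eq_or_ne (μ {p | omegaLim G p ⊆ Λ i}) 0 with h0 | h0
        · exact mem_iUnion.2 ⟨⟨i, h0⟩, hi⟩
        · exfalso
          have := hp (e ⟨i, pos_iff_ne_zero.2 h0⟩)
          rw [Equiv.symm_apply_apply] at this
          exact this hi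
    refine measure_mono_null h3 (measure_union_null h2 (measure_iUnion_null fun i => i.2))

/-- **Finitely many attractors** over a base whose points are asymptotic to typical points. -/
theorem fin_all (htop : TopExt F ψ a) {G : N → N} (hG : Continuous G) (hπ : Continuous π)
    (hq : ∀ t, μ.map (ψ t) ≪ μ) {k : ℕ} {m : Fin k → Measure B}
    (hb : ∀ E : Set B, (∀ i, ∀ᵐ y ∂(m i), y ∈ E) → ∀ᵐ p ∂(μ.map π), ∃ y ∈ E, AsyB π f p y)
    (h : ∀ i, Fin1 G ψ π f (m i)) : FiniteAttractors μ G := by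
  classical
  choose l Λ h1 h2 using h
  set Q : Fin k → B → Prop := fun i y => ∀ p, AsyB π f p y → ∀ z, π z = p → ∀ᵐ t : ℝ, ∃ j,
      Tendsto (fun n => infDist (G^[n] (ψ t z)) (Λ i j)) atTop (𝓝 0) with hQ
  have h3 := hb {y | ∃ i, Q i y} (fun i => by
    filter_upwards [h2 i] with y hy
    exact ⟨i, hy⟩)
  set P : Set N := {p | ∃ i : Σ i : Fin k, Fin (l i),
    Tendsto (fun n => infDist (G^[n] p) (Λ i.1 i.2)) atTop (𝓝 0)} with hP
  have mP : MeasurableSet P := by
    have : P = ⋃ i : Σ i : Fin k, Fin (l i),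
        {p | Tendsto (fun n => infDist (G^[n] p) (Λ i.1 i.2)) atTop (𝓝 0)} := by
      ext p; simp [hP]
    rw [this]
    refine MeasurableSet.iUnion fun i => ?_
    refine measurableSet_tendsto (𝓝 0) fun n => ?_
    exact ((Metric.continuous_infDist_pt _).comp (hG.iterate n)).measurable
  have h4 : ∀ᵐ z ∂μ, ∀ᵐ t : ℝ, ψ t z ∈ P := by
    filter_upwards [ae_of_ae_map hπ.measurable.aemeasurable h3] with z hz
    obtain ⟨y, ⟨i, hi⟩, hy⟩ := hz
    filter_upwards [hi (π z) hy z rfl] with t ht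
    obtain ⟨j, hj⟩ := ht
    exact ⟨⟨i, j⟩, hj⟩
  obtain ⟨t, ht⟩ := ((swap_ae htop mP).1 h4).exists
  have hm : Measurable (ψ t) := (htop.cont.comp (continuous_const.prodMk continuous_id)).measurable
  have h5 : μ Pᶜ = 0 := by
    refine ac_psi htop hq t ?_
    rw [Measure.map_apply hm mP.compl]
    rw [ae_iff] at ht
    exact ht
  refine fam_fin (fun i : Σ i : Fin k, Fin (l i) => Λ i.1 i.2) (fun i => (h1 i.1 i.2).2) ?_
  refine measure_mono_null ?_ h5
  intro p hp hpP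
  obtain ⟨i, hi⟩ := hpP
  obtain ⟨hcl, -, ⟨x, hx, -⟩⟩ := h1 i.1 i.2
  exact hp i (omega_sub_of G p hcl ⟨x, hx⟩ hi)

end

end Pool.Agent.V5helper25.QA
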