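import Pool.Agent.V5helper25.QA.Sep
import Pool.Agent.V5helper25.QA.Mst
import Pool.Agent.V5helper25.PB.MainD

/-!
# MP_3a2b62, Q1: circle extensions of maps with exponentially asymptotic typical points
-/

set_option autoImplicit false
set_option linter.unusedSectionVars false
set_option linter.unusedVariables false

open scoped Manifold ContDiff Topology
open MeasureTheory Filter Set Metric

universe u v

namespace Pool.Agent.V5helper25.QA

open Pool.Agent.H718R2.G Pool.Agent.W564.SC Pool.Agent.N813.CX Pool.Agent.H728R2.FA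
  Pool.Agent.TH290.CL Pool.Agent.V5helper25.EX Pool.Agent.V5helper25.TK Pool.Agent.V5helper25.PB

/-- The sequences `x` and `w` of points of the manifold `N` are exponentially close: for every smooth
function `g` there are `C` and `l < 1` with `|g (x_k) - g (w_k)| ≤ C l^k` for all `k`. If `N` is compact
this means that the distance of `x_k` and `w_k` (for any Riemannian metric) is at most `C l^k` for some
`C` and `l < 1`. -/
def ExpClose (n : ℕ) {N : Type u} [TopologicalSpace N] [ChartedSpace (V n) N] (x w : ℕ → N) : Prop :=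
  ∀ g : N → ℝ, ContMDiff (𝓡 n) 𝓘(ℝ, ℝ) ∞ g →
    ∃ C l : ℝ, 0 < l ∧ l < 1 ∧ ∀ k, |g (x k) - g (w k)| ≤ C * l ^ k

/-- The points `p` and `y` of the base of `π : N → B` are exponentially asymptotic for `f : B → B`:
the fibres of `π` over `f^k(p)` and `f^k(y)` contain points `x_k` and `w_k` which are exponentially
close. -/
def ExpAsy (n : ℕ) {N : Type u} [TopologicalSpace N] [ChartedSpace (V n) N] {B : Type v}
    (π : N → B) (f : B → B) (p y : B) : Prop :=
  ∃ x w : ℕ → N, (∀ k, π (x k) = f^[k] p) ∧ (∀ k, π (w k) = f^[k] y) ∧ ExpClose n x w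

/-- a common rate -/
theorem common_rate {d : ℕ} (l : Fin d → ℝ) (h0 : ∀ j, 0 < l j) (h1 : ∀ j, l j < 1) :
    ∃ L : ℝ, 0 < L ∧ L < 1 ∧ ∀ j, l j ≤ L := by
  have key : ∀ s : Finset (Fin d), ∃ L : ℝ, 0 < L ∧ L < 1 ∧ ∀ j ∈ s, l j ≤ L := by
    intro s
    induction s using Finset.induction_on with
    | empty => exact ⟨1 / 2, by norm_num, by norm_num, fun j hj => by simp at hj⟩
    | insert i s his ih =>
      obtain ⟨L, hL0, hL1, hL⟩ := ih
      refine ⟨max (l i) L, lt_max_of_lt_right hL0, max_lt (h1 i) hL1, fun j hj => ?_⟩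
      rcases Finset.mem_insert.1 hj with rfl | hj
      · exact le_max_left _ _
      · exact (hL j hj).trans (le_max_right _ _)
  obtain ⟨L, hL0, hL1, hL⟩ := key Finset.univ
  exact ⟨L, hL0, hL1, fun j => hL j (Finset.mem_univ _)⟩

section

variable {n : ℕ} {N : Type u} [TopologicalSpace N] [ChartedSpace (V n) N]
  {W : Type v} [NormedAddCommGroup W] [NormedSpace ℝ W] [FiniteDimensional ℝ W] {e : N → W}

/-- exponentially close sequences, in a finite dimensional space -/
theorem close_emb (he : ContMDiff (𝓡 n) 𝓘(ℝ, W) ∞ e) {x w : ℕ → N} (h : ExpClose n x w) :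
    ∃ C l : ℝ, 0 ≤ C ∧ 0 < l ∧ l < 1 ∧ ∀ k, ‖e (x k) - e (w k)‖ ≤ C * l ^ k := by
  set b := Module.finBasis ℝ W with hb
  have h1 : ∀ j, ∃ C l : ℝ, 0 < l ∧ l < 1 ∧ ∀ k,
      |b.coord j (e (x k)) - b.coord j (e (w k))| ≤ C * l ^ k := by
    intro j
    refine h (fun y => b.coord j (e y)) ?_
    have h2 : ContMDiff 𝓘(ℝ, W) 𝓘(ℝ, ℝ) ∞ (LinearMap.toContinuousLinearMap (b.coord j)) :=
      (LinearMap.toContinuousLinearMap (b.coord j)).contDiff.contMDiff
    exact h2.comp he
  choose C l hl0 hl1 hC using h1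
  obtain ⟨L, hL0, hL1, hL⟩ := common_rate l hl0 hl1
  refine ⟨∑ j, |C j| * ‖b j‖, L, Finset.sum_nonneg fun j _ => by positivity, hL0, hL1,
    fun k => ?_⟩
  have h3 : e (x k) - e (w k) = ∑ j, b.coord j (e (x k) - e (w k)) • b j :=
    (b.sum_repr (e (x k) - e (w k))).symm
  rw [h3, Finset.sum_mul]
  refine (norm_sum_le _ _).trans (Finset.sum_le_sum fun j _ => ?_)
  rw [norm_smul, Real.norm_eq_abs, map_sub]
  have h4 : |b.coord j (e (x k)) - b.coord j (e (w k))| ≤ |C j| * L ^ k := by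
    refine (hC j k).trans ?_
    have e1 : C j * l j ^ k ≤ |C j| * l j ^ k :=
      mul_le_mul_of_nonneg_right (le_abs_self _) (pow_nonneg (hl0 j).le _)
    have e2 : |C j| * l j ^ k ≤ |C j| * L ^ k :=
      mul_le_mul_of_nonneg_left (pow_le_pow_left₀ (hl0 j).le (hL j) k) (abs_nonneg _)
    exact e1.trans e2
  calc _ ≤ |C j| * L ^ k * ‖b j‖ := mul_le_mul_of_nonneg_right h4 (norm_nonneg _)
    _ = _ := by ring

end

section

variable {n : ℕ} {N : Type u} [TopologicalSpace N] [T2Space N] [CompactSpace N]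
  [ChartedSpace (V n) N] [IsManifold (𝓡 n) ∞ N] [MeasurableSpace N] [BorelSpace N] {r : ℕ∞}

/-- **The main theorem.** -/
theorem mainA (hr : 1 ≤ r) (F : DiffM n N r) (ψ : ℝ → N → N) (h : CircleExt n N F ψ)
    (B : Type v) [MetricSpace B] [MeasurableSpace B] [BorelSpace B] (π : N → B) (f : B → B)
    (hπ : OrbitMap F ψ π f) (μ : Measure N) [IsFiniteMeasure μ] (hq : ∀ t, μ.map (ψ t) ≪ μ)
    {k : ℕ} {m : Fin k → Measure B} (hm : ∀ i, IsProbabilityMeasure (m i))
    (erg : ∀ i, Ergodic f (m i))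
    (hb : ∀ E : Set B, MeasurableSet E → (∀ i, m i Eᶜ = 0) →
      ∀ᵐ p ∂(μ.map π), ∃ y ∈ E, ExpAsy n π f p y) :
    (∀ᶠ s in residual ℝ, FiniteAttractors μ (Rt F ψ s)) ∧
    ∀ U : Set (DiffM n N r), IsOpen[strongTop n N r] U → F ∈ U →
      ∃ G ∈ U, CircleExt n N G ψ ∧ OrbitMap G ψ π f ∧ (∃ s, ∀ y, G y = ψ s (F y)) ∧
        FiniteAttractors μ G := by
  obtain ⟨ι, hι, e, he⟩ := exists_emb (n := n) (N := N)
  let _ : MetricSpace N :=
    ((he.smooth.continuous.isClosedEmbedding he.inj).isEmbedding).comapMetricSpace e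
  have hdist : ∀ x y : N, dist x y = ‖e x - e y‖ := fun x y => dist_eq_norm (e x) (e y)
  choose a ha using h.fibre
  have top : TopExt F ψ a :=
    ⟨h.flow.smooth.continuous, h.flow.zero, h.flow.add, h.free, fun y t => (ha y).2.2.2.2 t,
      fun y => (ha y).1, fun y => (ha y).2.1, fun y t => (ha y).2.2.2.1 t, fun y => (ha y).2.2.1⟩
  obtain ⟨A, hA1, hA2, hA3⟩ := exists_der hr F h.flow top
  obtain ⟨L, hM⟩ := mfam_rot (F := F.toHomeomorph) top hA1 hA2 hA3
  have hF1 : ContMDiff (𝓡 n) (𝓡 n) 1 F := F.contMDiff.of_le (WithTop.coe_le_coe.mpr hr)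
  have hl : LipFam F.toHomeomorph ψ (fun s y t => s + a y t) := by
    refine ⟨fun s => ?_, ?_, ?_⟩
    · obtain ⟨K, hK, h1⟩ := lipF_emb he h.flow hF1 s
      refine ⟨K, hK, fun x y => ?_⟩
      rw [Fs_rot (F := F.toHomeomorph) top, hdist, hdist]
      exact h1 x y
    · obtain ⟨K, hK, h1⟩ := lipψ_emb he h.flow h.free
      exact ⟨K, hK, fun t x y => by rw [hdist, hdist]; exact h1 t x y⟩
    · obtain ⟨K, hK, h1⟩ := sep_emb he h.flow h.free
      refine ⟨K, hK, fun t x => ?_⟩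
      obtain ⟨j, hj⟩ := h1 t x
      exact ⟨j, by rw [hdist]; exact hj⟩
  have hb' : ∀ E : Set B, (∀ i, ∀ᵐ y ∂(m i), y ∈ E) →
      ∀ᵐ p ∂(μ.map π), ∃ y ∈ E, AsyB π f p y := by
    intro E hE
    set E' : Set B := (toMeasurable (Measure.sum m) Eᶜ)ᶜ with hE'
    have h0 : Measure.sum m Eᶜ = 0 := by
      rw [Measure.sum_apply_of_countable, ENNReal.tsum_eq_zero]
      exact fun i => ae_iff.1 (hE i)
    have h1 : ∀ i, m i E'ᶜ = 0 := by
      intro i
      have h2 : Measure.sum m E'ᶜ = 0 := by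
        rw [hE', compl_compl, measure_toMeasurable, h0]
      rw [Measure.sum_apply_of_countable, ENNReal.tsum_eq_zero] at h2
      exact h2 i
    have h3 := hb E' (measurableSet_toMeasurable _ _).compl h1
    filter_upwards [h3] with p hp
    obtain ⟨y, hy, x, w, hx, hw, hc⟩ := hp
    refine ⟨y, ?_, ?_⟩
    · by_contra hc
      exact hy (subset_toMeasurable (Measure.sum m) Eᶜ hc)
    · obtain ⟨C, l, hC, hl0, hl1, hd⟩ := close_emb he.smooth hc
      exact ⟨x, w, C, l, hC, hl0, hl1, hx, hw, fun k => by rw [hdist]; exact hd k⟩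
  have hπ' : OrbitMap F.toHomeomorph ψ π f := hπ
  have hres : ∀ᶠ s in residual ℝ, FiniteAttractors μ (Rt F ψ s) := by
    have hh : ∀ i, ∀ᶠ s in residual ℝ,
        Fin1 (Fs F.toHomeomorph ψ (fun s y t => s + a y t) s) ψ π f (m i) := fun i => by
      have := hm i
      exact mostS hM hl hπ' (erg i)
    filter_upwards [eventually_countable_forall.2 hh] with s hs
    rw [Fs_rot (F := F.toHomeomorph) top] at hs
    refine fin_all (F := F.toHomeomorph) top (G := Rt F ψ s) ?_ hπ.cont hq hb' hs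
    exact h.flow.smooth.continuous.comp (continuous_const.prodMk F.continuous)
  refine ⟨hres, fun U hU hFU => ?_⟩
  obtain ⟨H, hH, hHe, hH0⟩ := Pool.Agent.N102.UF.flow_fam h.flow r F
  rcases isEmpty_or_nonempty N with hN | ⟨⟨z⟩⟩
  · obtain ⟨s, hs⟩ := (dense_of_mem_residual hres).nonempty
    refine ⟨F, hFU, h, hπ, ⟨0, fun y => (hN.false y).elim⟩, ?_⟩
    have : (F : N → N) = Rt F ψ s := funext fun y => (hN.false y).elim
    rw [this]
    exact hs
  obtain ⟨κ, hκ, hk⟩ := Pool.Agent.TH80.CLX.fam_mem r hr H hH z U hU (by rw [hH0]; exact hFU)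
  obtain ⟨s, hs, hsf⟩ := (dense_of_mem_residual hres).inter_open_nonempty (Ioo (-κ) κ) isOpen_Ioo
    ⟨0, by constructor <;> linarith⟩
  have hHs : (H s : N → N) = Rt F ψ s := funext fun y => hHe s y
  refine ⟨H s, hk s (by rw [Real.norm_eq_abs, abs_lt]; exact hs), ?_, ?_, ⟨s, hHe s⟩, ?_⟩
  · have h3 := topExt_rot top s (hHe s)
    exact ⟨h.flow, h.free, fun y => ⟨a y, h3.acont y, h3.amono y, h3.azero y, h3.aone y, h3.ext y⟩⟩
  · rw [hHs]
    exact orbR (F := F.toHomeomorph) hπ s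
  · rw [hHs]
    exact hsf

end

end Pool.Agent.V5helper25.QA
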