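import Pool.Agent.V5helper25.QA.FLip
import Pool.Agent.V5helper25.QA.MainA

/-!
# MP_3a2b62, Q2: fields which project to flows with exponentially asymptotic typical points
-/

set_option autoImplicit false
set_option linter.unusedSectionVars false
set_option linter.unusedVariables false

open scoped Manifold ContDiff Topology
open MeasureTheory Filter Set Metric

universe u v

namespace Pool.Agent.V5helper25.QA

open Pool.Agent.H718R2.G Pool.Agent.W564.SC Pool.Agent.N813.CX Pool.Agent.H728R2.FA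
  Pool.Agent.TH290.CL Pool.Agent.V5helper25.EX Pool.Agent.V5helper25.TK Pool.Agent.V5helper25.PB

/-- The curves `x` and `w` in the manifold `N` are exponentially close in the future: for every
smooth function `g` there are `C` and `l > 0` with `|g (x_t) - g (w_t)| ≤ C exp(-l t)` for all `t ≥ 0`.
If `N` is compact this means that the distance of `x_t` and `w_t` (for any Riemannian metric) is at
most `C exp(-l t)` for some `C` and `l > 0`. -/
def ExpCloseF (n : ℕ) {N : Type u} [TopologicalSpace N] [ChartedSpace (V n) N] (x w : ℝ → N) :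
    Prop :=
  ∀ g : N → ℝ, ContMDiff (𝓡 n) 𝓘(ℝ, ℝ) ∞ g →
    ∃ C l : ℝ, 0 < l ∧ ∀ t, 0 ≤ t → |g (x t) - g (w t)| ≤ C * Real.exp (-(l * t))

/-- The points `p` and `y` of the base of `π : N → B` are exponentially asymptotic for the flow `β`
of `B`: for `t ≥ 0` the fibres of `π` over `β_t(p)` and `β_t(y)` contain points `x_t` and `w_t` which
are exponentially close. -/
def ExpAsyF (n : ℕ) {N : Type u} [TopologicalSpace N] [ChartedSpace (V n) N] {B : Type v}
    (π : N → B) (β : ℝ → B → B) (p y : B) : Prop :=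
  ∃ x w : ℝ → N, (∀ t, 0 ≤ t → π (x t) = β t p) ∧ (∀ t, 0 ≤ t → π (w t) = β t y) ∧
    ExpCloseF n x w

theorem iter_base {B : Type v} [TopologicalSpace B] {β : ℝ → B → B} (h : FlowOn B β) (τ : ℝ)
    (k : ℕ) (y : B) : (β τ)^[k] y = β (k * τ) y := by
  induction k with
  | zero => simp [h.zero]
  | succ k ih =>
    rw [Function.iterate_succ_apply', ih, ← h.add]
    congr 1
    push_cast
    ring

theorem ExpAsyF.time {n : ℕ} {N : Type u} [TopologicalSpace N] [ChartedSpace (V n) N]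
    {B : Type v} [TopologicalSpace B] {π : N → B} {β : ℝ → B → B} (hβ : FlowOn B β) {p y : B}
    (h : ExpAsyF n π β p y) {τ : ℝ} (hτ : 0 < τ) : ExpAsy n π (β τ) p y := by
  obtain ⟨x, w, hx, hw, hc⟩ := h
  have h0 : ∀ k : ℕ, 0 ≤ (k : ℝ) * τ := fun k => by positivity
  refine ⟨fun k => x (k * τ), fun k => w (k * τ), fun k => ?_, fun k => ?_, fun g hg => ?_⟩
  · rw [iter_base hβ]
    exact hx _ (h0 k)
  · rw [iter_base hβ]
    exact hw _ (h0 k)
  · obtain ⟨C, l, hl, hC⟩ := hc g hg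
    refine ⟨C, Real.exp (-(l * τ)), Real.exp_pos _, ?_, fun k => ?_⟩
    · rw [Real.exp_lt_one_iff]
      have := mul_pos hl hτ
      linarith
    · have h1 := hC _ (h0 k)
      rw [← Real.exp_nat_mul]
      rwa [show (k : ℝ) * -(l * τ) = -(l * (k * τ)) by ring]

theorem meas_red {B : Type v} [MeasurableSpace B] {k : ℕ} {m : Fin k → Measure B}
    {ρ : Measure B} {R : B → B → Prop}
    (hb : ∀ E : Set B, MeasurableSet E → (∀ i, m i Eᶜ = 0) → ∀ᵐ p ∂ρ, ∃ y ∈ E, R p y) (E : Set B)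
    (hE : ∀ i, ∀ᵐ y ∂(m i), y ∈ E) : ∀ᵐ p ∂ρ, ∃ y ∈ E, R p y := by
  set E' : Set B := (toMeasurable (Measure.sum m) Eᶜ)ᶜ with hE'
  have h0 : Measure.sum m Eᶜ = 0 := by
    rw [Measure.sum_apply_of_countable, ENNReal.tsum_eq_zero]
    exact fun i => ae_iff.1 (hE i)
  have h1 : ∀ i, m i E'ᶜ = 0 := by
    intro i
    have h2 : Measure.sum m E'ᶜ = 0 := by
      rw [hE', compl_compl, measure_toMeasurable, h0]
    rw [Measure.sum_apply_of_countable, ENNReal.tsum_eq_zero] at h2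
    exact h2 i
  filter_upwards [hb E' (measurableSet_toMeasurable _ _).compl h1] with p hp
  obtain ⟨y, hy, hR⟩ := hp
  refine ⟨y, ?_, hR⟩
  by_contra hc
  exact hy (subset_toMeasurable (Measure.sum m) Eᶜ hc)

section

variable {n : ℕ} {N : Type u} [TopologicalSpace N] [T2Space N] [CompactSpace N]
  [ChartedSpace (V n) N] [IsManifold (𝓡 n) ∞ N] [MeasurableSpace N] [BorelSpace N]

/-- **The main theorem on fields.** -/
theorem mainFA {ψ : ℝ → N → N} (hψ : IsFlow n N ψ)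
    (hfree : ∀ (y : N) (t : ℝ), ψ t y = y ↔ ∃ j : ℤ, t = j)
    {Z : ∀ y : N, TangentSpace (𝓡 n) y} (hZ : FieldC 1 Z) (hψZ : IsFlowOf Z ψ)
    {Y : ∀ y : N, TangentSpace (𝓡 n) y} (hY : FieldC 1 Y) {φ : ℝ → N → N} (hφY : IsFlowOf Y φ)
    (hcomm : ∀ s t y, φ s (ψ t y) = ψ t (φ s y)) {g : N → ℝ} (hg : ContMDiff (𝓡 n) 𝓘(ℝ, ℝ) 1 g)
    {B : Type v} [MetricSpace B] [MeasurableSpace B] [BorelSpace B] {π : N → B} {β : ℝ → B → B}
    (hπ : OrbitFlow φ ψ π β) {μ : Measure N} [IsFiniteMeasure μ] (hq : ∀ t, μ.map (ψ t) ≪ μ)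
    {k : ℕ} {m : Fin k → Measure B} (hm : ∀ i, IsProbabilityMeasure (m i))
    (erg : ∀ i, ErgFlow β (m i))
    (hb : ∀ E : Set B, MeasurableSet E → (∀ i, m i Eᶜ = 0) →
      ∀ᵐ p ∂(μ.map π), ∃ y ∈ E, ExpAsyF n π β p y) :
    (∀ s : ℝ, ∃ Φ, IsFlowOf (fun x => Y x + (g x + s) • Z x) Φ) ∧
    ∀ᶠ s in residual ℝ, ∀ Φ, IsFlowOf (fun x => Y x + (g x + s) • Z x) Φ →
      FiniteAttractorsF μ Φ := by
  obtain ⟨ι, hι, e, he⟩ := exists_emb (n := n) (N := N)
  let _ : MetricSpace N :=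
    ((he.smooth.continuous.isClosedEmbedding he.inj).isEmbedding).comapMetricSpace e
  have hdist : ∀ x y : N, dist x y = ‖e x - e y‖ := fun x y => dist_eq_norm (e x) (e y)
  obtain ⟨g', hF⟩ := exists_fieldExt hψ hfree hφY.1 hcomm hg
  have hPh : ∀ s, IsFlowOf (fun x => Y x + (g x + s) • Z x) (Ph hF s) := fun s =>
    ⟨Ph_flow hF s, fun y => integral_curve hψ hψZ.2 hφY.2 hcomm (u := Yo hF.fld s y 0)
      (Yo_der hF.fld s y 0)⟩
  refine ⟨fun s => ⟨_, hPh s⟩, ?_⟩
  have hCB : CompactSpace B := ⟨by rw [← hπ.surj.range_eq]; exact isCompact_range hπ.cont⟩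
  have hc : (⋃ i, {τ : ℝ | 0 < τ ∧ ¬ Ergodic (β τ) (m i)}).Countable :=
    countable_iUnion fun i => by
      have := hm i
      exact time_countable hπ.flow (erg i)
  obtain ⟨τ, hτ, hτn⟩ := (hc.dense_compl ℝ).inter_open_nonempty (Ioi 0) isOpen_Ioi
    ⟨1, mem_Ioi.2 one_pos⟩
  have hτ0 : 0 < τ := hτ
  have herg : ∀ i, Ergodic (β τ) (m i) := fun i => by
    by_contra hcon
    exact hτn (mem_iUnion.2 ⟨i, hτ0, hcon⟩)
  obtain ⟨c, L, hM⟩ := exists_mfam hF hτ0
  have hO : OrbitMap ((Ph_flow hF 0).homeo τ) ψ π (β τ) :=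
    ⟨hπ.cont, hπ.surj, hπ.eq, fun x => by
      show π (ψ _ (φ τ x)) = β τ (π x)
      rw [← hπ.semi]
      exact ((hπ.eq _ _).2 ⟨_, rfl⟩).symm⟩
  have hFs : ∀ s, Fs ((Ph_flow hF 0).homeo τ) ψ (Af hF τ) s = Ph hF s τ := fun s => Fs_Ph hF τ s
  have hl : LipFam ((Ph_flow hF 0).homeo τ) ψ (Af hF τ) := by
    refine ⟨fun s => ?_, ?_, ?_⟩
    · obtain ⟨K, hK, h1⟩ := lip_flow he (field_add hY hZ hg s) (hPh s) hτ0.le
      refine ⟨K, hK, fun x y => ?_⟩
      rw [hFs, hdist, hdist]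
      exact h1 x y
    · obtain ⟨K, hK, h1⟩ := lipψ_emb he hψ hfree
      exact ⟨K, hK, fun t x y => by rw [hdist, hdist]; exact h1 t x y⟩
    · obtain ⟨K, hK, h1⟩ := sep_emb he hψ hfree
      refine ⟨K, hK, fun t x => ?_⟩
      obtain ⟨j, hj⟩ := h1 t x
      exact ⟨j, by rw [hdist]; exact hj⟩
  have hb' : ∀ E : Set B, (∀ i, ∀ᵐ y ∂(m i), y ∈ E) →
      ∀ᵐ p ∂(μ.map π), ∃ y ∈ E, AsyB π (β τ) p y := by
    intro E hE
    filter_upwards [meas_red hb E hE] with p hp
    obtain ⟨y, hy, hR⟩ := hp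
    obtain ⟨x, w, hx, hw, hc⟩ := hR.time hπ.flow hτ0
    obtain ⟨C, l, hC, hl0, hl1, hd⟩ := close_emb he.smooth hc
    exact ⟨y, hy, x, w, C, l, hC, hl0, hl1, hx, hw, fun k => by rw [hdist]; exact hd k⟩
  have hh : ∀ i, ∀ᶠ s in residual ℝ,
      Fin1 (Fs ((Ph_flow hF 0).homeo τ) ψ (Af hF τ) s) ψ π (β τ) (m i) := fun i => by
    have := hm i
    exact mostS hM hl hO (herg i)
  filter_upwards [eventually_countable_forall.2 hh] with s hs Φ hΦ
  rw [flow_unique (field_add hY hZ hg s) hΦ (hPh s)]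
  rw [hFs] at hs
  refine flow_of_time (Ph_flow hF s) hτ0 (fin_all (top hM) (G := Ph hF s τ) ?_ hπ.cont hq hb' hs)
  exact (Ph_flow hF s).cont.comp (continuous_const.prodMk continuous_id)

end

/-- `β` is the flow induced by `φ` on the space `B` of the orbits of `ψ`; the null sets of `μ` are
invariant under `ψ`; the measures `m i` are ergodic invariant probability measures of `β`; for every
measurable set `E` of full measure for all `m i`, almost every point of `B`, for the projection of `μ`,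
is exponentially asymptotic to a point of `E`. -/
structure AsyBase (n : ℕ) {N : Type u} [TopologicalSpace N] [ChartedSpace (V n) N]
    [MeasurableSpace N] {B : Type v} [TopologicalSpace B] [MeasurableSpace B] (φ ψ : ℝ → N → N)
    (π : N → B) (β : ℝ → B → B) (μ : Measure N) {k : ℕ} (m : Fin k → Measure B) : Prop where
  base : OrbitFlow φ ψ π β
  quasi : ∀ t, μ.map (ψ t) ≪ μ
  prob : ∀ i, IsProbabilityMeasure (m i)
  erg : ∀ i, ErgFlow β (m i)
  asy : ∀ E : Set B, MeasurableSet E → (∀ i, m i Eᶜ = 0) →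
    ∀ᵐ p ∂(μ.map π), ∃ y ∈ E, ExpAsyF n π β p y

end Pool.Agent.V5helper25.QA
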