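import Pool.Agent.V5helper25.QA.Gro

/-!
# MP_3a2b62: the graphs along almost every orbit
-/

set_option autoImplicit false
set_option linter.unusedVariables false
set_option linter.unusedSectionVars false

open Set Filter Topology MeasureTheory

namespace Pool.Agent.V5helper25.QA

open Pool.Agent.TH525.PF Pool.Agent.TH525.PF.Sys

variable {Y : Type*} [MeasurableSpace Y] {ν : Measure Y} [IsProbabilityMeasure ν]

/-- increasing measurable sets which exhaust almost everything -/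
theorem exists_small {E : ℕ → Set Y} (mE : ∀ j, MeasurableSet (E j)) (mono : Monotone E)
    (full : ∀ᵐ z ∂ν, ∃ j, z ∈ E j) {δ : ℝ} (hδ : 0 < δ) : ∃ j, ν.real (E j)ᶜ < δ := by
  have h1 : Tendsto (fun j => ν (E j)ᶜ) atTop (𝓝 (ν (⋂ j, (E j)ᶜ))) := by
    refine tendsto_measure_iInter_atTop (fun j => (mE j).compl.nullMeasurableSet) ?_
      ⟨0, measure_ne_top _ _⟩
    exact fun i j hij => compl_subset_compl.2 (mono hij)
  have h2 : ν (⋂ j, (E j)ᶜ) = 0 := by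
    refine measure_mono_null ?_ (ae_iff.1 full)
    intro z hz
    rw [mem_iInter] at hz
    simp only [mem_ofPred_eq, not_exists]
    exact hz
  rw [h2] at h1
  have h3 : Tendsto (fun j => ν.real (E j)ᶜ) atTop (𝓝 0) := by
    have := (ENNReal.tendsto_toReal ENNReal.zero_ne_top).comp h1
    rw [ENNReal.toReal_zero] at this
    exact this
  exact (h3.eventually (gt_mem_nhds hδ)).exists

section

variable (S : Sys Y)

/-- consecutive graphs -/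
def Adj (ν : Measure Y) (φ ψ : Y → ℝ) : Prop := (∀ᵐ x ∂ν, φ x < ψ x) ∧
  ∀ χ, S.Gr ν χ → (∀ᵐ x ∂ν, φ x < χ x) → (∀ᵐ x ∂ν, χ x < ψ x) → False

/-- everything between the graphs is attracted to the lower one -/
def LeftA (ν : Measure Y) (φ ψ : Y → ℝ) : Prop := S.ex ν φ < 0 ∧
  ∀ᵐ x ∂ν, ∀ y, φ x < y → y < ψ x → S.Cv φ x y

/-- everything between the graphs is attracted to the upper one -/
def RightA (ν : Measure Y) (φ ψ : Y → ℝ) : Prop := S.ex ν ψ < 0 ∧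
  ∀ᵐ x ∂ν, ∀ y, φ x < y → y < ψ x → S.Cv ψ x y

variable {S}

theorem gr_shift (per : ∀ x y, S.F x (y + 1) = S.F x y + 1) {φ : Y → ℝ} (h : S.Gr ν φ) (k : ℤ) :
    S.Gr ν (fun x => φ x + k) := by
  refine ⟨h.1.add_const _, ?_⟩
  filter_upwards [h.2] with x hx
  rw [S.F_int per, hx]

theorem ex_shift (per : ∀ x y, S.F x (y + 1) = S.F x y + 1) (φ : Y → ℝ) (k : ℤ) :
    S.ex ν (fun x => φ x + k) = S.ex ν φ := by
  unfold Sys.ex
  refine integral_congr_ae (Eventually.of_forall fun x => ?_)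
  show Real.log (S.G x (φ x + k)) = Real.log (S.G x (φ x))
  rw [G_int (F := S.F) (G := S.G) per S.der k]

theorem ex_congr {φ ψ : Y → ℝ} (h : ∀ᵐ x ∂ν, φ x = ψ x) : S.ex ν φ = S.ex ν ψ := by
  unfold Sys.ex
  refine integral_congr_ae ?_
  filter_upwards [h] with x hx
  rw [hx]

variable {A : Finset (Y → ℝ)} {α : Y → ℝ}

/-- the order at almost every point is the order almost everywhere -/
theorem ord (erg : Ergodic S.T ν) (per : ∀ x y, S.F x (y + 1) = S.F x y + 1)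
    (hA : ∀ φ ∈ A, S.Gr ν φ) : ∀ᵐ z ∂ν, ∀ φ ∈ A, ∀ ψ ∈ A, ∀ j : ℤ,
      (φ z + j < ψ z → ∀ᵐ x ∂ν, φ x + j < ψ x) ∧ (φ z + j = ψ z → ∀ᵐ x ∂ν, φ x + j = ψ x) ∧
      (ψ z < φ z + j → ∀ᵐ x ∂ν, ψ x < φ x + j) := by
  refine (Filter.eventually_all_finset A).2 fun φ hφ => ?_
  refine (Filter.eventually_all_finset A).2 fun ψ hψ => ?_
  rw [ae_all_iff]
  intro j
  rcases S.tri erg (gr_shift per (hA φ hφ) j) (hA ψ hψ) with h | h | h
  · filter_upwards [h] with x hx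
    exact ⟨fun _ => h, fun hc => absurd hc hx.ne, fun hc => absurd hc (not_lt.2 hx.le)⟩
  · filter_upwards [h] with x hx
    exact ⟨fun hc => absurd hx hc.ne, fun _ => h, fun hc => absurd hx hc.ne'⟩
  · filter_upwards [h] with x hx
    exact ⟨fun hc => absurd hc (not_lt.2 hx.le), fun hc => absurd hc hx.ne', fun _ => h⟩

/-- every point lies between two consecutive graphs -/
theorem strips (erg : Ergodic S.T ν) (per : ∀ x y, S.F x (y + 1) = S.F x y + 1)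
    (hα : S.Gr ν α)
    (hA1 : ∀ φ ∈ A, S.Gr ν φ ∧ ∀ᵐ x ∂ν, α x ≤ φ x ∧ φ x ≤ α x + 1)
    (hA2 : ∀ ψ, S.Gr ν ψ → (∀ᵐ x ∂ν, α x ≤ ψ x ∧ ψ x ≤ α x + 1) → ∃ φ ∈ A, ∀ᵐ x ∂ν, ψ x = φ x) :
    ∀ᵐ x ∂ν, ∀ y, α x ≤ y → y < α x + 1 →
      ∃ φ ∈ A, ∃ ψ ∈ A, φ x ≤ y ∧ y < ψ x ∧ Adj S ν φ ψ := by
  classical
  have hα' : S.Gr ν (fun x => α x + 1) := by
    refine ⟨hα.1.add_const 1, ?_⟩
    filter_upwards [hα.2] with x hx
    rw [per, hx]
  obtain ⟨β, hβ, eβ⟩ := hA2 α hα (Eventually.of_forall fun x => ⟨le_rfl, by linarith⟩)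
  obtain ⟨γ, hγ, eγ⟩ := hA2 _ hα' (Eventually.of_forall fun x => ⟨by linarith, le_rfl⟩)
  have Q : ∀ᵐ x ∂ν, ∀ φ ∈ A, ∀ ψ ∈ A, φ x < ψ x → ∀ᵐ z ∂ν, φ z < ψ z := by
    refine (Filter.eventually_all_finset A).2 fun φ hφ => ?_
    refine (Filter.eventually_all_finset A).2 fun ψ hψ => ?_
    rcases S.tri erg (hA1 φ hφ).1 (hA1 ψ hψ).1 with h | h | h
    · exact Eventually.of_forall fun x _ => h
    · filter_upwards [h] with x hx hlt
      exact absurd hx hlt.ne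
    · filter_upwards [h] with x hx hlt
      exact absurd hx (not_lt.2 hlt.le)
  have Q' : ∀ᵐ x ∂ν, ∀ φ ∈ A, ∀ ψ ∈ A, (∀ᵐ z ∂ν, φ z < ψ z) → φ x < ψ x := by
    refine (Filter.eventually_all_finset A).2 fun φ hφ => ?_
    refine (Filter.eventually_all_finset A).2 fun ψ hψ => ?_
    by_cases h : ∀ᵐ z ∂ν, φ z < ψ z
    · filter_upwards [h] with x hx _ using hx
    · exact Eventually.of_forall fun x hx => absurd hx h
  filter_upwards [Q, Q', eβ, eγ] with x hQ hQ' hβx hγx y hy1 hy2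
  have n1 : (A.filter fun φ => φ x ≤ y).Nonempty :=
    ⟨β, Finset.mem_filter.2 ⟨hβ, by rw [← hβx]; exact hy1⟩⟩
  have n2 : (A.filter fun φ => y < φ x).Nonempty :=
    ⟨γ, Finset.mem_filter.2 ⟨hγ, by rw [← hγx]; exact hy2⟩⟩
  obtain ⟨φ, hφ, hφmax⟩ := Finset.exists_max_image _ (fun φ : Y → ℝ => φ x) n1
  obtain ⟨ψ, hψ, hψmin⟩ := Finset.exists_min_image _ (fun φ : Y → ℝ => φ x) n2
  rw [Finset.mem_filter] at hφ hψ
  refine ⟨φ, hφ.1, ψ, hψ.1, hφ.2, hψ.2, hQ φ hφ.1 ψ hψ.1 (hφ.2.trans_lt hψ.2), ?_⟩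
  intro χ hχ c1 c2
  obtain ⟨χ', hχ', e⟩ := hA2 χ hχ (by
    filter_upwards [c1, c2, (hA1 φ hφ.1).2, (hA1 ψ hψ.1).2] with z a b c d
    exact ⟨c.1.trans a.le, b.le.trans d.2⟩)
  have d1 := hQ' φ hφ.1 χ' hχ' (by filter_upwards [c1, e] with z a b; rwa [← b])
  have d2 := hQ' χ' hχ' ψ hψ.1 (by filter_upwards [c2, e] with z a b; rwa [← b])
  rcases le_or_gt (χ' x) y with h3 | h3
  · exact absurd (hφmax χ' (Finset.mem_filter.2 ⟨hχ', h3⟩)) (not_le.2 d1)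
  · exact absurd (hψmin χ' (Finset.mem_filter.2 ⟨hχ', h3⟩)) (not_le.2 d2)

theorem adj_strip (erg : Ergodic S.T ν) (hno : ∀ φ, S.Gr ν φ → S.ex ν φ ≠ 0) {φ ψ : Y → ℝ}
    (hφ : S.Gr ν φ) (hψ : S.Gr ν ψ) (h : Adj S ν φ ψ) : LeftA S ν φ ψ ∨ RightA S ν φ ψ :=
  S.strip erg hφ hψ h.1 (hno _ hφ) (hno _ hψ) h.2

/-- an attracted lift between two repelled lifts -/
theorem btw_ae (erg : Ergodic S.T ν) (per : ∀ x y, S.F x (y + 1) = S.F x y + 1)
    (hno : ∀ φ, S.Gr ν φ → S.ex ν φ ≠ 0) (hα : S.Gr ν α)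
    (hA1 : ∀ φ ∈ A, S.Gr ν φ ∧ ∀ᵐ x ∂ν, α x ≤ φ x ∧ φ x ≤ α x + 1)
    (hA2 : ∀ ψ, S.Gr ν ψ → (∀ᵐ x ∂ν, α x ≤ ψ x ∧ ψ x ≤ α x + 1) → ∃ φ ∈ A, ∀ᵐ x ∂ν, ψ x = φ x) :
    ∀ᵐ z ∂ν, ∀ φ ∈ A, 0 < S.ex ν φ → ∀ φ' ∈ A, 0 < S.ex ν φ' → ∀ k k' : ℤ,
      φ z + k < φ' z + k' →
      ∃ ψ ∈ A, S.ex ν ψ < 0 ∧ ∃ j : ℤ, φ z + k < ψ z + j ∧ ψ z + j < φ' z + k' := by
  filter_upwards [ord erg per (fun φ hφ => (hA1 φ hφ).1), strips erg per hα hA1 hA2]
    with z hord hstr φ hφ hex φ' hφ' hex' k k' hlt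
  set i : ℤ := ⌊φ z + k - α z⌋ with hi
  have f1 := Int.floor_le (φ z + k - α z)
  have f2 := Int.lt_floor_add_one (φ z + k - α z)
  obtain ⟨φ1, hφ1, ψ1, hψ1, c1, c2, hadj⟩ := hstr (φ z + k - i) (by linarith) (by linarith)
  have e1 : φ z + ((k - i : ℤ) : ℝ) = φ z + k - i := by push_cast; ring
  have e2 : φ' z + ((k' - i : ℤ) : ℝ) = φ' z + k' - i := by push_cast; ring
  have o1 := hord φ hφ φ1 hφ1 (k - i)
  have o2 := hord φ hφ ψ1 hψ1 (k - i)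
  have o3 := hord φ' hφ' φ1 hφ1 (k' - i)
  have o4 := hord φ' hφ' ψ1 hψ1 (k' - i)
  rw [e1] at o1 o2
  rw [e2] at o3 o4
  -- the lower graph is the repelled one
  have heq : φ z + k - i = φ1 z := by
    rcases c1.eq_or_lt with h | h
    · exact h.symm
    · exact (hadj.2 _ (gr_shift per (hA1 φ hφ).1 (k - i)) (o1.2.2 h) (o2.1 c2)).elim
  have hexφ1 : 0 < S.ex ν φ1 := by
    rw [← ex_congr (o1.2.1 heq), ex_shift per]
    exact hex
  have hneg : S.ex ν ψ1 < 0 := by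
    rcases adj_strip erg hno (hA1 φ1 hφ1).1 (hA1 ψ1 hψ1).1 hadj with h | h
    · exact absurd h.1 (not_lt.2 hexφ1.le)
    · exact h.1
  refine ⟨ψ1, hψ1, hneg, i, by linarith, ?_⟩
  rcases lt_trichotomy (φ' z + k' - i) (ψ1 z) with h | h | h
  · exact (hadj.2 _ (gr_shift per (hA1 φ' hφ').1 (k' - i)) (o3.2.2 (by linarith)) (o4.1 h)).elim
  · exfalso
    have := ex_congr (S := S) (o4.2.1 h)
    rw [ex_shift per] at this
    linarith
  · linarith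

/-- the averages along a graph -/
theorem bs_lim (erg : Ergodic S.T ν) {φ : Y → ℝ} (hφ : S.Gr ν φ) :
    ∀ᵐ z ∂ν, ∀ ε : ℝ, 0 < ε → ∀ᶠ n : ℕ in atTop, |Bs S φ z n - S.ex ν φ * n| ≤ ε * n := by
  have hb := Pool.Agent.H165R3.birkhoff (m := ν) erg (fun x => Real.log (S.G x (φ x)))
    (S.measG hφ.1).log ⟨Real.log S.L, fun x => S.abs_log _ _⟩
  filter_upwards [hb] with z hz ε hε
  have h1 := (Metric.tendsto_atTop.1 hz) ε hε
  obtain ⟨N, hN⟩ := h1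
  filter_upwards [eventually_ge_atTop (max N 1)] with n hn
  have h2 := hN n ((le_max_left _ _).trans hn)
  have hn1 : (0 : ℝ) < n := by
    have : 1 ≤ n := (le_max_right _ _).trans hn
    exact_mod_cast this
  rw [Real.dist_eq] at h2
  have e : Bs S φ z n - S.ex ν φ * n = n * ((n : ℝ)⁻¹ *
      ∑ k ∈ Finset.range n, Real.log (S.G (S.T^[k] z) (φ (S.T^[k] z))) - S.ex ν φ) := by
    unfold Bs
    field_simp
  rw [e, abs_mul, abs_of_pos hn1, mul_comm ε]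
  exact mul_le_mul_of_nonneg_left h2.le hn1.le

theorem bs_meas {φ : Y → ℝ} (hφ : Measurable φ) (n : ℕ) : Measurable fun z => Bs S φ z n := by
  unfold Bs
  refine Finset.measurable_sum _ fun k _ => ?_
  exact (S.mG.comp ((S.T.measurable.iterate k).prodMk (hφ.comp (S.T.measurable.iterate k)))).log

theorem inv_ae (erg : Ergodic S.T ν) {φ : Y → ℝ} (h : S.Gr ν φ) :
    ∀ᵐ z ∂ν, ∀ n : ℕ, S.F (S.T^[n] z) (φ (S.T^[n] z)) = φ (S.T^[n + 1] z) := by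
  rw [ae_all_iff]
  intro n
  filter_upwards [(erg.toMeasurePreserving.quasiMeasurePreserving.iterate n).ae h.2] with z hz
  rw [Function.iterate_succ_apply']
  exact hz

end

end Pool.Agent.V5helper25.QA
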