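import Pool.Agent.V5helper25.QA.Fct

/-!
# MP_3a2b62: perturbed orbits are attracted by the graphs, main statement
-/

set_option autoImplicit false
set_option linter.unusedVariables false
set_option linter.unusedSectionVars false

open Set Filter Topology MeasureTheory

namespace Pool.Agent.V5helper25.QA

open Pool.Agent.TH525.PF Pool.Agent.TH525.PF.Sys

variable {Y : Type*} [MeasurableSpace Y] {ν : Measure Y} [IsProbabilityMeasure ν] {S : Sys Y}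
  {A : Finset (Y → ℝ)} {α : Y → ℝ}

theorem exists_gap (hno : ∀ φ ∈ A, S.ex ν φ ≠ 0) : ∃ c : ℝ, 0 < c ∧ ∀ φ ∈ A, c ≤ |S.ex ν φ| := by
  rcases A.eq_empty_or_nonempty with h | h
  · exact ⟨1, one_pos, fun φ hφ => by rw [h] at hφ; exact absurd hφ (Finset.notMem_empty _)⟩
  · obtain ⟨φ, hφ, hmin⟩ := Finset.exists_min_image A (fun φ => |S.ex ν φ|) h
    exact ⟨|S.ex ν φ|, abs_pos.2 (hno φ hφ), hmin⟩

open scoped Classical in
theorem facts_ae (erg : Ergodic S.T ν) (per : ∀ x y, S.F x (y + 1) = S.F x y + 1)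
    (hno : ∀ φ, S.Gr ν φ → S.ex ν φ ≠ 0) (hα : S.Gr ν α)
    (hA1 : ∀ φ ∈ A, S.Gr ν φ ∧ ∀ᵐ x ∂ν, α x ≤ φ x ∧ φ x ≤ α x + 1)
    (hA2 : ∀ ψ, S.Gr ν ψ → (∀ᵐ x ∂ν, α x ≤ ψ x ∧ ψ x ≤ α x + 1) → ∃ φ ∈ A, ∀ᵐ x ∂ν, ψ x = φ x)
    {lam : ℝ} (hl0 : 0 < lam) (hl1 : lam < 1) :
    ∃ (ε η a ρ δ : ℝ) (M : ℕ), 0 < ε ∧ Real.exp (2 * ε) * lam < 1 ∧ 0 < η ∧
      (∀ x y y', |y - y'| < η → |Real.log (S.G x y) - Real.log (S.G x y')| ≤ ε) ∧
      1 ≤ a ∧ 0 < ρ ∧ ρ ≤ η / (2 * a) ∧ δ < 1 ∧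
      ∀ᵐ z ∂ν, ∃ good : ℕ → Prop, Facts S (A.filter fun φ => S.ex ν φ < 0)
        (A.filter fun φ => 0 < S.ex ν φ) ε a ρ δ M z good := by
  obtain ⟨c, hc, hcA⟩ := exists_gap (fun φ hφ => hno φ (hA1 φ hφ).1)
  have hll : Real.log lam < 0 := Real.log_neg hl0 hl1
  set ε := min (c / 8) (-Real.log lam / 4) with hε
  have hε0 : 0 < ε := lt_min (by positivity) (by linarith)
  have hεc : 8 * ε ≤ c := by
    have := min_le_left (c / 8) (-Real.log lam / 4)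
    linarith
  have hεl : Real.exp (2 * ε) * lam < 1 := by
    have h1 := min_le_right (c / 8) (-Real.log lam / 4)
    rw [← Real.exp_log hl0, ← Real.exp_add, Real.exp_lt_one_iff]
    linarith
  obtain ⟨η, hη0, hη⟩ := S.mod ε hε0
  set B1 := A.filter fun φ => S.ex ν φ < 0 with hB1
  set B2 := A.filter fun φ => 0 < S.ex ν φ with hB2
  have hb1 : ∀ φ ∈ B1, φ ∈ A ∧ S.ex ν φ < 0 := fun φ hφ => Finset.mem_filter.1 hφ
  have hb2 : ∀ φ ∈ B2, φ ∈ A ∧ 0 < S.ex ν φ := fun φ hφ => Finset.mem_filter.1 hφ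
  have hLp : 0 < 2 * Real.log S.L + 1 := by linarith [S.logL]
  set δ := min (1 / 2) (ε / (2 * Real.log S.L + 1)) with hδ
  have hδ0 : 0 < δ := lt_min (by norm_num) (div_pos hε0 hLp)
  have hδ1 : δ < 1 := (min_le_left _ _).trans_lt (by norm_num)
  have hδ2 : 2 * Real.log S.L * δ ≤ ε := by
    have h1 : δ ≤ ε / (2 * Real.log S.L + 1) := min_le_right _ _
    rw [le_div_iff₀ hLp] at h1
    linarith
  -- the two sets
  have hB1gr : ∀ ψ ∈ B1, S.Gr ν ψ := fun ψ hψ => (hA1 ψ (hb1 ψ hψ).1).1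
  obtain ⟨j, hj⟩ := exists_small (ν := ν) (E := E1 S B1 ε)
    (fun j => E1_meas (fun ψ hψ => (hB1gr ψ hψ).1) j) E1_mono
    (E1_full erg hε0 hB1gr (fun ψ hψ => by
      have h1 := hcA ψ (hb1 ψ hψ).1
      rw [abs_of_neg (hb1 ψ hψ).2] at h1
      linarith)) (show 0 < δ / 3 by positivity)
  set a := Real.exp j with ha
  have ha1 : 1 ≤ a := Real.one_le_exp (Nat.cast_nonneg j)
  have hla : Real.log a = j := Real.log_exp _
  set ρ := η / (2 * a) with hρ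
  have hρ0 : 0 < ρ := div_pos hη0 (by positivity)
  obtain ⟨M, hM⟩ := exists_small (ν := ν) (E := E2 S ν A ρ)
    (fun j => E2_meas (fun ψ hψ => (hA1 ψ hψ).1.1) j) E2_mono
    (E2_full erg hρ0 (fun ψ hψ => (hA1 ψ hψ).1)) (show 0 < δ / 3 by positivity)
  refine ⟨ε, η, a, ρ, δ, M, hε0, hεl, hη0, hη, ha1, hρ0, le_rfl, hδ1, ?_⟩
  -- the good set
  set E : Set Y := E1 S B1 ε j ∩ E2 S ν A ρ M ∩ S.T^[M] ⁻¹' E1 S B1 ε j with hE
  have mE1 : MeasurableSet (E1 S B1 ε j) := E1_meas (fun ψ hψ => (hB1gr ψ hψ).1) j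
  have mE2 : MeasurableSet (E2 S ν A ρ M) := E2_meas (fun ψ hψ => (hA1 ψ hψ).1.1) M
  have hTM : MeasurePreserving (S.T^[M]) ν ν := erg.toMeasurePreserving.iterate M
  have mE : MeasurableSet E := (mE1.inter mE2).inter (mE1.preimage hTM.measurable)
  have hEm : ν.real Eᶜ < δ := by
    have h1 : Eᶜ = ((E1 S B1 ε j)ᶜ ∪ (E2 S ν A ρ M)ᶜ) ∪ S.T^[M] ⁻¹' (E1 S B1 ε j)ᶜ := by
      rw [hE, compl_inter, compl_inter, preimage_compl]
    have h2 := measureReal_union_le (μ := ν) ((E1 S B1 ε j)ᶜ ∪ (E2 S ν A ρ M)ᶜ)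
      (S.T^[M] ⁻¹' (E1 S B1 ε j)ᶜ)
    have h3 := measureReal_union_le (μ := ν) (E1 S B1 ε j)ᶜ (E2 S ν A ρ M)ᶜ
    have h4 : ν.real (S.T^[M] ⁻¹' (E1 S B1 ε j)ᶜ) = ν.real (E1 S B1 ε j)ᶜ := by
      rw [Measure.real, Measure.real, hTM.measure_preimage mE1.compl.nullMeasurableSet]
    rw [h1]
    linarith
  -- the frequency of the bad times
  have hfr := Pool.Agent.H165R3.birkhoff (m := ν) erg (fun x => if x ∈ E then (0 : ℝ) else 1)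
    (Measurable.ite mE measurable_const measurable_const)
    ⟨1, fun x => by split_ifs <;> simp⟩
  have hint : ∫ x, (if x ∈ E then (0 : ℝ) else 1) ∂ν = ν.real Eᶜ := by
    have e1 : (fun x => if x ∈ E then (0 : ℝ) else 1) = Eᶜ.indicator 1 := by
      funext x
      by_cases hx : x ∈ E
      · rw [if_pos hx, indicator_of_notMem (by simpa using hx)]
      · rw [if_neg hx, indicator_of_mem (by simpa using hx)]
        rfl
    rw [e1, integral_indicator_one mE.compl]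
  rw [hint] at hfr
  have hinv : ∀ᵐ z ∂ν, ∀ φ ∈ A, ∀ n : ℕ, S.F (S.T^[n] z) (φ (S.T^[n] z)) = φ (S.T^[n + 1] z) :=
    (Filter.eventually_all_finset A).2 fun φ hφ => inv_ae erg (hA1 φ hφ).1
  have hbs : ∀ᵐ z ∂ν, ∀ φ ∈ A, ∀ e : ℝ, 0 < e →
      ∀ᶠ n : ℕ in atTop, |Bs S φ z n - S.ex ν φ * n| ≤ e * n :=
    (Filter.eventually_all_finset A).2 fun φ hφ => bs_lim erg (hA1 φ hφ).1
  have hgen : ∀ᵐ x ∂ν, (∀ y, α x ≤ y → y < α x + 1 →
      ∃ φ ∈ A, ∃ ψ ∈ A, φ x ≤ y ∧ y < ψ x ∧ Adj S ν φ ψ) ∧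
      ∀ φ ∈ A, ∀ n : ℕ, S.it n x (φ x) = φ (S.T^[n] x) :=
    (strips erg per hα hA1 hA2).and
      ((Filter.eventually_all_finset A).2 fun φ hφ => (hA1 φ hφ).1.iter S erg)
  have hgen' : ∀ᵐ z ∂ν, ∀ n : ℕ, (∀ y, α (S.T^[n] z) ≤ y → y < α (S.T^[n] z) + 1 →
      ∃ φ ∈ A, ∃ ψ ∈ A, φ (S.T^[n] z) ≤ y ∧ y < ψ (S.T^[n] z) ∧ Adj S ν φ ψ) ∧
      ∀ φ ∈ A, ∀ k : ℕ, S.it k (S.T^[n] z) (φ (S.T^[n] z)) = φ (S.T^[k] (S.T^[n] z)) := by
    rw [ae_all_iff]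
    intro n
    exact (erg.toMeasurePreserving.quasiMeasurePreserving.iterate n).ae hgen
  filter_upwards [hfr, hinv, hbs, hgen', btw_ae erg per hno hα hA1 hA2]
    with z z1 z2 z3 z4 z5
  refine ⟨fun n => S.T^[n] z ∈ E, ?_⟩
  refine
    { inv1 := fun φ hφ => z2 φ (hb1 φ hφ).1
      inv2 := fun φ hφ => z2 φ (hb2 φ hφ).1
      ex1 := ?_
      ex2 := ?_
      btw := ?_
      g1 := ?_
      g2 := ?_
      g3 := ?_
      freq := ?_ }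
  · intro φ hφ
    obtain ⟨h1, h2⟩ := hb1 φ hφ
    have h3 := hcA φ h1
    rw [abs_of_neg h2] at h3
    refine ⟨- S.ex ν φ, by linarith, ?_⟩
    filter_upwards [z3 φ h1 ε hε0] with n hn
    rwa [neg_mul, ← sub_eq_add_neg]
  · intro φ hφ
    obtain ⟨h1, h2⟩ := hb2 φ hφ
    have h3 := hcA φ h1
    rw [abs_of_pos h2] at h3
    exact ⟨S.ex ν φ, by linarith, z3 φ h1 ε hε0⟩
  · intro φ hφ φ' hφ' k k' hlt
    obtain ⟨ψ, h1, h2, i, h3⟩ := z5 φ (hb2 φ hφ).1 (hb2 φ hφ).2 φ' (hb2 φ' hφ').1 (hb2 φ' hφ').2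
      k k' hlt
    exact ⟨ψ, Finset.mem_filter.2 ⟨h1, h2⟩, i, h3⟩
  · intro n hn ψ hψ k
    rw [hla]
    exact hn.1.1 ψ hψ k
  · intro n hn t
    have h1 := g2_of erg per hno (fun φ hφ => (hA1 φ hφ).1) (z4 n).1 (z4 n).2 hρ0 hn.1.2 t
    have e1 : S.T^[M] (S.T^[n] z) = S.T^[n + M] z := by
      rw [← Function.iterate_add_apply, add_comm]
    rw [e1] at h1
    rcases h1 with ⟨φ, h1, h2, k, h3⟩ | ⟨φ, h1, h2, k, h3⟩ | ⟨φ, h1, h2, k, h3⟩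
    · exact Or.inl ⟨φ, Finset.mem_filter.2 ⟨h1, h2⟩, k, h3⟩
    · exact Or.inr (Or.inl ⟨φ, Finset.mem_filter.2 ⟨h1, h2⟩, k, h3⟩)
    · exact Or.inr (Or.inr ⟨φ, Finset.mem_filter.2 ⟨h1, h2⟩, k, h3⟩)
  · intro n hn ψ hψ k
    have e1 : S.T^[M] (S.T^[n] z) = S.T^[n + M] z := by
      rw [← Function.iterate_add_apply, add_comm]
    rw [hla, ← e1]
    exact hn.2 ψ hψ k
  · have h1 := z1.eventually (gt_mem_nhds hEm)
    filter_upwards [h1, eventually_gt_atTop 0] with n hn hn0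
    have hn1 : (0 : ℝ) < n := by exact_mod_cast hn0
    rw [inv_mul_lt_iff₀ hn1] at hn
    have h2 : ∑ k ∈ Finset.range n, (if S.T^[k] z ∈ E then (0 : ℝ) else 1) ≤ n * δ := hn.le
    rw [mul_comm] at h2
    convert h2

theorem Shad.mono_lam {z : Y} {G g : ℕ → ℝ → ℝ} {C lam lam' : ℝ} (h : Shad S z G g C lam)
    (h0 : 0 ≤ lam) (hl : lam ≤ lam') : Shad S z G g C lam' :=
  ⟨h.der, h.lo, h.hi, h.one, h.C0, fun n t => (h.close n t).trans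
    (mul_le_mul_of_nonneg_left (pow_le_pow_left₀ h0 hl n) h.C0), h.dclose⟩

/-- **Perturbed orbits are attracted.** -/
theorem near_all (erg : Ergodic S.T ν) (per : ∀ x y, S.F x (y + 1) = S.F x y + 1)
    (hno : ∀ φ, S.Gr ν φ → S.ex ν φ ≠ 0) (hα : S.Gr ν α) :
    ∃ A1 : Finset (Y → ℝ), (∀ φ ∈ A1, S.Gr ν φ ∧ S.ex ν φ < 0) ∧
      ∀ᵐ z ∂ν, ∀ (G g : ℕ → ℝ → ℝ) (C lam : ℝ), 0 < lam → lam < 1 → Shad S z G g C lam →
        {t : ℝ | ∃ X, IsOrb G 0 X ∧ X 0 = t ∧ ¬ Att S A1 z X}.Countable := by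
  classical
  obtain ⟨A, hA1, hA2⟩ := S.exists_reps erg hno α (fun x => α x + 1)
  refine ⟨A.filter fun φ => S.ex ν φ < 0, fun φ hφ => ?_, ?_⟩
  · rw [Finset.mem_filter] at hφ
    exact ⟨(hA1 φ hφ.1).1, hφ.2⟩
  have key : ∀ j : ℕ, ∀ᵐ z ∂ν, ∀ (G g : ℕ → ℝ → ℝ) (C : ℝ),
      Shad S z G g C (1 - 1 / ((j : ℝ) + 2)) →
      {t : ℝ | ∃ X, IsOrb G 0 X ∧ X 0 = t ∧
        ¬ Att S (A.filter fun φ => S.ex ν φ < 0) z X}.Countable := by
    intro j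
    have hj : (0 : ℝ) ≤ j := Nat.cast_nonneg j
    have h1 : 1 / ((j : ℝ) + 2) < 1 := by
      rw [div_lt_one (by linarith)]
      linarith
    have h2 : 0 < 1 / ((j : ℝ) + 2) := by positivity
    obtain ⟨ε, η, a, ρ, δ, M, b1, b2, b3, b4, b5, b6, b7, b8, b9⟩ :=
      facts_ae erg per hno hα hA1 hA2 (lam := 1 - 1 / ((j : ℝ) + 2)) (by linarith) (by linarith)
    filter_upwards [b9] with z hz G g C hG
    obtain ⟨good, hF⟩ := hz
    exact countable_bad hG hF per (by linarith) (by linarith) b2 b1 b3 b4 b5 b6 b7 b8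
  filter_upwards [ae_all_iff.2 key] with z hz G g C lam h0 h1 hG
  obtain ⟨j, hj⟩ := exists_nat_gt (1 / (1 - lam))
  refine hz j G g C (hG.mono_lam h0.le ?_)
  have h2 : 0 < 1 - lam := by linarith
  rw [div_lt_iff₀ h2] at hj
  have h3 : 1 / ((j : ℝ) + 2) ≤ 1 - lam := by
    have hj0 : (0 : ℝ) ≤ j := Nat.cast_nonneg j
    rw [div_le_iff₀ (by linarith)]
    nlinarith
  linarith

end Pool.Agent.V5helper25.QA
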