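import Pool.Agent.V5helper25.QA.Emb
import Pool.Agent.V5helper25.QA.Lpf

/-!
# MP_3a2b62: the orbits of a free circle action do not come close to themselves; the Lipschitz family
-/

set_option autoImplicit false
set_option linter.unusedVariables false
set_option linter.unusedSectionVars false

open scoped Manifold ContDiff Topology
open Filter Set Metric MeasureTheory

universe u v

namespace Pool.Agent.V5helper25.QA

open Pool.Agent.H718R2.G Pool.Agent.W564.SC Pool.Agent.TH80.OMS Pool.Agent.TH290.CL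
  Pool.Agent.N813.OF Pool.Agent.N813.CX Pool.Agent.V5helper25.TK Pool.Agent.V5helper25.EX
  Pool.Agent.V5helper25.PB

section

variable {n : ℕ} {N : Type u} [TopologicalSpace N] [T2Space N] [CompactSpace N]
  [ChartedSpace (V n) N] [IsManifold (𝓡 n) ∞ N]
  {W : Type v} [NormedAddCommGroup W] [NormedSpace ℝ W] {e : N → W} {ψ : ℝ → N → N}

theorem sep_loc (h : Emb n N e) (hψ : IsFlow n N ψ)
    (hfree : ∀ (y : N) (t : ℝ), ψ t y = y ↔ ∃ j : ℤ, t = j) (x₀ : N) :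
    ∃ K : ℝ, 0 ≤ K ∧ ∀ᶠ p in 𝓝 ((0 : ℝ), x₀), |p.1| ≤ K * ‖e (ψ p.1 p.2) - e p.2‖ := by
  obtain ⟨φ, hφ, hx, hloc⟩ := h.loc x₀
  set G : ℝ × V n → V n := fun q => φ (ψ q.1 (φ.symm q.2)) with hG
  have hinv : φ.symm (φ x₀) = x₀ := φ.left_inv hx
  have hψ1 : ContMDiff (𝓘(ℝ, ℝ).prod (𝓡 n)) (𝓡 n) 1 (fun q : ℝ × N => ψ q.1 q.2) :=
    hψ.smooth.of_le (by norm_cast)
  have hψc : Continuous (fun q : ℝ × N => ψ q.1 q.2) := hψ.smooth.continuous
  have hGd : ContDiffAt ℝ 1 G (0, φ x₀) := by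
    rw [← contMDiffAt_iff_contDiffAt]
    have h1 : ContMDiffAt 𝓘(ℝ, ℝ × V n) 𝓘(ℝ, ℝ) 1 (fun q : ℝ × V n => q.1) (0, φ x₀) :=
      contDiffAt_fst.contMDiffAt
    have h2 : ContMDiffAt 𝓘(ℝ, ℝ × V n) (𝓡 n) 1 (fun q : ℝ × V n => q.2) (0, φ x₀) :=
      contDiffAt_snd.contMDiffAt
    have h3 : ContMDiffAt (𝓡 n) (𝓡 n) 1 φ.symm (φ x₀) := by
      have h4 : ContMDiffOn (𝓡 n) (𝓡 n) ∞ φ.symm φ.target :=
        contMDiffOn_symm_of_mem_maximalAtlas hφ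
      exact (h4.contMDiffAt (φ.open_target.mem_nhds (φ.map_source hx))).of_le (by norm_cast)
    have h5 : ContMDiffAt 𝓘(ℝ, ℝ × V n) (𝓡 n) 1 (fun q : ℝ × V n => φ.symm q.2) (0, φ x₀) :=
      ContMDiffAt.comp (g := φ.symm) (f := fun q : ℝ × V n => q.2) _ h3 h2
    have h6 : ContMDiffAt 𝓘(ℝ, ℝ × V n) (𝓘(ℝ, ℝ).prod (𝓡 n)) 1
        (fun q : ℝ × V n => (q.1, φ.symm q.2)) (0, φ x₀) := h1.prodMk h5
    have h7 : ContMDiffAt 𝓘(ℝ, ℝ × V n) (𝓡 n) 1 (fun q : ℝ × V n => ψ q.1 (φ.symm q.2))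
        (0, φ x₀) :=
      ContMDiffAt.comp (g := fun q : ℝ × N => ψ q.1 q.2)
        (f := fun q : ℝ × V n => (q.1, φ.symm q.2)) _ hψ1.contMDiffAt h6
    have h8 : ContMDiffAt (𝓡 n) (𝓡 n) 1 φ (ψ 0 (φ.symm (φ x₀))) :=
      ((contMDiffOn_of_mem_maximalAtlas hφ).contMDiffAt
        (φ.open_source.mem_nhds (by rw [hinv, hψ.zero]; exact hx))).of_le (by norm_cast)
    exact ContMDiffAt.comp (g := φ) (f := fun q : ℝ × V n => ψ q.1 (φ.symm q.2)) _ h8 h7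
  have hst := hGd.hasStrictFDerivAt (by norm_num)
  set D := fderiv ℝ G (0, φ x₀) with hD
  set ξ := D (1, 0) with hξ
  have hξ0 : ξ ≠ 0 := by
    intro h0
    have h4 : HasDerivAt (fun s : ℝ => (s, φ x₀)) ((1 : ℝ), (0 : V n)) 0 :=
      (hasDerivAt_id (0 : ℝ)).prodMk (hasDerivAt_const _ _)
    have h5 := HasFDerivAt.comp_hasDerivAt (f := fun s : ℝ => (s, φ x₀)) (0 : ℝ)
      hst.hasFDerivAt h4
    rw [← hξ, h0] at h5
    have h6 : HasDerivAt (fun s => φ (ψ s x₀)) 0 0 := by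
      refine h5.congr_of_eventuallyEq (Eventually.of_forall fun s => ?_)
      show φ (ψ s x₀) = φ (ψ s (φ.symm (φ x₀)))
      rw [hinv]
    have h7 := TAN.const_of_deriv_zero hψ x₀ hφ hx h6 (1 / 2)
    obtain ⟨j, hj⟩ := (hfree x₀ (1 / 2)).1 h7
    have h8 : (2 * j : ℤ) = 1 := by
      have : (2 * (j : ℝ)) = 1 := by rw [← hj]; norm_num
      exact_mod_cast this
    omega
  have hξp : 0 < ‖ξ‖ := norm_pos_iff.2 hξ0
  have hlo := hst.isLittleO.def (show 0 < ‖ξ‖ / 2 by positivity)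
  refine ⟨2 / ‖ξ‖, by positivity, ?_⟩
  have c0 : Tendsto (fun p : ℝ × N => φ p.2) (𝓝 (0, x₀)) (𝓝 (φ x₀)) :=
    ContinuousAt.comp (g := φ) (f := fun p : ℝ × N => p.2) (φ.continuousAt hx) (by fun_prop)
  have c1 : Tendsto (fun p : ℝ × N => (((p.1, φ p.2) : ℝ × V n), ((0, φ p.2) : ℝ × V n)))
      (𝓝 (0, x₀)) (𝓝 ((0, φ x₀), (0, φ x₀))) :=
    (continuousAt_fst.prodMk c0).prodMk (continuousAt_const.prodMk c0)
  have c2 : Tendsto (fun p : ℝ × N => (ψ p.1 p.2, p.2)) (𝓝 (0, x₀)) (𝓝 (x₀, x₀)) := by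
    have : ContinuousAt (fun p : ℝ × N => (ψ p.1 p.2, p.2)) (0, x₀) :=
      (hψc.prodMk continuous_snd).continuousAt
    rw [ContinuousAt] at this
    simp only [hψ.zero] at this
    exact this
  have c3 : ∀ᶠ p : ℝ × N in 𝓝 (0, x₀), p.2 ∈ φ.source :=
    (show ContinuousAt (fun p : ℝ × N => p.2) (0, x₀) by fun_prop).eventually
      (φ.open_source.mem_nhds hx)
  filter_upwards [c1.eventually hlo, c2.eventually hloc, c3] with p a1 a2 a3
  have b1 : G (p.1, φ p.2) = φ (ψ p.1 p.2) := by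
    show φ (ψ p.1 (φ.symm (φ p.2))) = _
    rw [φ.left_inv a3]
  have b2 : G (0, φ p.2) = φ p.2 := by
    show φ (ψ 0 (φ.symm (φ p.2))) = _
    rw [φ.left_inv a3, hψ.zero]
  have b3 : ((p.1, φ p.2) : ℝ × V n) - (0, φ p.2) = p.1 • ((1 : ℝ), (0 : V n)) := by
    rw [Prod.mk_sub_mk, sub_self, sub_zero, Prod.smul_mk, smul_zero, smul_eq_mul, mul_one]
  have b4 : ‖((p.1, φ p.2) : ℝ × V n) - (0, φ p.2)‖ = |p.1| := by
    rw [Prod.mk_sub_mk, sub_self, sub_zero, Prod.norm_mk, norm_zero,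
      max_eq_left (norm_nonneg _), Real.norm_eq_abs]
  simp only [b4] at a1
  rw [b3, map_smul, b1, b2, ← hξ] at a1
  have b5 : ‖p.1 • ξ‖ = |p.1| * ‖ξ‖ := by rw [norm_smul, Real.norm_eq_abs]
  have b6 := norm_sub_norm_le (p.1 • ξ) (φ (ψ p.1 p.2) - φ p.2)
  rw [norm_sub_rev (p.1 • ξ) (φ (ψ p.1 p.2) - φ p.2)] at b6
  have a2' : ‖φ (ψ p.1 p.2) - φ p.2‖ ≤ ‖e (ψ p.1 p.2) - e p.2‖ := a2
  rw [div_mul_eq_mul_div, le_div_iff₀ hξp]
  rw [b5] at b6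
  linarith

/-- **The orbits of a free action of the circle do not come close to themselves.** -/
theorem sep_emb (h : Emb n N e) (hψ : IsFlow n N ψ)
    (hfree : ∀ (y : N) (t : ℝ), ψ t y = y ↔ ∃ j : ℤ, t = j) :
    ∃ K : ℝ, 0 ≤ K ∧ ∀ (t : ℝ) (x : N), ∃ j : ℤ, |t - (j : ℝ)| ≤ K * ‖e (ψ t x) - e x‖ := by
  have hK : IsCompact (Icc (-(1 / 2) : ℝ) (1 / 2) ×ˢ (univ : Set N)) :=
    isCompact_Icc.prod isCompact_univ
  have hψc : Continuous (fun q : ℝ × N => ψ q.1 q.2) := hψ.smooth.continuous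
  have hec : Continuous e := h.smooth.continuous
  have key : ∃ K : ℝ, 0 ≤ K ∧ ∀ p ∈ Icc (-(1 / 2) : ℝ) (1 / 2) ×ˢ (univ : Set N),
      |p.1| ≤ K * ‖e (ψ p.1 p.2) - e p.2‖ := by
    refine hK.induction_on (p := fun s => ∃ K : ℝ, 0 ≤ K ∧ ∀ p ∈ s,
      |p.1| ≤ K * ‖e (ψ p.1 p.2) - e p.2‖) ?_ ?_ ?_ ?_
    · exact ⟨0, le_rfl, fun p hp => absurd hp (notMem_empty _)⟩
    · rintro s t hst ⟨K, hK, h1⟩
      exact ⟨K, hK, fun p hp => h1 p (hst hp)⟩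
    · rintro s t ⟨K, hK, h1⟩ ⟨K', hK', h2⟩
      refine ⟨max K K', hK.trans (le_max_left _ _), fun p hp => ?_⟩
      rcases hp with hp | hp
      · exact (h1 p hp).trans (mul_le_mul_of_nonneg_right (le_max_left _ _) (norm_nonneg _))
      · exact (h2 p hp).trans (mul_le_mul_of_nonneg_right (le_max_right _ _) (norm_nonneg _))
    · rintro ⟨b₀, x₀⟩ ⟨hb, -⟩
      have key2 : ∃ K : ℝ, 0 ≤ K ∧ ∀ᶠ p in 𝓝 (b₀, x₀), |p.1| ≤ K * ‖e (ψ p.1 p.2) - e p.2‖ := by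
        by_cases hb0 : b₀ = 0
        · subst hb0
          exact sep_loc h hψ hfree x₀
        · have hne : ψ b₀ x₀ ≠ x₀ := by
            intro hc
            obtain ⟨j, hj⟩ := (hfree x₀ b₀).1 hc
            have h1 : (-(1 / 2) : ℝ) ≤ b₀ := hb.1
            have h2 : b₀ ≤ (1 / 2 : ℝ) := hb.2
            rw [hj] at h1 h2
            have e1 : (-1 : ℝ) < j := by linarith
            have e2 : (j : ℝ) < 1 := by linarith
            have e3 : -1 < j := by exact_mod_cast e1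
            have e4 : j < 1 := by exact_mod_cast e2
            have e5 : j = 0 := by omega
            rw [e5, Int.cast_zero] at hj
            exact hb0 hj
          have hpos : 0 < ‖e (ψ b₀ x₀) - e x₀‖ :=
            norm_pos_iff.2 (sub_ne_zero.2 fun hc => hne (h.inj hc))
          set c := ‖e (ψ b₀ x₀) - e x₀‖ with hc
          refine ⟨(|b₀| + 1) / (c / 2), by positivity, ?_⟩
          have c1 : ContinuousAt (fun p : ℝ × N => ‖e (ψ p.1 p.2) - e p.2‖) (b₀, x₀) :=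
            ((hec.comp hψc).sub (hec.comp continuous_snd)).norm.continuousAt
          have c2 : ContinuousAt (fun p : ℝ × N => |p.1|) (b₀, x₀) := by fun_prop
          filter_upwards [c1.eventually (lt_mem_nhds (show c / 2 < c by linarith)),
            c2.eventually (gt_mem_nhds (show |b₀| < |b₀| + 1 by linarith))] with p a1 a2
          have b1 : (|b₀| + 1) / (c / 2) * (c / 2) ≤
              (|b₀| + 1) / (c / 2) * ‖e (ψ p.1 p.2) - e p.2‖ :=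
            mul_le_mul_of_nonneg_left a1.le (by positivity)
          rw [div_mul_cancel₀ _ (by positivity)] at b1
          exact a2.le.trans b1
      obtain ⟨K, hK, h1⟩ := key2
      exact ⟨_, mem_nhdsWithin_of_mem_nhds h1, K, hK, fun p hp => hp⟩
  obtain ⟨K, hK, h1⟩ := key
  refine ⟨K, hK, fun t x => ⟨round t, ?_⟩⟩
  have h2 := abs_le.1 (abs_sub_round t)
  have h3 := h1 (t - round t, x) ⟨⟨h2.1, h2.2⟩, mem_univ _⟩
  have h4 : ψ (t - round t) x = ψ t x := by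
    rw [sub_eq_add_neg, hψ.add, (hfree x (-(round t : ℝ))).2 ⟨-round t, by push_cast; ring⟩]
  simp only [h4] at h3
  exact h3

/-- the Lipschitz constants of the flow -/
theorem lipψ_emb (h : Emb n N e) (hψ : IsFlow n N ψ)
    (hfree : ∀ (y : N) (t : ℝ), ψ t y = y ↔ ∃ j : ℤ, t = j) :
    ∃ K : ℝ, 0 ≤ K ∧ ∀ t x y, ‖e (ψ t x) - e (ψ t y)‖ ≤ K * ‖e x - e y‖ := by
  have hg : ContMDiff (𝓘(ℝ, ℝ).prod (𝓡 n)) 𝓘(ℝ, W) 1 (fun q : ℝ × N => e (ψ q.1 q.2)) :=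
    (h.smooth.comp hψ.smooth).of_le (by norm_cast)
  obtain ⟨K, hK, h1⟩ := lip_emb h hg
  refine ⟨K, hK, fun t x y => ?_⟩
  have h4 : ∀ z, ψ (t - ⌊t⌋) z = ψ t z := fun z => by
    rw [sub_eq_add_neg, hψ.add, (hfree z (-(⌊t⌋ : ℝ))).2 ⟨-⌊t⌋, by push_cast; ring⟩]
  have h5 := h1 (t - ⌊t⌋) ⟨by linarith [Int.floor_le t], by linarith [Int.lt_floor_add_one t]⟩ x y
  simp only [h4] at h5
  exact h5

/-- the Lipschitz constants of the maps -/
theorem lipF_emb (h : Emb n N e) (hψ : IsFlow n N ψ) {F : N → N}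
    (hF : ContMDiff (𝓡 n) (𝓡 n) 1 F) (s : ℝ) :
    ∃ K : ℝ, 0 ≤ K ∧ ∀ x y, ‖e (ψ s (F x)) - e (ψ s (F y))‖ ≤ K * ‖e x - e y‖ := by
  have hk2 : ContMDiff (𝓘(ℝ, ℝ).prod (𝓡 n)) (𝓡 n) 1 (fun q : ℝ × N => ψ s (F q.2)) :=
    ContMDiff.comp (g := fun q : ℝ × N => ψ q.1 q.2) (f := fun q : ℝ × N => (s, F q.2))
      (hψ.smooth.of_le (by norm_cast)) (contMDiff_const.prodMk (hF.comp contMDiff_snd))
  have hg : ContMDiff (𝓘(ℝ, ℝ).prod (𝓡 n)) 𝓘(ℝ, W) 1 (fun q : ℝ × N => e (ψ s (F q.2))) :=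
    (h.smooth.of_le (by norm_cast)).comp hk2
  obtain ⟨K, hK, h1⟩ := lip_emb h hg
  exact ⟨K, hK, fun x y => h1 0 ⟨le_rfl, zero_le_one⟩ x y⟩

end

end Pool.Agent.V5helper25.QA
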