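import Pool.Agent.V5helper25.QA.Lpf
import Pool.Agent.V5helper25.QA.Lif
import Pool.Agent.V5helper25.PB.Res

/-!
# MP_3a2b62: orbits over points which are asymptotic to typical points
-/

set_option autoImplicit false
set_option linter.unusedVariables false
set_option linter.unusedSectionVars false

open scoped Topology ENNReal
open MeasureTheory Filter Set Metric

universe u v

namespace Pool.Agent.V5helper25.QA

open Pool.Agent.TH80.OMS Pool.Agent.N813.CX Pool.Agent.V5helper25.TK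
  Pool.Agent.V5helper25.TG Pool.Agent.V5helper25.EX Pool.Agent.V5helper25.PA
  Pool.Agent.TH525.PF Pool.Agent.TH525.PF.Sys Pool.Agent.V5helper25.PB Pool.Agent.H728R2.FA

/-- exponentially asymptotic points of the base: the fibres over their orbits are exponentially
close -/
def AsyB {N : Type u} [MetricSpace N] {B : Type v} (π : N → B) (f : B → B) (p y : B) : Prop :=
  ∃ (x w : ℕ → N) (C lam : ℝ), 0 ≤ C ∧ 0 < lam ∧ lam < 1 ∧ (∀ n, π (x n) = f^[n] p) ∧
    (∀ n, π (w n) = f^[n] y) ∧ ∀ n, dist (x n) (w n) ≤ C * lam ^ n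

/-- finitely many transitive sets attract the orbits over the points asymptotic to typical points -/
def Fin1 {N : Type u} [MetricSpace N] {B : Type v} [MeasurableSpace B] (G : N → N)
    (ψ : ℝ → N → N) (π : N → B) (f : B → B) (m : Measure B) : Prop :=
  ∃ (k : ℕ) (Λ : Fin k → Set N), (∀ i, IsClosed (Λ i) ∧ G '' Λ i = Λ i ∧
      ∃ x ∈ Λ i, Λ i ⊆ closure (range fun n : ℕ => G^[n] x)) ∧
    ∀ᵐ y ∂m, ∀ p, AsyB π f p y → ∀ z, π z = p → ∀ᵐ t : ℝ, ∃ i,
      Tendsto (fun n => infDist (G^[n] (ψ t z)) (Λ i)) atTop (𝓝 0)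

section

variable {N : Type u} [MetricSpace N] [CompactSpace N] {F : N ≃ₜ N} {ψ : ℝ → N → N}
  {A A' : ℝ → N → ℝ → ℝ} {c L : ℝ}
  {B : Type v} [MetricSpace B] [MeasurableSpace B] [BorelSpace B] {π : N → B} {f : B → B}

theorem asyN_of (h : MFam F ψ A A' c L) (hl : LipFam F ψ A) (ho : OrbitMap F ψ π f) {p y : B}
    (ha : AsyB π f p y) {z v : N} (hz : π z = p) (hv : π v = y) : AsyN F ψ z v := by
  obtain ⟨x, w, C, lam, hC, h0, h1, hx, hw, hd⟩ := ha
  obtain ⟨K, hK, lK⟩ := hl.lipψ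
  have hxa : ∀ n, ∃ a, F^[n] z = ψ a (x n) := by
    intro n
    refine (ho.eq (x n) (F^[n] z)).1 ?_
    rw [hx, CLOS.semi_iter ho, hz]
  have hwb : ∀ n, ∃ b, w n = ψ b (F^[n] v) := by
    intro n
    refine (ho.eq (F^[n] v) (w n)).1 ?_
    rw [hw, CLOS.semi_iter ho, hv]
  choose a ha using hxa
  choose b hb using hwb
  refine ⟨fun n => a n + b n, K * C, lam, mul_nonneg hK hC, h0, h1, fun n => ?_⟩
  show dist (F^[n] z) (ψ (a n + b n) (F^[n] v)) ≤ _
  rw [ha, h.add, ← hb]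
  calc _ ≤ K * dist (x n) (w n) := lK _ _ _
    _ ≤ K * (C * lam ^ n) := mul_le_mul_of_nonneg_left (hd n) hK
    _ = _ := by ring

variable [MeasurableSpace N] [BorelSpace N] {ν : Measure N} [IsProbabilityMeasure ν]
  {m : Measure B} [IsProbabilityMeasure m]

/-- from almost all points to almost all fibres -/
theorem push_ae (hπ : Continuous π) (hν : ν.map π = m) {P : N → Prop} (hP : ∀ᵐ v ∂ν, P v) :
    ∀ᵐ y ∂m, ∃ v, π v = y ∧ P v := by
  obtain ⟨t, ht, mt, ht0⟩ := exists_measurable_superset_of_null (ae_iff.1 hP)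
  have hU1 : ν tᶜ = 1 := by
    have := prob_compl_eq_one_sub (μ := ν) mt
    rw [ht0, tsub_zero] at this
    exact this
  rw [ae_iff]
  by_contra hne
  set e := m {y | ¬∃ v, π v = y ∧ P v} with he
  obtain ⟨K, hKt, hK, hKe⟩ := mt.compl.exists_isCompact_lt_add (measure_ne_top ν _) hne
  rw [hU1] at hKe
  have hcl : MeasurableSet (π '' K) := (hK.image hπ).isClosed.measurableSet
  have h1 : {y | ¬∃ v, π v = y ∧ P v} ⊆ (π '' K)ᶜ := by
    rintro y hy ⟨v, hv, rfl⟩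
    refine hy ⟨v, rfl, ?_⟩
    by_contra hc
    exact hKt hv (ht hc)
  have h2 : m (π '' K)ᶜ ≤ ν Kᶜ := by
    rw [← hν, Measure.map_apply hπ.measurable hcl.compl]
    refine measure_mono ?_
    intro v hv hvK
    exact hv ⟨v, hvK, rfl⟩
  have h3 : ν Kᶜ < e := by
    rw [prob_compl_eq_one_sub hK.isClosed.measurableSet]
    refine (ENNReal.sub_lt_iff_lt_right (measure_ne_top ν _) prob_le_one).2 ?_
    rw [add_comm]
    exact hKe
  exact absurd ((measure_mono h1).trans h2) (not_le.2 h3)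

/-- **Locked parameters to the right of `0`.** -/
theorem lk0 (h : MFam F ψ A A' c L) (hl : LipFam F ψ A) (ho : OrbitMap F ψ π f)
    (erg : Ergodic f m) {b : ℝ} (hG : ∀ n, m (π '' Ga F A 0 b n) = 0) :
    ∃ Z : Set ℝ, IsClosed Z ∧ volume Z = 0 ∧
      ∀ s, 0 ≤ s → s ≤ b → s ∉ Z → Fin1 (Fs F ψ A s) ψ π f m := by
  classical
  have hCB : CompactSpace B := ⟨by rw [← ho.surj.range_eq]; exact isCompact_range ho.cont⟩
  obtain ⟨ν, hν1, hν2, hν3⟩ : ∃ ν : Measure N, IsProbabilityMeasure ν ∧ Ergodic F ν ∧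
      ν.map π = m := by
    obtain ⟨μ₀, hμ₀, hμ₀'⟩ := exists_lift0 (top h) ho m
    exact exists_erg_lift F.continuous ho.cont ho.semi erg hμ₀'
  set S := famN h with hS
  have hTT : (S.T : N → N) = F := rfl
  have ergS : Ergodic S.T ν := by rw [hTT]; exact hν2
  refine ⟨S.Neu ν, S.neu_closed ergS h.aone h.azero, S.sard ergS, fun s hs0 hs1 hs => ?_⟩
  have hν4 : ∀ᵐ y ∂ν, ∀ n, y ∉ Ga F A 0 b n := by
    rw [ae_all_iff]
    intro n
    have h3 : ∀ᵐ x ∂m, x ∉ π '' Ga F A 0 b n := measure_eq_zero_iff_ae_notMem.1 (hG n)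
    have hQ : Measure.QuasiMeasurePreserving π ν m :=
      ⟨ho.cont.measurable, hν3 ▸ Measure.AbsolutelyContinuous.rfl⟩
    filter_upwards [hQ.ae h3] with y hy hc
    exact hy ⟨y, hc, rfl⟩
  have hco0 : ∀ n y, co F A 0 n y 0 = 0 := by
    intro n y
    induction n with
    | zero => rfl
    | succ n ih =>
      show A 0 _ (co F A 0 n y 0) = 0
      rw [ih, h.azero]
  have hbd : ∀ᵐ y ∂ν, ∀ n, (S.sy b).it n y 0 ≤ 2 := by
    filter_upwards [hν4] with y hy n
    have h3 := Ga_not h (hy n) 0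
    rw [hco0] at h3
    rw [hS, it_co]
    linarith
  obtain ⟨α, hα⟩ := S.exists_gr ergS h.azero hs0 hs1 hbd
  have htop := top h
  obtain ⟨A1, hA1, hnear⟩ := near_all (S := S.sy s) (ν := ν) ergS (fun x y => h.aone s x y)
    (fun φ hφ h0 => hs ⟨φ, hφ, h0⟩) hα
  -- the graphs as orbits
  have hstep : ∀ φ, (S.sy s).Gr ν φ → ∀ᵐ y ∂ν, ∀ n : ℕ,
      (fsH h s)^[n] (ψ (φ y) y) = ψ (φ (F^[n] y)) (F^[n] y) := by
    intro φ hφ
    filter_upwards [hφ.iter (S.sy s) ergS] with y hy n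
    have e1 := hy n
    rw [hS, it_co] at e1
    have e2 := co_iter h s n y (φ y)
    rw [e1] at e2
    exact e2
  have hatt : ∀ φ : N → ℝ, ∃ Λ : Set N, (S.sy s).Gr ν φ → (IsClosed Λ ∧ fsH h s '' Λ = Λ ∧
      (∃ x ∈ Λ, Λ ⊆ closure (range fun n : ℕ => (fsH h s)^[n] x)) ∧
      ∀ᵐ y ∂ν, ψ (φ y) y ∈ Λ) := by
    intro φ
    by_cases hφ : (S.sy s).Gr ν φ
    · obtain ⟨Λ, a1, a2, a3, a4, a5⟩ := factor_attractor ergS (fsH h s) (fun y => ψ (φ y) y)
        (h.cont.measurable.comp (hφ.1.prodMk measurable_id)) (hstep φ hφ)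
      exact ⟨Λ, fun _ => ⟨a1, a2, a3, a5⟩⟩
    · exact ⟨∅, fun h' => absurd h' hφ⟩
  choose Λ hΛ using hatt
  set e := A1.equivFin with he
  refine ⟨A1.card, fun i => Λ (e.symm i), fun i => ?_, ?_⟩
  · have hφ := (hA1 _ (e.symm i).2).1
    exact ⟨(hΛ _ hφ).1, (hΛ _ hφ).2.1, (hΛ _ hφ).2.2.1⟩
  -- typical points upstairs
  obtain ⟨K, hK, lK⟩ := hl.lipψ
  have hmem : ∀ᵐ v ∂ν, ∀ φ ∈ A1, ∀ n : ℕ, ψ (φ (F^[n] v)) (F^[n] v) ∈ Λ φ := by
    refine (Filter.eventually_all_finset A1).2 fun φ hφ => ?_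
    obtain ⟨a1, a2, a3, a4⟩ := hΛ φ (hA1 φ hφ).1
    filter_upwards [a4, hstep φ (hA1 φ hφ).1] with v hv hst n
    rw [← hst n]
    induction n with
    | zero => exact hv
    | succ n ih =>
      rw [Function.iterate_succ_apply', ← a2]
      exact mem_image_of_mem _ ih
  have hP : ∀ᵐ v ∂ν, ∀ z, AsyN F ψ z v → ∀ᵐ t : ℝ, ∃ i,
      Tendsto (fun n => infDist ((Fs F ψ A s)^[n] (ψ t z)) (Λ (e.symm i))) atTop (𝓝 0) := by
    filter_upwards [hnear, hmem] with v hv hvm z hz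
    obtain ⟨σ, C, lam, hC, h0, h1, hσ⟩ := hz
    obtain ⟨τ, C', hC', hτ, hτ'⟩ := exists_tau h hl hC h0 h1 hσ
    obtain ⟨C'', hsh⟩ := shad_of h hl s hC hC' h0 h1 hτ hτ'
    have hcount := hv _ _ C'' lam h0 h1 hsh
    have hae : ∀ᵐ t : ℝ, t + τ 0 ∉ {t : ℝ | ∃ X, IsOrb (fun n u => A s (F^[n] z) (u - τ n) +
        τ (n + 1)) 0 X ∧ X 0 = t ∧ ¬ Att (S.sy s) A1 v X} := by
      have hc2 : ((fun t : ℝ => t + τ 0) ⁻¹' {t : ℝ | ∃ X, IsOrb (fun n u => A s (F^[n] z)
          (u - τ n) + τ (n + 1)) 0 X ∧ X 0 = t ∧ ¬ Att (S.sy s) A1 v X}).Countable :=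
        hcount.preimage (add_left_injective (τ 0))
      exact measure_eq_zero_iff_ae_notMem.1 (hc2.measure_zero volume)
    filter_upwards [hae] with t ht
    -- the orbit
    have horb : IsOrb (fun n u => A s (F^[n] z) (u - τ n) + τ (n + 1)) 0
        (fun n => co F A s n z t + τ n) := by
      intro n _
      show A s (F^[n] z) (co F A s n z t) + τ (n + 1) =
        A s (F^[n] z) (co F A s n z t + τ n - τ n) + τ (n + 1)
      rw [add_sub_cancel_right]
    have hA : Att (S.sy s) A1 v (fun n => co F A s n z t + τ n) := by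
      by_contra hc
      exact ht ⟨_, horb, rfl, hc⟩
    obtain ⟨φ, hφ, k, hk⟩ := hA
    refine ⟨e ⟨φ, hφ⟩, ?_⟩
    rw [e.symm_apply_apply]
    have hk' : Tendsto (fun n => co F A s n z t + τ n - (φ (F^[n] v) + k)) atTop (𝓝 0) := hk
    rw [Metric.tendsto_atTop]
    intro ε hε
    obtain ⟨δ, hδ, hδ2⟩ := psi_small htop (half_pos hε)
    have hlim : Tendsto (fun n : ℕ => K * (C * lam ^ n)) atTop (𝓝 0) := by
      have := ((tendsto_pow_atTop_nhds_zero_of_lt_one h0.le h1).const_mul C).const_mul K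
      simpa using this
    obtain ⟨N1, hN1⟩ := (Metric.tendsto_atTop.1 hk') δ hδ
    obtain ⟨N2, hN2⟩ := eventually_atTop.1 (hlim.eventually (gt_mem_nhds (half_pos hε)))
    refine ⟨max N1 N2, fun n hn => ?_⟩
    have b1 := hN1 n ((le_max_left _ _).trans hn)
    rw [Real.dist_eq, sub_zero] at b1
    have b2 := hN2 n ((le_max_right _ _).trans hn)
    rw [Real.dist_eq, sub_zero, abs_of_nonneg infDist_nonneg, co_iter h]
    refine (infDist_le_dist_of_mem (hvm φ hφ n)).trans_lt ?_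
    have c1 : dist (ψ (co F A s n z t) (F^[n] z)) (ψ (co F A s n z t + τ n) (F^[n] v)) ≤
        K * (C * lam ^ n) := by
      rw [h.add]
      exact (lK _ _ _).trans (mul_le_mul_of_nonneg_left (hτ n) hK)
    have c2 : dist (ψ (co F A s n z t + τ n) (F^[n] v)) (ψ (φ (F^[n] v)) (F^[n] v)) < ε / 2 := by
      have e1 : ψ (φ (F^[n] v)) (F^[n] v) = ψ (φ (F^[n] v) + k) (F^[n] v) :=
        ((psi_eq htop _ _ _).2 ⟨k, rfl⟩).symm
      have e2 := hδ2 (ψ (φ (F^[n] v) + k) (F^[n] v)) _ b1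
      rw [← h.add, sub_add_cancel] at e2
      rw [e1]
      exact e2
    have c3 := dist_triangle (ψ (co F A s n z t) (F^[n] z)) (ψ (co F A s n z t + τ n) (F^[n] v))
      (ψ (φ (F^[n] v)) (F^[n] v))
    linarith
  filter_upwards [push_ae ho.cont hν3 hP] with y hy p hp z hz
  obtain ⟨v, hv, hvP⟩ := hy
  exact hvP z (asyN_of h hl ho hp hz hv)

end

end Pool.Agent.V5helper25.QA
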